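import Pool.Agent.P.MP_07ee5e_gt.Deform

/-! Boxes in boundary charts; positivity and finiteness of volume and area. -/

set_option autoImplicit false

open scoped Manifold ContDiff ENNReal Topology
open MeasureTheory Set Bundle Metric Filter

noncomputable section

namespace Pool.Agent.P.MP_07ee5e_gt

section
variable {M : Type*} [TopologicalSpace M] [MeasurableSpace M] [BorelSpace M] [T2Space M] {m : ℕ}
  {P : Euc m → M} {T : Set (Euc m)} {G : Euc m → Matrix (Fin m) (Fin m) ℝ}

lemma IsParam.apply_ne_zero (h : IsParam P T G) {A : Set M} (hA : MeasurableSet A)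
    (hpos : ∀ y ∈ T, 0 < (G y).det) (hvol : volume (T ∩ P ⁻¹' A) ≠ 0) :
    paramMeasure P T G A ≠ 0 := by
  rw [h.apply hA]
  intro h0
  have hm := h.measurableSet_preimage hA
  have hd : AEMeasurable (fun y => ENNReal.ofReal √(G y).det) (volume.restrict (T ∩ P ⁻¹' A)) :=
    (((ENNReal.continuous_ofReal.comp Real.continuous_sqrt).comp_continuousOn
      h.contDet).mono inter_subset_left).aemeasurable hm
  rw [lintegral_eq_zero_iff' hd, EventuallyEq, ae_restrict_iff' hm] at h0
  refine hvol (measure_mono_null (fun y hy => ?_) h0)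
  intro h1
  have := h1 hy
  simp only [Pi.zero_apply, ENNReal.ofReal_eq_zero] at this
  exact this.not_gt (Real.sqrt_pos.2 (hpos y hy.1))

lemma IsParam.apply_le (h : IsParam P T G) {A : Set M} (hA : MeasurableSet A) {C : ℝ}
    (hC : ∀ y ∈ T ∩ P ⁻¹' A, √(G y).det ≤ C) :
    paramMeasure P T G A ≤ ENNReal.ofReal C * volume (T ∩ P ⁻¹' A) := by
  rw [h.apply hA, ← setLIntegral_const]
  exact setLIntegral_mono' (h.measurableSet_preimage hA) fun y hy =>
    ENNReal.ofReal_le_ofReal (hC y hy)

lemma IsParam.apply_lt_top (h : IsParam P T G) {A : Set M} (hA : MeasurableSet A)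
    (hc : IsCompact (T ∩ P ⁻¹' A)) : paramMeasure P T G A < ⊤ := by
  obtain ⟨C, hC⟩ := hc.bddAbove_image
    ((Real.continuous_sqrt.comp_continuousOn h.contDet).mono inter_subset_left)
  exact (h.apply_le hA fun y hy => hC (mem_image_of_mem _ hy)).trans_lt
    (ENNReal.mul_lt_top ENNReal.ofReal_lt_top hc.measure_lt_top)

end

variable {d : ℕ}

/-- The point `(t, z)`. -/
def kap (q : ℝ × Euc d) : Euc (d + 1) := bdryPt q.2 + q.1 • EuclideanSpace.single 0 (1 : ℝ)

@[simp] lemma kap_zero (q : ℝ × Euc d) : kap q 0 = q.1 := by simp [kap]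

@[simp] lemma kap_succ (q : ℝ × Euc d) (j : Fin d) : kap q j.succ = q.2 j := by
  simp [kap, Fin.succ_ne_zero]

@[simp] lemma projL_kap (q : ℝ × Euc d) : projL d (kap q) = q.2 := by ext j; simp

lemma kap_projL (y : Euc (d + 1)) : kap (y 0, projL d y) = y := by
  ext i
  refine Fin.cases ?_ (fun j => ?_) i <;> simp

lemma continuous_kap : Continuous (kap : ℝ × Euc d → Euc (d + 1)) :=
  (continuous_bdryPt.comp continuous_snd).add (continuous_fst.smul continuous_const)

lemma measurePreserving_kap : MeasurePreserving (kap : ℝ × Euc d → Euc (d + 1)) := by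
  have h1 := (MeasurePreserving.id (volume : Measure ℝ)).prod (PiLp.volume_preserving_ofLp (Fin d))
  have h2 := (volume_preserving_piFinSuccAbove (fun _ : Fin (d + 1) => ℝ) 0).symm
  have h3 := (PiLp.volume_preserving_toLp (Fin (d + 1))).comp (h2.comp h1)
  convert h3 using 1
  · funext q
    ext i
    refine Fin.cases ?_ (fun j => ?_) i <;> simp [MeasurableEquiv.piFinSuccAbove]
  · rfl

/-- A slab `[a, b] × closedBall c r`. -/
def slab (c : Euc d) (r a b : ℝ) : Set (Euc (d + 1)) :=
  {y | y 0 ∈ Icc a b ∧ projL d y ∈ closedBall c r}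

lemma preimage_kap_slab (c : Euc d) (r a b : ℝ) :
    kap ⁻¹' slab c r a b = Icc a b ×ˢ closedBall c r := by
  ext q
  simp [slab]

lemma isCompact_slab (c : Euc d) (r a b : ℝ) : IsCompact (slab c r a b) := by
  have : slab c r a b = kap '' (Icc a b ×ˢ closedBall c r) := by
    rw [← preimage_kap_slab, image_preimage_eq _ fun y => ⟨_, kap_projL y⟩]
  rw [this]
  exact (isCompact_Icc.prod (isCompact_closedBall _ _)).image continuous_kap

lemma volume_slab (c : Euc d) (r a b : ℝ) :
    volume (slab c r a b) = ENNReal.ofReal (b - a) * volume (closedBall c r) := by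
  rw [← measurePreserving_kap.measure_preimage
    (isCompact_slab c r a b).measurableSet.nullMeasurableSet, preimage_kap_slab,
    Measure.volume_eq_prod, Measure.prod_prod, Real.volume_Icc]

lemma slab_mono (c : Euc d) {r a b r' a' b' : ℝ} (hr : r ≤ r') (ha : a' ≤ a) (hb : b ≤ b') :
    slab c r a b ⊆ slab c r' a' b' :=
  fun _ hy => ⟨Icc_subset_Icc ha hb hy.1, closedBall_subset_closedBall hr hy.2⟩

variable {M : Type*} [TopologicalSpace M]
  [ChartedSpace (EuclideanHalfSpace (d + 1)) M]

variable (d M) in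
/-- A box `[0, h] × closedBall c (4ρ)` inside the target of a chart. -/
structure Box where
  /-- base point of the chart -/
  p : M
  /-- centre -/
  c : Euc d
  /-- radius -/
  ρ : ℝ
  /-- height -/
  h : ℝ
  ρ_pos : 0 < ρ
  h_pos : 0 < h
  sub : slab c (4 * ρ) 0 h ⊆ (ch d p).target

/-- The box as a set. -/
def Box.Q (B : Box d M) : Set (Euc (d + 1)) := slab B.c (4 * B.ρ) 0 B.h

/-- The open subset of the manifold over the small ball of a box. -/
def Box.U (B : Box d M) : Set M :=
  (ch d B.p).source ∩ (fun x => projL d (ch d B.p x)) ⁻¹' ball B.c B.ρ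

lemma Box.isOpen_U (B : Box d M) : IsOpen B.U :=
  ((projL d).continuous.comp_continuousOn (continuousOn_extChartAt B.p)).isOpen_inter_preimage
    (isOpen_extChartAt_source B.p) isOpen_ball

variable [IsManifold (𝓡∂ (d + 1)) ∞ M]

lemma exists_box {x : M} (hx : x ∈ (𝓡∂ (d + 1)).boundary M) : ∃ B : Box d M, x ∈ B.U := by
  have h0 : ch d x x 0 = 0 := (mem_boundary_iff (mem_extChartAt_source x)).1 hx
  have h1 := extChartAt_target_mem_nhdsWithin (I := 𝓡∂ (d + 1)) x
  obtain ⟨ε, hε, h2⟩ := Metric.mem_nhdsWithin_iff.1 h1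
  have hc : ContinuousAt (kap : ℝ × Euc d → Euc (d + 1)) (0, projL d (ch d x x)) :=
    continuous_kap.continuousAt
  obtain ⟨δ, hδ, h3⟩ := Metric.continuousAt_iff.1 hc ε hε
  have h4 : kap (0, projL d (ch d x x)) = ch d x x := by rw [← h0, kap_projL]
  refine ⟨⟨x, projL d (ch d x x), δ / 8, δ / 2, by positivity, by positivity, fun y hy => ?_⟩,
    mem_extChartAt_source x, mem_ball_self (by positivity)⟩
  refine h2 ⟨?_, ?_⟩
  · rw [mem_ball, ← h4, ← kap_projL y]
    refine h3 ?_
    rw [Prod.dist_eq, max_lt_iff]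
    refine ⟨?_, ?_⟩
    · rw [Real.dist_eq, sub_zero, abs_of_nonneg hy.1.1]
      linarith [hy.1.2]
    · have := mem_closedBall.1 hy.2
      simp only
      linarith
  · rw [range_modelWithCornersEuclideanHalfSpace]
    exact hy.1.1

lemma posDef_gram (g : RMetric d M) {p : M} {y : Euc (d + 1)} (hy : y ∈ (ch d p).target) :
    (gram g p y).PosDef := by
  rw [gram_eq g hy]
  refine Matrix.PosDef.of_dotProduct_mulVec_pos ?_ fun v hv => ?_
  · ext i j
    simp [form_symm g p _ (EuclideanSpace.single i (1 : ℝ))]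
  · have hw : (WithLp.toLp 2 v : Euc (d + 1)) ≠ 0 := by simpa using hv
    have hw' : (WithLp.toLp 2 v : Euc (d + 1)) = ∑ k, v k • EuclideanSpace.single k (1 : ℝ) := by
      simpa using ((EuclideanSpace.basisFun (Fin (d + 1)) ℝ).toBasis.sum_repr
        (WithLp.toLp 2 v)).symm
    have := form_pos g ((ch d p).map_target hy) hw
    rw [hw'] at this
    refine this.trans_eq ?_
    simp only [dotProduct, Matrix.mulVec, Matrix.of_apply, map_sum, map_smul, _root_.sum_apply,
      _root_.smul_apply, smul_eq_mul, Finset.mul_sum, star_trivial]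
    rw [Finset.sum_comm]
    exact Finset.sum_congr rfl fun k _ => Finset.sum_congr rfl fun l _ => by ring

lemma eventually_bound {α : Type*} [TopologicalSpace α] {K : Set α} (hK : IsCompact K)
    {f : α → ℝ} (hf : ContinuousOn f K) (hpos : ∀ y ∈ K, 0 < f y) :
    ∀ᶠ C : ℝ in atTop, ∀ y ∈ K, C⁻¹ ≤ f y ∧ f y ≤ C := by
  rcases K.eq_empty_or_nonempty with rfl | hne
  · simp
  obtain ⟨a, ha, h1⟩ := hK.exists_isMinOn hne hf
  obtain ⟨b, -, h2⟩ := hK.exists_isMaxOn hne hf
  filter_upwards [eventually_ge_atTop (f a)⁻¹, eventually_ge_atTop (f b)] with C hC hC' y hy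
  exact ⟨(inv_le_of_inv_le₀ (hpos a ha) hC).trans (h1 hy), (h2 hy).trans hC'⟩

/-- Two-sided bounds for the metric on a box. -/
structure IsBound (g : RMetric d M) (B : Box d M) (C : ℝ) : Prop where
  one_le : 1 ≤ C
  det : ∀ y ∈ B.Q, C⁻¹ ≤ √(gram g B.p y).det ∧ √(gram g B.p y).det ≤ C
  diag : ∀ i, ∀ y ∈ B.Q, C⁻¹ ≤ gram g B.p y i i ∧ gram g B.p y i i ≤ C
  bdet : ∀ y ∈ B.Q, √((gram g B.p y).submatrix Fin.succ Fin.succ).det ≤ C

lemma eventually_isBound (g : RMetric d M) (B : Box d M) : ∀ᶠ C in atTop, IsBound g B C := by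
  have hQ : IsCompact B.Q := isCompact_slab _ _ _ _
  have hc := (continuousOn_gram g B.p).mono B.sub
  have h1 := eventually_bound hQ (f := fun y => √(gram g B.p y).det)
    ((Real.continuous_sqrt.comp continuous_id.matrix_det).comp_continuousOn hc)
    fun y hy => Real.sqrt_pos.2 (posDef_gram g (B.sub hy)).det_pos
  have h2 := eventually_bound hQ
    (f := fun y => √((gram g B.p y).submatrix Fin.succ Fin.succ).det)
    ((Real.continuous_sqrt.comp
      (continuous_id.matrix_submatrix Fin.succ Fin.succ).matrix_det).comp_continuousOn hc)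
    fun y hy => Real.sqrt_pos.2 ((posDef_gram g (B.sub hy)).submatrix (Fin.succ_injective _)).det_pos
  have h3 : ∀ i, _ := fun i => eventually_bound hQ (f := fun y => gram g B.p y i i)
    (continuousOn_pi.1 (continuousOn_pi.1 hc i) i)
    fun y hy => (posDef_gram g (B.sub hy)).diag_pos
  filter_upwards [eventually_ge_atTop 1, h1, h2, eventually_all.2 h3] with C h0 h1 h2 h3
  exact ⟨h0, h1, h3, fun y hy => (h2 y hy).2⟩

variable [T2Space M] [MeasurableSpace M] [BorelSpace M]

lemma area_ne_zero (g : RMetric d M) {U : Set M} (hU : IsOpen U)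
    (hne : (U ∩ (𝓡∂ (d + 1)).boundary M).Nonempty) : area g U ≠ 0 := by
  obtain ⟨x, hxU, hx⟩ := hne
  have h1 := (isParam_area g x).apply_ne_zero hU.measurableSet
    (fun z hz => ((posDef_gram g hz).submatrix (Fin.succ_injective _)).det_pos) ?_
  · exact fun h => h1 (le_antisymm (h ▸ chartArea_le g x U) zero_le)
  · refine (((isParam_area g x).cont.isOpen_inter_preimage (isOpen_preimage_target x)
      hU).measure_pos _ ?_).ne'
    have : x ∈ (ch d x).source ∩ (𝓡∂ (d + 1)).boundary M := ⟨mem_extChartAt_source x, hx⟩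
    rw [← image_bdry] at this
    obtain ⟨z, hz, hz'⟩ := this
    exact ⟨z, hz, mem_preimage.2 (mem_of_eq_of_mem hz' hxU)⟩

lemma vol_ne_zero (g : RMetric d M) (B : Box d M) : vol g univ ≠ 0 := by
  have h1 := (isParam_vol g B.p).apply_ne_zero MeasurableSet.univ
    (fun z hz => (posDef_gram g hz).det_pos) ?_
  · exact fun h => h1 (le_antisymm (h ▸ chartVol_le g B.p univ) zero_le)
  · rw [preimage_univ, inter_univ]
    refine (lt_of_lt_of_le ?_ (measure_mono B.sub)).ne'
    rw [volume_slab]
    have := B.ρ_pos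
    exact ENNReal.mul_pos (by simpa using B.h_pos)
      (measure_closedBall_pos _ _ (by positivity)).ne'

lemma vol_le_chartVol (g : RMetric d M) {p : M} {A : Set M} (hA : A ⊆ (ch d p).source) :
    vol g A ≤ chartVol g p A := by
  rw [← Measure.restrict_eq_self _ hA]
  exact vol_restrict_le g p A

lemma area_le_chartArea (g : RMetric d M) {p : M} {A : Set M} (hA : A ⊆ (ch d p).source) :
    area g A ≤ chartArea g p A := by
  rw [← Measure.restrict_eq_self _ hA]
  exact area_restrict_le g p A

variable [CompactSpace M]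

lemma isFiniteMeasure_vol (g : RMetric d M) : IsFiniteMeasure (vol g) := by
  have : IsLocallyFiniteMeasure (vol g) := by
    refine ⟨fun x => ?_⟩
    obtain ⟨K, hK, hKs, hKc⟩ := local_compact_nhds (extChartAt_source_mem_nhds (I := 𝓡∂ (d + 1)) x)
    refine ⟨K, hK, (vol_le_chartVol g hKs).trans_lt
      ((isParam_vol g x).apply_lt_top hKc.measurableSet ?_)⟩
    rw [← PartialEquiv.image_eq_target_inter_inv_preimage _ hKs]
    exact hKc.image_of_continuousOn ((continuousOn_extChartAt x).mono hKs)
  exact ⟨isCompact_univ.measure_lt_top⟩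

lemma isFiniteMeasure_area (g : RMetric d M) : IsFiniteMeasure (area g) := by
  have : IsLocallyFiniteMeasure (area g) := by
    refine ⟨fun x => ?_⟩
    obtain ⟨K, hK, hKs, hKc⟩ := local_compact_nhds (extChartAt_source_mem_nhds (I := 𝓡∂ (d + 1)) x)
    refine ⟨K, hK, (area_le_chartArea g hKs).trans_lt
      ((isParam_area g x).apply_lt_top hKc.measurableSet ?_)⟩
    have h1 : IsCompact (ch d x '' K) :=
      hKc.image_of_continuousOn ((continuousOn_extChartAt x).mono hKs)
    have h2 : (bdryPt ⁻¹' (ch d x).target ∩ (fun z : Euc d => (ch d x).symm (bdryPt z)) ⁻¹' K) =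
        bdryPt ⁻¹' (ch d x '' K) := by
      rw [PartialEquiv.image_eq_target_inter_inv_preimage _ hKs]
      rfl
    rw [h2]
    refine (h1.image (projL d).continuous).of_isClosed_subset
      (h1.isClosed.preimage continuous_bdryPt) fun z hz => ⟨_, hz, projL_bdryPt z⟩
  exact ⟨isCompact_univ.measure_lt_top⟩

end Pool.Agent.P.MP_07ee5e_gt
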