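import Pool.Agent.P.MP_07ee5e_gt.Param

/-! Coordinate frames, the metric read in a chart, compatibility of the chart measures. -/

set_option autoImplicit false

open scoped Manifold ContDiff ENNReal Topology
open MeasureTheory Set Bundle

noncomputable section

namespace Pool.Agent.P.MP_07ee5e_gt

variable {d : ℕ} {M : Type*} [TopologicalSpace M]
  [ChartedSpace (EuclideanHalfSpace (d + 1)) M] [IsManifold (𝓡∂ (d + 1)) ∞ M]

/-- The extended chart at `p`. -/
abbrev ch (d : ℕ) {M : Type*} [TopologicalSpace M] [ChartedSpace (EuclideanHalfSpace (d + 1)) M]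
    (p : M) : PartialEquiv M (Euc (d + 1)) := extChartAt (𝓡∂ (d + 1)) p

variable (d) in
/-- The coordinate frame of the chart at `p`, at the point `x`. -/
def fr (p x : M) : Euc (d + 1) →L[ℝ] TangentSpace (𝓡∂ (d + 1)) x :=
  (trivializationAt (Euc (d + 1)) (TangentSpace (𝓡∂ (d + 1))) p).symmL ℝ x

/-- The metric read in the chart at `p`, at the point `x`. -/
def form (g : RMetric d M) (p x : M) : Euc (d + 1) →L[ℝ] Euc (d + 1) →L[ℝ] ℝ :=
  ContinuousLinearMap.bilinearComp (𝕜 := ℝ) (𝕜₂ := ℝ) (𝕜₃ := ℝ) (𝕜₁' := ℝ) (𝕜₂' := ℝ)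
    (E := Euc (d + 1)) (F := Euc (d + 1)) (G := ℝ)
    (g.inner x) (fr d p x) (fr d p x)

lemma form_apply (g : RMetric d M) (p x : M) (v w : Euc (d + 1)) :
    form g p x v w = g.inner x (fr d p x v) (fr d p x w) := rfl

omit [IsManifold (𝓡∂ (d + 1)) ∞ M] in
lemma mem_chart_source' {p x : M} (hx : x ∈ (ch d p).source) :
    x ∈ (chartAt (EuclideanHalfSpace (d + 1)) p).source := by
  rwa [← extChartAt_source (𝓡∂ (d + 1))]

lemma fr_eq_mfderivWithin {p x : M} (hx : x ∈ (ch d p).source) (v : Euc (d + 1)) :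
    fr d p x v = mfderivWithin 𝓘(ℝ, Euc (d + 1)) (𝓡∂ (d + 1)) (ch d p).symm
      (range (𝓡∂ (d + 1))) (ch d p x) v := by
  unfold fr
  rw [TangentBundle.symmL_trivializationAt (mem_chart_source' hx)]
  rfl

lemma fr_eq_mfderivWithin' {p : M} {y : Euc (d + 1)} (hy : y ∈ (ch d p).target)
    (v : Euc (d + 1)) :
    fr d p ((ch d p).symm y) v = mfderivWithin 𝓘(ℝ, Euc (d + 1)) (𝓡∂ (d + 1)) (ch d p).symm
      (range (𝓡∂ (d + 1))) y v := by
  rw [fr_eq_mfderivWithin ((ch d p).map_target hy)]
  have : ∀ y' : Euc (d + 1), y' = y →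
      (mfderivWithin 𝓘(ℝ, Euc (d + 1)) (𝓡∂ (d + 1)) (ch d p).symm
        (range (𝓡∂ (d + 1))) y' v : Euc (d + 1)) =
      mfderivWithin 𝓘(ℝ, Euc (d + 1)) (𝓡∂ (d + 1)) (ch d p).symm (range (𝓡∂ (d + 1))) y v := by
    rintro _ rfl; rfl
  exact this _ ((ch d p).right_inv hy)

lemma gram_eq (g : RMetric d M) {p : M} {y : Euc (d + 1)} (hy : y ∈ (ch d p).target) :
    gram g p y = Matrix.of fun i j => form g p ((ch d p).symm y)
      (EuclideanSpace.single i (1 : ℝ)) (EuclideanSpace.single j (1 : ℝ)) := by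
  ext i j
  simp only [gram, Matrix.of_apply, form_apply, fr_eq_mfderivWithin' hy]
  rfl

lemma fr_eq_tangentCoordChange {p x : M} (hx : x ∈ (ch d p).source) (v : Euc (d + 1)) :
    fr d p x v = tangentCoordChange (𝓡∂ (d + 1)) p x x v := by
  unfold fr
  rw [TangentBundle.symmL_trivializationAt_eq_core (mem_chart_source' hx)]
  rfl

lemma fr_change {p q x : M} (hp : x ∈ (ch d p).source) (hq : x ∈ (ch d q).source)
    (v : Euc (d + 1)) :
    fr d p x v = fr d q x (tangentCoordChange (𝓡∂ (d + 1)) p q x v) := by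
  rw [fr_eq_tangentCoordChange hp, fr_eq_tangentCoordChange hq]
  exact (tangentCoordChange_comp ⟨⟨hp, hq⟩, mem_extChartAt_source x⟩).symm

lemma fr_surjective {p x : M} (hx : x ∈ (ch d p).source) : Function.Surjective (fr d p x) := by
  intro v
  refine ⟨tangentCoordChange (𝓡∂ (d + 1)) x p x v, ?_⟩
  refine (fr_change (mem_extChartAt_source x) hx v).symm.trans ?_
  refine (fr_eq_tangentCoordChange (mem_extChartAt_source x) v).trans ?_
  exact tangentCoordChange_self (I := 𝓡∂ (d + 1)) (v := (v : Euc (d + 1))) (mem_extChartAt_source x)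

lemma fr_ne_zero {p x : M} (hx : x ∈ (ch d p).source) {v : Euc (d + 1)} (hv : v ≠ 0) :
    fr d p x v ≠ 0 := by
  intro h
  apply hv
  have := (trivializationAt (Euc (d + 1)) (TangentSpace (𝓡∂ (d + 1))) p).continuousLinearMapAt_symmL
    (R := ℝ) (b := x) (mem_chart_source' hx) v
  rw [← this]
  change (trivializationAt (Euc (d + 1)) (TangentSpace (𝓡∂ (d + 1))) p).continuousLinearMapAt ℝ x
    (fr d p x v) = 0
  rw [h, map_zero]

lemma form_pos (g : RMetric d M) {p x : M} (hx : x ∈ (ch d p).source) {v : Euc (d + 1)}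
    (hv : v ≠ 0) : 0 < form g p x v v := g.pos x _ (fr_ne_zero hx hv)

lemma form_symm (g : RMetric d M) (p x : M) (v w : Euc (d + 1)) :
    form g p x v w = form g p x w v := g.symm x _ _

lemma contMDiffOn_fr (p : M) (v : Euc (d + 1)) :
    ContMDiffOn (𝓡∂ (d + 1)) ((𝓡∂ (d + 1)).prod 𝓘(ℝ, Euc (d + 1))) ∞
      (fun x => TotalSpace.mk' (Euc (d + 1)) x (fr d p x v)) (ch d p).source := by
  rw [extChartAt_source]
  have h1 := (trivializationAt (Euc (d + 1)) (TangentSpace (𝓡∂ (d + 1))) p).contMDiffOn_symmL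
    (IB := 𝓡∂ (d + 1)) (n := ∞) (𝕜 := ℝ)
  have h2 : ContMDiffOn (𝓡∂ (d + 1)) ((𝓡∂ (d + 1)).prod 𝓘(ℝ, Euc (d + 1))) ∞
      (fun x : M => TotalSpace.mk' (Euc (d + 1)) (E := Bundle.Trivial M (Euc (d + 1))) x v)
      (chartAt (EuclideanHalfSpace (d + 1)) p).source := by
    intro x _
    refine ContMDiffAt.contMDiffWithinAt ?_
    rw [contMDiffAt_section]
    simpa using contMDiffAt_const
  exact ContMDiffOn.clm_bundle_apply (E₁ := Bundle.Trivial M (Euc (d + 1))) h1 h2

lemma contMDiffWithinAt_inner (g : RMetric d M) {v w : ∀ x : M, TangentSpace (𝓡∂ (d + 1)) x}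
    {s : Set M} {x : M}
    (hv : ContMDiffWithinAt (𝓡∂ (d + 1)) ((𝓡∂ (d + 1)).prod 𝓘(ℝ, Euc (d + 1))) ∞
      (fun x => TotalSpace.mk' (Euc (d + 1)) x (v x)) s x)
    (hw : ContMDiffWithinAt (𝓡∂ (d + 1)) ((𝓡∂ (d + 1)).prod 𝓘(ℝ, Euc (d + 1))) ∞
      (fun x => TotalSpace.mk' (Euc (d + 1)) x (w x)) s x) :
    ContMDiffWithinAt (𝓡∂ (d + 1)) 𝓘(ℝ, ℝ) ∞ (fun x => g.inner x (v x) (w x)) s x := by
  have : ContMDiffWithinAt (𝓡∂ (d + 1)) ((𝓡∂ (d + 1)).prod 𝓘(ℝ, ℝ)) ∞
      (fun m ↦ TotalSpace.mk' ℝ (E := Bundle.Trivial M ℝ) m (g.inner m (v m) (w m))) s x :=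
    ContMDiffWithinAt.clm_bundle_apply₂ (F₁ := Euc (d + 1)) (F₂ := Euc (d + 1))
      (g.contMDiff x).contMDiffWithinAt hv hw
  simp only [contMDiffWithinAt_totalSpace] at this
  exact this.2

lemma continuousOn_form_apply (g : RMetric d M) (p : M) (v w : Euc (d + 1)) :
    ContinuousOn (fun x => form g p x v w) (ch d p).source := fun x hx =>
  (contMDiffWithinAt_inner g (contMDiffOn_fr p v x hx) (contMDiffOn_fr p w x hx)).continuousWithinAt

lemma continuousOn_form (g : RMetric d M) (p : M) :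
    ContinuousOn (fun x => form g p x) (ch d p).source := by
  rw [continuousOn_clm_apply]
  intro v
  rw [continuousOn_clm_apply]
  exact continuousOn_form_apply g p v

lemma continuousOn_gram (g : RMetric d M) (p : M) :
    ContinuousOn (gram g p) (ch d p).target := by
  refine ContinuousOn.congr ?_ fun y hy => gram_eq g hy
  refine continuousOn_pi.2 fun i => continuousOn_pi.2 fun j => ?_
  exact ContinuousOn.comp (f := (ch d p).symm)
    (g := fun x => form g p x (EuclideanSpace.single i (1 : ℝ)) (EuclideanSpace.single j (1 : ℝ)))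
    (continuousOn_form_apply g p _ _) (continuousOn_extChartAt_symm p) (ch d p).mapsTo_symm

omit [IsManifold (𝓡∂ (d + 1)) ∞ M] in
lemma measurableSet_target (p : M) : MeasurableSet (ch d p).target := by
  rw [extChartAt_target]
  exact ((chartAt _ p).open_target.preimage (𝓡∂ (d + 1)).continuous_symm).measurableSet.inter
    (𝓡∂ (d + 1)).isClosed_range.measurableSet

lemma isParam_vol (g : RMetric d M) (p : M) :
    IsParam (ch d p).symm (ch d p).target (gram g p) where
  meas := measurableSet_target p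
  cont := continuousOn_extChartAt_symm p
  inj := (ch d p).symm.injOn
  contDet := (continuous_id.matrix_det).comp_continuousOn (continuousOn_gram g p)

/-- The linear embedding `z ↦ (0, z)`. -/
def bdryL (d : ℕ) : Euc d →L[ℝ] Euc (d + 1) :=
  LinearMap.toContinuousLinearMap
    { toFun := bdryPt
      map_add' := fun z w => by
        ext i
        refine Fin.cases ?_ (fun j => ?_) i <;> simp [bdryPt]
      map_smul' := fun c z => by
        ext i
        refine Fin.cases ?_ (fun j => ?_) i <;> simp [bdryPt] }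

lemma bdryL_apply (z : Euc d) : bdryL d z = bdryPt z := rfl

/-- The projection forgetting the first coordinate. -/
def projL (d : ℕ) : Euc (d + 1) →L[ℝ] Euc d :=
  LinearMap.toContinuousLinearMap
    { toFun := fun y => WithLp.toLp 2 fun j => y j.succ
      map_add' := fun z w => by ext i; simp
      map_smul' := fun c z => by ext i; simp }

@[simp] lemma projL_apply (y : Euc (d + 1)) (j : Fin d) : projL d y j = y j.succ := rfl

@[simp] lemma bdryPt_zero (z : Euc d) : bdryPt z 0 = 0 := rfl

@[simp] lemma bdryPt_succ (z : Euc d) (j : Fin d) : bdryPt z j.succ = z j := rfl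

lemma projL_bdryPt (z : Euc d) : projL d (bdryPt z) = z := by ext j; simp

lemma bdryPt_projL {y : Euc (d + 1)} (hy : y 0 = 0) : bdryPt (projL d y) = y := by
  ext i
  refine Fin.cases ?_ (fun j => ?_) i <;> simp [hy]

lemma bdryPt_single (j : Fin d) :
    bdryPt (EuclideanSpace.single j (1 : ℝ)) = EuclideanSpace.single j.succ (1 : ℝ) := by
  ext i
  refine Fin.cases ?_ (fun k => ?_) i
  · simp [(Fin.succ_ne_zero j).symm]
  · simp [PiLp.single_apply]

lemma continuous_bdryPt : Continuous (bdryPt : Euc d → Euc (d + 1)) := (bdryL d).continuous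

lemma isParam_area (g : RMetric d M) (p : M) :
    IsParam (fun z : Euc d => (ch d p).symm (bdryPt z)) (bdryPt ⁻¹' (ch d p).target)
      (fun z => (gram g p (bdryPt z)).submatrix Fin.succ Fin.succ) where
  meas := continuous_bdryPt.measurable (measurableSet_target p)
  cont := (continuousOn_extChartAt_symm p).comp continuous_bdryPt.continuousOn fun _ h => h
  inj := fun a ha b hb hab => by
    have := (ch d p).symm.injOn ha hb hab
    rw [← projL_bdryPt a, this, projL_bdryPt]
  contDet := ((continuous_id.matrix_submatrix Fin.succ Fin.succ).matrix_det).comp_continuousOn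
    ((continuousOn_gram g p).comp continuous_bdryPt.continuousOn fun _ h => h)

lemma mem_boundary_iff {p x : M} (hx : x ∈ (ch d p).source) :
    x ∈ (𝓡∂ (d + 1)).boundary M ↔ ch d p x 0 = 0 := by
  have h1 := (𝓡∂ (d + 1)).isInteriorPoint_iff_of_mem_atlas (n := ∞) (by simp)
    (chart_mem_atlas _ p) (mem_chart_source' hx)
  have h2 : 0 ≤ ch d p x 0 := by
    have := extChartAt_target_subset_range p ((ch d p).map_source hx)
    rwa [range_modelWithCornersEuclideanHalfSpace] at this
  change (𝓡∂ (d + 1)).IsBoundaryPoint x ↔ _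
  rw [ModelWithCorners.isBoundaryPoint_iff_not_isInteriorPoint, h1]
  have h3 : ch d p x ∈ interior (ch d p).target ↔ 0 < ch d p x 0 := by
    constructor
    · intro h
      have := OpenPartialHomeomorph.interior_extend_target_subset_interior_range _ h
      rwa [interior_range_modelWithCornersEuclideanHalfSpace] at this
    · intro h
      refine (chartAt _ p).mem_interior_extend_target
        ((chartAt _ p).map_source (mem_chart_source' hx)) ?_
      rwa [interior_range_modelWithCornersEuclideanHalfSpace]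
  change ¬ ch d p x ∈ interior (ch d p).target ↔ _
  rw [h3, not_lt]
  exact ⟨fun h => le_antisymm h h2, fun h => h.le⟩

end Pool.Agent.P.MP_07ee5e_gt
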