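import Pool.Agent.P.MP_07ee5e_gt.Chart

/-! The volume and area measures restrict to the chart measures. -/

set_option autoImplicit false

open scoped Manifold ContDiff ENNReal Topology
open MeasureTheory Set Bundle

noncomputable section

namespace Pool.Agent.P.MP_07ee5e_gt

variable {d : ℕ} {M : Type*} [TopologicalSpace M]
  [ChartedSpace (EuclideanHalfSpace (d + 1)) M] [IsManifold (𝓡∂ (d + 1)) ∞ M]

lemma form_change (g : RMetric d M) {p q x : M} (hp : x ∈ (ch d p).source)
    (hq : x ∈ (ch d q).source) (v w : Euc (d + 1)) :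
    form g p x v w = form g q x (tangentCoordChange (𝓡∂ (d + 1)) p q x v)
      (tangentCoordChange (𝓡∂ (d + 1)) p q x w) := by
  rw [form_apply, form_apply, fr_change hp hq, fr_change hp hq]

lemma hasFDerivWithinAt_change {p q : M} {y : Euc (d + 1)} (hy : y ∈ (ch d p).target)
    (hq : (ch d p).symm y ∈ (ch d q).source) :
    HasFDerivWithinAt (ch d q ∘ (ch d p).symm)
      (tangentCoordChange (𝓡∂ (d + 1)) p q ((ch d p).symm y)) (range (𝓡∂ (d + 1))) y := by
  have := hasFDerivWithinAt_tangentCoordChange (I := 𝓡∂ (d + 1)) ⟨(ch d p).map_target hy, hq⟩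
  rwa [(ch d p).right_inv hy] at this

omit [IsManifold (𝓡∂ (d + 1)) ∞ M] in
lemma bdryPt_mem_range (z : Euc d) : bdryPt z ∈ range (𝓡∂ (d + 1)) := by
  rw [range_modelWithCornersEuclideanHalfSpace]
  exact le_of_eq (bdryPt_zero z).symm

omit [IsManifold (𝓡∂ (d + 1)) ∞ M] in
lemma isOpen_preimage_target (p : M) : IsOpen (bdryPt ⁻¹' (ch d p).target : Set (Euc d)) := by
  have : (bdryPt ⁻¹' (ch d p).target : Set (Euc d)) = bdryPt ⁻¹'
      ((𝓡∂ (d + 1)).symm ⁻¹' (chartAt (EuclideanHalfSpace (d + 1)) p).target) := by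
    rw [extChartAt_target, preimage_inter, inter_eq_left]
    exact fun z _ => bdryPt_mem_range z
  rw [this]
  exact ((chartAt _ p).open_target.preimage (𝓡∂ (d + 1)).continuous_symm).preimage
    continuous_bdryPt

lemma image_bdry (p : M) : (fun z : Euc d => (ch d p).symm (bdryPt z)) ''
    (bdryPt ⁻¹' (ch d p).target) = (ch d p).source ∩ (𝓡∂ (d + 1)).boundary M := by
  ext x
  constructor
  · rintro ⟨z, hz, rfl⟩
    have h1 := (ch d p).map_target hz
    refine ⟨h1, (mem_boundary_iff h1).2 ?_⟩
    rw [(ch d p).right_inv hz, bdryPt_zero]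
  · rintro ⟨h1, h2⟩
    have h3 := bdryPt_projL ((mem_boundary_iff h1).1 h2)
    refine ⟨projL d (ch d p x), ?_, ?_⟩
    · rw [mem_preimage, h3]; exact (ch d p).map_source h1
    · simp only
      rw [h3, (ch d p).left_inv h1]

variable [T2Space M] [MeasurableSpace M] [BorelSpace M]

lemma chartVol_restrict_le (g : RMetric d M) (p q : M) :
    (chartVol g q).restrict (ch d p).source ≤ chartVol g p := by
  have key := (isParam_vol g q).restrict_le (isParam_vol g p) (ch d q ∘ (ch d p).symm)
    (fun y => tangentCoordChange (𝓡∂ (d + 1)) p q ((ch d p).symm y))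
  rw [PartialEquiv.symm_image_target_eq_source, PartialEquiv.symm_image_target_eq_source] at key
  refine key (fun y hy => ⟨(ch d q).map_source hy.2, (ch d q).left_inv hy.2⟩) (fun y hy => ?_)
    (fun y hy => ?_)
  · exact (hasFDerivWithinAt_change hy.1 hy.2).mono
      fun z hz => extChartAt_target_subset_range p hz.1
  · rw [gram_eq g hy.1, Function.comp_apply, gram_eq g ((ch d q).map_source hy.2),
      (ch d q).left_inv hy.2, ← det_pullback]
    congr 1
    ext i j
    exact form_change g ((ch d p).map_target hy.1) hy.2 _ _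

lemma chartArea_restrict_le (g : RMetric d M) (p q : M) :
    (chartArea g q).restrict ((ch d p).source ∩ (𝓡∂ (d + 1)).boundary M) ≤ chartArea g p := by
  have key := (isParam_area g q).restrict_le (isParam_area g p)
    (fun z => projL d (ch d q ((ch d p).symm (bdryPt z))))
    (fun z => (projL d).comp ((tangentCoordChange (𝓡∂ (d + 1)) p q
      ((ch d p).symm (bdryPt z))).comp (bdryL d)))
  rw [image_bdry, image_bdry] at key
  have hb : ∀ x ∈ (ch d q).source ∩ (𝓡∂ (d + 1)).boundary M,
      bdryPt (projL d (ch d q x)) = ch d q x :=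
    fun x hx => bdryPt_projL ((mem_boundary_iff hx.1).1 hx.2)
  have hder : ∀ z : Euc d, bdryPt z ∈ (ch d p).target →
      (ch d p).symm (bdryPt z) ∈ (ch d q).source →
      HasFDerivAt (fun z => ch d q ((ch d p).symm (bdryPt z)))
        ((tangentCoordChange (𝓡∂ (d + 1)) p q ((ch d p).symm (bdryPt z))).comp (bdryL d)) z := by
    intro z h1 h2
    rw [← hasFDerivWithinAt_univ]
    exact HasFDerivWithinAt.comp (f := bdryL d) z (hasFDerivWithinAt_change h1 h2)
      (bdryL d).hasFDerivWithinAt fun w _ => bdryPt_mem_range w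
  refine key (fun z hz => ?_) (fun z hz => ?_) (fun z hz => ?_)
  · rw [mem_preimage, hb _ hz.2]
    exact ⟨(ch d q).map_source hz.2.1, (ch d q).left_inv hz.2.1⟩
  · exact ((projL d).hasFDerivAt.comp z (hder z hz.1 hz.2.1)).hasFDerivWithinAt
  · set x := (ch d p).symm (bdryPt z) with hx
    set J := tangentCoordChange (𝓡∂ (d + 1)) p q x with hJ
    have hzero : ∀ v, J (bdryPt v) 0 = 0 := by
      intro v
      have h1 := (EuclideanSpace.proj (𝕜 := ℝ) (0 : Fin (d + 1))).hasFDerivAt.comp z
        (hder z hz.1 hz.2.1)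
      have hopen : IsOpen ((bdryPt ⁻¹' (ch d p).target : Set (Euc d)) ∩
          (fun z => (ch d p).symm (bdryPt z)) ⁻¹' (ch d q).source) :=
        (isParam_area g p).cont.isOpen_inter_preimage (isOpen_preimage_target p)
          (isOpen_extChartAt_source q)
      have h2 : HasFDerivAt ((EuclideanSpace.proj (𝕜 := ℝ) (0 : Fin (d + 1))) ∘
          fun z => ch d q ((ch d p).symm (bdryPt z))) (0 : Euc d →L[ℝ] ℝ) z := by
        refine (hasFDerivAt_const (0 : ℝ) z).congr_of_eventuallyEq ?_
        filter_upwards [hopen.mem_nhds ⟨hz.1, hz.2.1⟩] with w hw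
        have hw' : (ch d p).symm (bdryPt w) ∈ (ch d p).source ∩ (𝓡∂ (d + 1)).boundary M := by
          rw [← image_bdry]; exact ⟨w, hw.1, rfl⟩
        exact (mem_boundary_iff hw.2).1 hw'.2
      exact congrArg (fun L : Euc d →L[ℝ] ℝ => L v) (h1.unique h2)
    rw [hb _ hz.2, gram_eq g hz.1, gram_eq g ((ch d q).map_source hz.2.1),
      (ch d q).left_inv hz.2.1]
    have := det_pullback ((form g q x).bilinearComp (bdryL d) (bdryL d))
      ((projL d).comp (J.comp (bdryL d)))
    convert this using 2
    · ext i j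
      simp only [Matrix.submatrix_apply, Matrix.of_apply, ContinuousLinearMap.bilinearComp_apply,
        ContinuousLinearMap.comp_apply, bdryL_apply, bdryPt_projL (hzero _)]
      rw [bdryPt_single, bdryPt_single]
      exact form_change g ((ch d p).map_target hz.1) hz.2.1 _ _
    · congr 1
      ext i j
      simp only [Matrix.submatrix_apply, Matrix.of_apply, ContinuousLinearMap.bilinearComp_apply,
        bdryL_apply, bdryPt_single, hx]

omit [T2Space M] [BorelSpace M] in
lemma chartVol_le (g : RMetric d M) (p : M) : chartVol g p ≤ vol g := le_iSup (chartVol g) p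

omit [T2Space M] [BorelSpace M] in
lemma chartArea_le (g : RMetric d M) (p : M) : chartArea g p ≤ area g := le_iSup (chartArea g) p

lemma vol_restrict_le (g : RMetric d M) (p : M) :
    (vol g).restrict (ch d p).source ≤ chartVol g p :=
  restrict_iSup_le _ _ (isOpen_extChartAt_source p).measurableSet _ (chartVol_restrict_le g p)

omit [T2Space M] [MeasurableSpace M] [BorelSpace M] in
lemma isClosed_bdry : IsClosed ((𝓡∂ (d + 1)).boundary M) :=
  (𝓡∂ (d + 1)).isClosed_boundary (n := ∞) (by simp)

lemma area_compl_boundary (g : RMetric d M) : area g ((𝓡∂ (d + 1)).boundary M)ᶜ = 0 := by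
  refine iSup_null _ _ isClosed_bdry.measurableSet.compl fun q => ?_
  refine measure_mono_null ?_ (isParam_area g q).compl_image
  rw [image_bdry]
  exact compl_subset_compl.2 inter_subset_right

lemma area_restrict_boundary (g : RMetric d M) :
    (area g).restrict ((𝓡∂ (d + 1)).boundary M) = area g :=
  Measure.restrict_eq_self_of_ae_mem (area_compl_boundary g)

lemma area_restrict_le (g : RMetric d M) (p : M) :
    (area g).restrict (ch d p).source ≤ chartArea g p := by
  rw [← area_restrict_boundary, Measure.restrict_restrict (isOpen_extChartAt_source p).measurableSet]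
  exact restrict_iSup_le _ _ ((isOpen_extChartAt_source p).measurableSet.inter
    isClosed_bdry.measurableSet) _ (chartArea_restrict_le g p)

lemma vol_boundary (g : RMetric d M) : vol g ((𝓡∂ (d + 1)).boundary M) = 0 := by
  refine iSup_null _ _ isClosed_bdry.measurableSet fun q => ?_
  rw [chartVol, (isParam_vol g q).apply isClosed_bdry.measurableSet]
  refine setLIntegral_measure_zero _ _ ?_
  have hne : LinearMap.ker
      (EuclideanSpace.proj (𝕜 := ℝ) (0 : Fin (d + 1)) : Euc (d + 1) →ₗ[ℝ] ℝ) ≠ ⊤ := by
    intro h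
    have : EuclideanSpace.single (0 : Fin (d + 1)) (1 : ℝ) ∈ LinearMap.ker
      (EuclideanSpace.proj (𝕜 := ℝ) (0 : Fin (d + 1)) : Euc (d + 1) →ₗ[ℝ] ℝ) := by
      rw [h]; trivial
    simp at this
  refine measure_mono_null ?_ (Measure.addHaar_submodule volume _ hne)
  rintro y ⟨h1, h2⟩
  have := (mem_boundary_iff ((ch d q).map_target h1)).1 h2
  rw [(ch d q).right_inv h1] at this
  exact this

end Pool.Agent.P.MP_07ee5e_gt
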