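import Pool.Agent.P.MP_07ee5e_gt.Compat

/-! The deformation `(1 + g(X,X)) g - g(X,·) ⊗ g(X,·)` of a metric along a vector field. -/

set_option autoImplicit false

open scoped Manifold ContDiff ENNReal Topology
open MeasureTheory Set Bundle

noncomputable section

namespace Pool.Agent.P.MP_07ee5e_gt

lemma det_deform {d : ℕ} (B : Euc (d + 1) →L[ℝ] Euc (d + 1) →L[ℝ] ℝ) (hB : ∀ v w, B v w = B w v)
    (w : Euc (d + 1)) (hw : 0 ≤ B w w) :
    (Matrix.of fun i j : Fin (d + 1) =>
      (1 + B w w) * B (EuclideanSpace.single i (1 : ℝ)) (EuclideanSpace.single j (1 : ℝ)) -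
        B w (EuclideanSpace.single i (1 : ℝ)) * B w (EuclideanSpace.single j (1 : ℝ))).det =
    (1 + B w w) ^ d * (Matrix.of fun i j : Fin (d + 1) =>
      B (EuclideanSpace.single i (1 : ℝ)) (EuclideanSpace.single j (1 : ℝ))).det := by
  classical
  have hs : (1 + B w w) ≠ 0 := by positivity
  have hw' : w = ∑ k, w k • EuclideanSpace.single k (1 : ℝ) := by
    simpa using ((EuclideanSpace.basisFun (Fin (d + 1)) ℝ).toBasis.sum_repr w).symm
  have hexp : ∀ v, B w v = ∑ k, w k * B (EuclideanSpace.single k (1 : ℝ)) v := by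
    intro v
    conv_lhs => rw [hw']
    simp only [map_sum, map_smul, _root_.sum_apply, _root_.smul_apply,
      smul_eq_mul]
  set G : Matrix (Fin (d + 1)) (Fin (d + 1)) ℝ := Matrix.of fun i j =>
      B (EuclideanSpace.single i (1 : ℝ)) (EuclideanSpace.single j (1 : ℝ)) with hG
  let a : Fin (d + 1) → ℝ := fun j => B w (EuclideanSpace.single j (1 : ℝ))
  let u : Fin (d + 1) → ℝ := fun k => -(1 + B w w)⁻¹ * w k
  have key : (Matrix.of fun i j : Fin (d + 1) =>
      (1 + B w w) * B (EuclideanSpace.single i (1 : ℝ)) (EuclideanSpace.single j (1 : ℝ)) -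
        B w (EuclideanSpace.single i (1 : ℝ)) * B w (EuclideanSpace.single j (1 : ℝ))) =
      (1 + B w w) • (G * (1 + Matrix.replicateCol Unit u * Matrix.replicateRow Unit a)) := by
    ext i j
    have h1 : ∑ k, G i k * w k = a i := by
      simp only [a, hexp (EuclideanSpace.single i (1 : ℝ)), hG, Matrix.of_apply]
      exact Finset.sum_congr rfl fun k _ => by rw [hB, mul_comm]
    rw [Matrix.mul_add, Matrix.mul_one, ← Matrix.mul_assoc]
    simp only [Matrix.of_apply, Matrix.smul_apply, Matrix.add_apply, Matrix.mul_apply,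
      Matrix.replicateCol_apply, Matrix.replicateRow_apply, Finset.univ_unique,
      Finset.sum_singleton, smul_eq_mul, u]
    have h2 : ∑ k, G i k * (-(1 + B w w)⁻¹ * w k) = -(1 + B w w)⁻¹ * a i := by
      rw [← h1, Finset.mul_sum]
      exact Finset.sum_congr rfl fun k _ => by ring
    rw [h2]
    simp only [hG, Matrix.of_apply, a]
    field_simp
    ring
  have h3 : dotProduct a u = -(1 + B w w)⁻¹ * B w w := by
    rw [hexp w, Finset.mul_sum]
    refine Finset.sum_congr rfl fun k _ => ?_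
    simp only [a, u, hB w (EuclideanSpace.single k (1 : ℝ)), ← hexp w]
    ring
  rw [key, Matrix.det_smul, Matrix.det_mul, Matrix.det_one_add_replicateCol_mul_replicateRow, h3,
    Fintype.card_fin]
  field_simp
  ring

variable {d : ℕ} {M : Type*} [TopologicalSpace M]
  [ChartedSpace (EuclideanHalfSpace (d + 1)) M] [IsManifold (𝓡∂ (d + 1)) ∞ M]

omit [IsManifold (𝓡∂ (d + 1)) ∞ M] in
lemma contMDiffAt_clm_of_apply {F : Type*} [NormedAddCommGroup F] [NormedSpace ℝ F]
    {f : M → Euc (d + 1) →L[ℝ] F} {x : M}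
    (h : ∀ v, ContMDiffAt (𝓡∂ (d + 1)) 𝓘(ℝ, F) ∞ (fun x => f x v) x) :
    ContMDiffAt (𝓡∂ (d + 1)) 𝓘(ℝ, Euc (d + 1) →L[ℝ] F) ∞ f x := by
  let e₁ : Euc (d + 1) ≃L[ℝ] (Fin (d + 1) → ℝ) := PiLp.continuousLinearEquiv 2 ℝ _
  let e₂ := (e₁.arrowCongr (1 : F ≃L[ℝ] F)).trans (ContinuousLinearEquiv.piRing (Fin (d + 1)))
  rw [← Function.id_comp f, ← e₂.symm_comp_self]
  exact e₂.symm.contDiff.contMDiff.contMDiffAt.comp x (contMDiffAt_pi_space.mpr fun i => h _)

lemma inner_nonneg (g : RMetric d M) (x : M) (v : TangentSpace (𝓡∂ (d + 1)) x) :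
    0 ≤ g.inner x v v := by
  by_cases hv : v = 0
  · simp [hv]
  · exact (g.pos x v hv).le

lemma inner_sq_le (g : RMetric d M) (x : M) (v w : TangentSpace (𝓡∂ (d + 1)) x) :
    g.inner x v w ^ 2 ≤ g.inner x v v * g.inner x w w := by
  have h := discrim_le_zero (a := g.inner x v v) (b := 2 * g.inner x v w) (c := g.inner x w w)
    fun t => by
      have := inner_nonneg g x (t • v + w)
      simp only [map_add, map_smul, _root_.add_apply, _root_.smul_apply,
        smul_eq_mul, g.symm x w v] at this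
      nlinarith
  rw [discrim] at h
  nlinarith

/-- Smooth vector fields. -/
def IsField (X : ∀ x : M, TangentSpace (𝓡∂ (d + 1)) x) : Prop :=
  ContMDiff (𝓡∂ (d + 1)) ((𝓡∂ (d + 1)).prod 𝓘(ℝ, Euc (d + 1))) ∞
    (fun x => TotalSpace.mk' (Euc (d + 1)) x (X x))

/-- The bilinear form of the deformed metric. -/
def defInner (g : RMetric d M) (X : ∀ x : M, TangentSpace (𝓡∂ (d + 1)) x) (x : M) :
    TangentSpace (𝓡∂ (d + 1)) x →L[ℝ] TangentSpace (𝓡∂ (d + 1)) x →L[ℝ] ℝ :=
  (1 + g.inner x (X x) (X x)) • g.inner x - (g.inner x (X x)).smulRight (g.inner x (X x))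

lemma defInner_apply (g : RMetric d M) (X : ∀ x : M, TangentSpace (𝓡∂ (d + 1)) x) (x : M)
    (v w : TangentSpace (𝓡∂ (d + 1)) x) : defInner g X x v w =
      (1 + g.inner x (X x) (X x)) * g.inner x v w - g.inner x (X x) v * g.inner x (X x) w := rfl

lemma le_defInner (g : RMetric d M) (X : ∀ x : M, TangentSpace (𝓡∂ (d + 1)) x) (x : M)
    (v : TangentSpace (𝓡∂ (d + 1)) x) : g.inner x v v ≤ defInner g X x v v := by
  rw [defInner_apply]
  nlinarith [inner_sq_le g x (X x) v]

lemma defInner_le (g : RMetric d M) (X : ∀ x : M, TangentSpace (𝓡∂ (d + 1)) x) (x : M)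
    (v : TangentSpace (𝓡∂ (d + 1)) x) :
    defInner g X x v v ≤ (1 + g.inner x (X x) (X x)) * g.inner x v v := by
  rw [defInner_apply]
  nlinarith [sq_nonneg (g.inner x (X x) v)]

/-- The deformed metric. -/
def deform (g : RMetric d M) (X : ∀ x : M, TangentSpace (𝓡∂ (d + 1)) x) (hX : IsField X) :
    RMetric d M where
  inner := defInner g X
  symm x v w := by rw [defInner_apply, defInner_apply, g.symm x v w]; ring
  pos x v hv := (g.pos x v hv).trans_le (le_defInner g X x v)
  isVonNBounded x := (g.isVonNBounded x).subset fun v hv => (le_defInner g X x v).trans_lt hv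
  contMDiff := by
    intro x₀
    rw [contMDiffAt_hom_bundle]
    refine ⟨contMDiffAt_id, ?_⟩
    refine contMDiffAt_clm_of_apply fun v => contMDiffAt_clm_of_apply fun w => ?_
    have hs : (ch d x₀).source ∈ 𝓝 x₀ := extChartAt_source_mem_nhds x₀
    have hv := (contMDiffOn_fr x₀ v).contMDiffAt hs
    have hw := (contMDiffOn_fr x₀ w).contMDiffAt hs
    have hX' := hX x₀
    rw [← contMDiffWithinAt_univ] at hv hw hX'
    have h := (((contMDiffWithinAt_const (c := (1 : ℝ))).add
      (contMDiffWithinAt_inner g hX' hX')).mul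
      (contMDiffWithinAt_inner g hv hw)).sub ((contMDiffWithinAt_inner g hX' hv).mul
      (contMDiffWithinAt_inner g hX' hw))
    rw [contMDiffWithinAt_univ] at h
    refine h.congr_of_eventuallyEq ?_
    filter_upwards [hs] with x hx
    have hx' := mem_chart_source' hx
    rw [inCoordinates_apply_eq₂ hx' hx' (mem_univ _)]
    have hfr : ∀ v, fr d x₀ x v =
        (trivializationAt (Euc (d + 1)) (TangentSpace (𝓡∂ (d + 1))) x₀).symm x v :=
      fun v => Trivialization.symmL_apply _ hx' v
    simp [defInner_apply, hfr]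

lemma deform_inner (g : RMetric d M) (X : ∀ x : M, TangentSpace (𝓡∂ (d + 1)) x)
    (hX : IsField X) : (deform g X hX).inner = defInner g X := rfl

lemma deform_inner_of_zero (g : RMetric d M) {X : ∀ x : M, TangentSpace (𝓡∂ (d + 1)) x}
    (hX : IsField X) {x : M} (hx : X x = 0) : (deform g X hX).inner x = g.inner x := by
  ext v w
  simp [deform_inner, defInner_apply, hx]

lemma deform_inner_of_smul (g : RMetric d M) {X : ∀ x : M, TangentSpace (𝓡∂ (d + 1)) x}
    (hX : IsField X) {x : M} {b : ℝ} {w : TangentSpace (𝓡∂ (d + 1)) x} (hx : X x = b • w) :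
    (deform g X hX).inner x w w = g.inner x w w := by
  simp only [deform_inner, defInner_apply, hx, map_smul, _root_.smul_apply,
    smul_eq_mul]
  ring

lemma det_gram_deform (g : RMetric d M) {X : ∀ x : M, TangentSpace (𝓡∂ (d + 1)) x}
    (hX : IsField X) {p : M} {y : Euc (d + 1)} (hy : y ∈ (ch d p).target) :
    (gram (deform g X hX) p y).det =
      (1 + g.inner _ (X ((ch d p).symm y)) (X ((ch d p).symm y))) ^ d * (gram g p y).det := by
  obtain ⟨w, hw⟩ := fr_surjective ((ch d p).map_target hy) (X ((ch d p).symm y))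
  have h := det_deform (form g p ((ch d p).symm y)) (form_symm g p _) w (inner_nonneg g _ _)
  rw [gram_eq _ hy, gram_eq _ hy, ← hw]
  refine Eq.trans ?_ h
  congr 1
  ext i j
  simp only [Matrix.of_apply, form_apply, deform_inner, defInner_apply, hw]

end Pool.Agent.P.MP_07ee5e_gt
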