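import Mathlib

/-! Riemannian volume, boundary area and the first nonzero Steklov eigenvalue of a compact
smooth manifold `M` of dimension `d + 1` with boundary, modelled on the half-space
`{y : 0 ≤ y 0}` of `ℝ^(d+1)`. -/

set_option autoImplicit false

open scoped Manifold ContDiff ENNReal
open MeasureTheory

noncomputable section

namespace Pool.Agent.P.MP_07ee5e_gt

/-- The value `B(v, w)` of a continuous bilinear form. -/
def bilinApply {V : Type*} [TopologicalSpace V] [AddCommGroup V] [Module ℝ V]
    (B : ContinuousLinearMap (RingHom.id ℝ) V (ContinuousLinearMap (RingHom.id ℝ) V ℝ))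
    (v w : V) : ℝ := B v w

section General

variable {E H : Type*} [NormedAddCommGroup E] [NormedSpace ℝ E] [TopologicalSpace H]
  (I : ModelWithCorners ℝ E H) {M : Type*} [TopologicalSpace M] [ChartedSpace H M]

/-- The tangent vector with components `v` in the chart at `p`, at the point with coordinates
`y`: the image of `v` under the derivative of the inverse chart. -/
def coordVec (p : M) (y v : E) : TangentSpace I ((extChartAt I p).symm y) :=
  mfderivWithin (modelWithCornersSelf ℝ E) I (extChartAt I p).symm (Set.range I) y v

/-- The differential `du_x(v)`. -/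
def diffApply (u : M → ℝ) (x : M) (v : TangentSpace I x) : ℝ := mfderiv I (modelWithCornersSelf ℝ ℝ) u x v

variable (M) in
/-- Smooth Riemannian metrics on `M` (Mathlib's notion, smooth up to the boundary). -/
abbrev RiemMetric [IsManifold I ∞ M] :=
  Bundle.ContMDiffRiemannianMetric I ∞ E (fun x : M => TangentSpace I x)

variable {I} [IsManifold I ∞ M]

/-- The scalar product `g_x(v, w)`. -/
def innerAt (g : RiemMetric I M) (x : M) (v w : TangentSpace I x) : ℝ := bilinApply (g.inner x) v w

/-- The two metrics coincide at every point of the boundary. -/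
def SameOnBoundary (g h : RiemMetric I M) : Prop :=
  ∀ x ∈ I.boundary M, ∀ v w : TangentSpace I x, innerAt g x v w = innerAt h x v w

/-- The metric read in the chart at `p`, at the point with coordinates `y`. -/
def chartInner (g : RiemMetric I M) (p : M) (y v w : E) : ℝ :=
  innerAt g ((extChartAt I p).symm y) (coordVec I p y v) (coordVec I p y w)

/-- `|∇u|_g²` at `x`: the squared dual norm of the differential `du_x`. -/
def gradSq (g : RiemMetric I M) (u : M → ℝ) (x : M) : ℝ≥0∞ :=
  ⨆ v : TangentSpace I x, ENNReal.ofReal (diffApply I u x v ^ 2 / innerAt g x v v)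

end General

/-- Euclidean space `ℝ^m`. -/
abbrev Euc (m : ℕ) : Type := EuclideanSpace ℝ (Fin m)

/-- Smooth Riemannian metrics on a manifold with boundary of dimension `d + 1`. -/
abbrev RMetric (d : ℕ) (M : Type*) [TopologicalSpace M]
    [ChartedSpace (EuclideanHalfSpace (d + 1)) M] [IsManifold (modelWithCornersEuclideanHalfSpace (d + 1)) ∞ M] :=
  RiemMetric (modelWithCornersEuclideanHalfSpace (d + 1)) M

variable {d : ℕ} {M : Type*} [TopologicalSpace M]
  [ChartedSpace (EuclideanHalfSpace (d + 1)) M] [IsManifold (modelWithCornersEuclideanHalfSpace (d + 1)) ∞ M]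

/-- The matrix `g_ij(y)` of the metric in the chart at `p`. -/
def gram (g : RMetric d M) (p : M) (y : Euc (d + 1)) : Matrix (Fin (d + 1)) (Fin (d + 1)) ℝ :=
  Matrix.of fun i j => chartInner g p y (EuclideanSpace.single i 1) (EuclideanSpace.single j 1)

/-- The point `(0, z)` of the boundary hyperplane of the model half-space. -/
def bdryPt (z : Euc d) : Euc (d + 1) := WithLp.toLp 2 (Fin.cons 0 z.ofLp)

variable [MeasurableSpace M]

/-- The measure `√(det G(y)) dy` on `T ⊆ ℝ^m`, pushed forward to `M` by a parametrisation `P`. -/
def paramMeasure {m : ℕ} (P : Euc m → M) (T : Set (Euc m))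
    (G : Euc m → Matrix (Fin m) (Fin m) ℝ) : Measure M :=
  (((volume : Measure (Euc m)).restrict T).withDensity
    fun y => ENNReal.ofReal √(G y).det).map P

/-- Riemannian volume of `g` on the domain of the chart at `p`. -/
def chartVol (g : RMetric d M) (p : M) : Measure M :=
  paramMeasure (extChartAt (modelWithCornersEuclideanHalfSpace (d + 1)) p).symm (extChartAt (modelWithCornersEuclideanHalfSpace (d + 1)) p).target (gram g p)

/-- Riemannian volume of the metric induced by `g` on the boundary, on the part of the boundary
in the domain of the chart at `p`. -/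
def chartArea (g : RMetric d M) (p : M) : Measure M :=
  paramMeasure (fun z : Euc d => (extChartAt (modelWithCornersEuclideanHalfSpace (d + 1)) p).symm (bdryPt z))
    (bdryPt ⁻¹' (extChartAt (modelWithCornersEuclideanHalfSpace (d + 1)) p).target)
    (fun z => (gram g p (bdryPt z)).submatrix Fin.succ Fin.succ)

/-- The Riemannian volume measure `dV_g`: the chart measures agree on overlaps, and their
supremum in the lattice of measures is the measure that glues them. -/
def vol (g : RMetric d M) : Measure M := ⨆ p : M, chartVol g p

/-- The Riemannian measure `dA_g` of the boundary with the induced metric, as a measure on `M`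
carried by the boundary. -/
def area (g : RMetric d M) : Measure M := ⨆ p : M, chartArea g p

/-- The first nonzero Steklov eigenvalue, by its variational characterisation: the infimum of
`∫_M |∇u|² dV / ∫_Σ u² dA` over smooth `u` with `∫_Σ u dA = 0` and `∫_Σ u² dA ≠ 0`. -/
def steklov1 (g : RMetric d M) : ℝ≥0∞ :=
  ⨅ (u : M → ℝ) (_ : ContMDiff (modelWithCornersEuclideanHalfSpace (d + 1)) (modelWithCornersSelf ℝ ℝ) ∞ u) (_ : ∫ x, u x ∂area g = 0)
    (_ : ∫ x, u x ^ 2 ∂area g ≠ 0),
    (∫⁻ x, gradSq g u x ∂vol g) / ENNReal.ofReal (∫ x, u x ^ 2 ∂area g)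

end Pool.Agent.P.MP_07ee5e_gt
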