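import Pool.Agent.P.MP_07ee5e_gt.Local

/-! From local to global Poincare inequalities on a compact connected set. -/

set_option autoImplicit false

open scoped ENNReal Topology
open MeasureTheory Set

noncomputable section

namespace Pool.Agent.P.MP_07ee5e_gt

variable {X : Type*} [MeasurableSpace X]

/-- Double integral of the squared oscillation. -/
def osc (μ : Measure X) (f : X → ℝ) (U W : Set X) : ℝ≥0∞ :=
  ∫⁻ x in U, ∫⁻ y in W, ENNReal.ofReal ((f x - f y) ^ 2) ∂μ ∂μ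

/-- A uniform bound for the oscillation over a family. -/
def Rel (μ : Measure X) (S : Set ((X → ℝ) × ℝ≥0∞)) (U W : Set X) : Prop :=
  ∃ C : ℝ≥0∞, C ≠ ⊤ ∧ ∀ q ∈ S, osc μ q.1 U W ≤ C * q.2

variable {μ : Measure X} {S : Set ((X → ℝ) × ℝ≥0∞)} {U U' V W W' : Set X}

lemma Rel.mono (h : Rel μ S U W) (hU : U' ⊆ U) (hW : W' ⊆ W) : Rel μ S U' W' := by
  obtain ⟨C, hC, h⟩ := h
  refine ⟨C, hC, fun q hq => le_trans ?_ (h q hq)⟩
  exact (lintegral_mono fun x => lintegral_mono_set hW).trans (lintegral_mono_set hU)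

lemma measurable_sq_sub {f : X → ℝ} (hf : Measurable f) :
    Measurable fun p : X × X => ENNReal.ofReal ((f p.1 - f p.2) ^ 2) := by fun_prop

lemma Rel.union_left (h : Rel μ S U W) (h' : Rel μ S U' W) : Rel μ S (U ∪ U') W := by
  obtain ⟨C, hC, h⟩ := h
  obtain ⟨C', hC', h'⟩ := h'
  refine ⟨C + C', ENNReal.add_ne_top.2 ⟨hC, hC'⟩, fun q hq => ?_⟩
  rw [add_mul]
  exact (lintegral_union_le _ _ _).trans (add_le_add (h q hq) (h' q hq))

variable [IsFiniteMeasure μ]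

lemma Rel.union_right (hS : ∀ q ∈ S, Measurable q.1) (h : Rel μ S U W) (h' : Rel μ S U W') :
    Rel μ S U (W ∪ W') := by
  obtain ⟨C, hC, h⟩ := h
  obtain ⟨C', hC', h'⟩ := h'
  refine ⟨C + C', ENNReal.add_ne_top.2 ⟨hC, hC'⟩, fun q hq => ?_⟩
  rw [add_mul]
  refine le_trans ?_ (add_le_add (h q hq) (h' q hq))
  unfold osc
  rw [← lintegral_add_left (measurable_sq_sub (hS q hq)).lintegral_prod_right']
  exact lintegral_mono fun x => lintegral_union_le _ _ _

lemma ofReal_two (a b : ℝ) : ENNReal.ofReal ((a + b) ^ 2) ≤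
    2 * ENNReal.ofReal (a ^ 2) + 2 * ENNReal.ofReal (b ^ 2) := by
  rw [← ENNReal.ofReal_ofNat 2, ← ENNReal.ofReal_mul (by norm_num),
    ← ENNReal.ofReal_mul (by norm_num), ← ENNReal.ofReal_add (by positivity) (by positivity)]
  exact ENNReal.ofReal_le_ofReal (by nlinarith [sq_nonneg (a - b)])

lemma Rel.trans (hS : ∀ q ∈ S, Measurable q.1) (h : Rel μ S U V) (h' : Rel μ S V W)
    (hV : μ V ≠ 0) : Rel μ S U W := by
  obtain ⟨C, hC, h⟩ := h
  obtain ⟨C', hC', h'⟩ := h'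
  refine ⟨(μ V)⁻¹ * (2 * μ W * C + 2 * μ U * C'), ?_, fun q hq => ?_⟩
  · refine ENNReal.mul_ne_top (ENNReal.inv_ne_top.2 hV) (ENNReal.add_ne_top.2 ⟨?_, ?_⟩) <;>
      exact ENNReal.mul_ne_top (ENNReal.mul_ne_top (by norm_num) (measure_ne_top _ _)) ‹_›
  have hm := measurable_sq_sub (hS q hq)
  set F : X → X → ℝ≥0∞ := fun x y => ENNReal.ofReal ((q.1 x - q.1 y) ^ 2) with hF
  have hm1 : Measurable fun x => ∫⁻ y in V, F x y ∂μ := hm.lintegral_prod_right'
  have hm2 : Measurable fun z => ∫⁻ y in V, F y z ∂μ := hm.lintegral_prod_left'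
  have h1 : ∀ x z, μ V * F x z ≤ 2 * ∫⁻ y in V, F x y ∂μ + 2 * ∫⁻ y in V, F y z ∂μ := by
    intro x z
    have hx : Measurable fun y => F x y := hm.comp (measurable_prodMk_left)
    have hz : Measurable fun y => F y z := hm.comp (measurable_prodMk_right)
    rw [mul_comm, ← setLIntegral_const, ← lintegral_const_mul _ hx, ← lintegral_const_mul _ hz,
      ← lintegral_add_left (hx.const_mul _)]
    refine lintegral_mono fun y => ?_
    have := ofReal_two (q.1 x - q.1 y) (q.1 y - q.1 z)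
    rwa [sub_add_sub_cancel] at this
  have h2 : μ V * osc μ q.1 U W ≤ 2 * μ W * osc μ q.1 U V + 2 * μ U * osc μ q.1 V W := by
    have hswap : osc μ q.1 V W = ∫⁻ z in W, ∫⁻ y in V, F y z ∂μ ∂μ :=
      lintegral_lintegral_swap hm.aemeasurable
    have hm0 : Measurable fun x => ∫⁻ z in W, F x z ∂μ := hm.lintegral_prod_right'
    have h3 : ∀ x, μ V * ∫⁻ z in W, F x z ∂μ ≤
        2 * μ W * ∫⁻ y in V, F x y ∂μ + 2 * osc μ q.1 V W := by
      intro x
      have hx : Measurable fun y => F x y := hm.comp (measurable_prodMk_left)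
      rw [← lintegral_const_mul _ hx]
      refine (lintegral_mono fun z => h1 x z).trans (le_of_eq ?_)
      rw [lintegral_add_left measurable_const, setLIntegral_const, lintegral_const_mul _ hm2, hswap]
      ring
    change μ V * ∫⁻ x in U, ∫⁻ z in W, F x z ∂μ ∂μ ≤
      2 * μ W * ∫⁻ x in U, ∫⁻ y in V, F x y ∂μ ∂μ + _
    rw [← lintegral_const_mul _ hm0]
    refine (lintegral_mono h3).trans (le_of_eq ?_)
    rw [lintegral_add_right _ measurable_const, setLIntegral_const, lintegral_const_mul _ hm1]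
    ring
  rw [mul_assoc, ← ENNReal.div_eq_inv_mul, ENNReal.le_div_iff_mul_le (Or.inl hV)
    (Or.inl (measure_ne_top _ _)), mul_comm, add_mul, mul_assoc _ C, mul_assoc _ C']
  refine h2.trans (add_le_add ?_ ?_) <;> gcongr
  exacts [h q hq, h' q hq]

lemma Rel.union (hS : ∀ q ∈ S, Measurable q.1) (h : Rel μ S U U) (h' : Rel μ S W W)
    (hV : μ (U ∩ W) ≠ 0) : Rel μ S (U ∪ W) (U ∪ W) := by
  refine Rel.union_left (h.union_right hS ?_) (Rel.union_right hS ?_ h')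
  · exact (h.mono subset_rfl inter_subset_left).trans hS (h'.mono inter_subset_right subset_rfl) hV
  · exact (h'.mono subset_rfl inter_subset_right).trans hS (h.mono inter_subset_left subset_rfl) hV

theorem glue [TopologicalSpace X] {K : Set X} (hK : IsCompact K) (hc : IsConnected K)
    (hpos : ∀ U, IsOpen U → (U ∩ K).Nonempty → μ U ≠ 0) (hS : ∀ q ∈ S, Measurable q.1)
    (hloc : ∀ x ∈ K, ∃ U, IsOpen U ∧ x ∈ U ∧ Rel μ S U U) : Rel μ S K K := by
  obtain ⟨x₀, hx₀⟩ := hc.nonempty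
  let r : X → X → Prop := fun x y => ∃ U, IsOpen U ∧ x ∈ U ∧ y ∈ U ∧ Rel μ S U U
  have hr : ∀ y ∈ K, r x₀ y := by
    intro y hy
    refine hc.isPreconnected.induction₂' r (fun x hx => ?_) ?_ hx₀ hy
    · obtain ⟨U, hU, hxU, h⟩ := hloc x hx
      filter_upwards [mem_nhdsWithin_of_mem_nhds (hU.mem_nhds hxU)] with z hz
      exact ⟨⟨U, hU, hxU, hz, h⟩, ⟨U, hU, hz, hxU, h⟩⟩
    · rintro x y z - hy - ⟨U, hU, hxU, hyU, h⟩ ⟨W, hW, hyW, hzW, h'⟩
      exact ⟨U ∪ W, hU.union hW, Or.inl hxU, Or.inr hzW,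
        h.union hS h' (hpos _ (hU.inter hW) ⟨y, ⟨hyU, hyW⟩, hy⟩)⟩
  have : ∃ U, IsOpen U ∧ x₀ ∈ U ∧ K ⊆ U ∧ Rel μ S U U := by
    refine hK.induction_on (p := fun s => ∃ U, IsOpen U ∧ x₀ ∈ U ∧ s ⊆ U ∧ Rel μ S U U) ?_ ?_ ?_ ?_
    · obtain ⟨U, hU, hxU, h⟩ := hloc x₀ hx₀
      exact ⟨U, hU, hxU, empty_subset _, h⟩
    · rintro s t hst ⟨U, hU, hxU, htU, h⟩
      exact ⟨U, hU, hxU, hst.trans htU, h⟩
    · rintro s t ⟨U, hU, hxU, hsU, h⟩ ⟨W, hW, hxW, htW, h'⟩
      exact ⟨U ∪ W, hU.union hW, Or.inl hxU, union_subset_union hsU htW,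
        h.union hS h' (hpos _ (hU.inter hW) ⟨x₀, ⟨hxU, hxW⟩, hx₀⟩)⟩
    · intro y hy
      obtain ⟨U, hU, hxU, hyU, h⟩ := hr y hy
      exact ⟨U, mem_nhdsWithin_of_mem_nhds (hU.mem_nhds hyU), U, hU, hxU, subset_rfl, h⟩
  obtain ⟨U, -, -, hKU, h⟩ := this
  exact h.mono hKU hKU

lemma mul_le_osc {f : X → ℝ} (hf : Integrable f μ) (hf2 : Integrable (fun x => f x ^ 2) μ)
    (h0 : ∫ x, f x ∂μ = 0) : ENNReal.ofReal (∫ x, f x ^ 2 ∂μ) * μ univ ≤ osc μ f univ univ := by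
  unfold osc
  rw [← setLIntegral_const, Measure.restrict_univ]
  refine lintegral_mono fun x => ?_
  have h1 : Integrable (fun y => f x ^ 2 - 2 * f x * f y) μ :=
    (integrable_const _).sub (hf.const_mul _)
  have h2 : (fun y => (f x - f y) ^ 2) = fun y => (f x ^ 2 - 2 * f x * f y) + f y ^ 2 := by
    funext y; ring
  rw [← ofReal_integral_eq_lintegral_ofReal (by rw [h2]; exact h1.add hf2)
    (Filter.Eventually.of_forall fun y => sq_nonneg _), h2, integral_add h1 hf2,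
    integral_sub (integrable_const _) (hf.const_mul _), integral_const_mul, h0]
  refine ENNReal.ofReal_le_ofReal ?_
  have : 0 ≤ ∫ _ : X, f x ^ 2 ∂μ := integral_nonneg fun _ => sq_nonneg _
  linarith

end Pool.Agent.P.MP_07ee5e_gt
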