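import Pool.Agent.P.MP_07ee5e_gt.Box
import Pool.Agent.P.MP_07ee5e_gt.Glue

/-! The Dirichlet energy read in a chart and the local estimate. -/

set_option autoImplicit false

open scoped Manifold ContDiff ENNReal Topology
open MeasureTheory Set Bundle Metric Filter

noncomputable section

namespace Pool.Agent.P.MP_07ee5e_gt

variable {d : ℕ} {M : Type*} [TopologicalSpace M]
  [ChartedSpace (EuclideanHalfSpace (d + 1)) M] [IsManifold (𝓡∂ (d + 1)) ∞ M]

/-- The differential of `u` read in the chart at `p`. -/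
def Dc (u : M → ℝ) (p x : M) : Euc (d + 1) →L[ℝ] ℝ :=
  ContinuousLinearMap.comp (R₁ := ℝ) (R₂ := ℝ) (R₃ := ℝ) (M₁ := Euc (d + 1))
    (M₂ := TangentSpace (𝓡∂ (d + 1)) x) (M₃ := ℝ)
    (mfderiv (𝓡∂ (d + 1)) 𝓘(ℝ, ℝ) u x) (fr d p x)

variable {u : M → ℝ}

lemma continuousOn_Dc_apply (hu : ContMDiff (𝓡∂ (d + 1)) 𝓘(ℝ, ℝ) ∞ u) (p : M)
    (v : Euc (d + 1)) : ContinuousOn (fun x => Dc u p x v) (ch d p).source :=
  ((contMDiff_snd_tangentBundle_modelSpace ℝ 𝓘(ℝ, ℝ) (n := 0)).continuous.comp
    (hu.continuous_tangentMap (by simp))).comp_continuousOn (contMDiffOn_fr p v).continuousOn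

lemma hasFDerivWithinAt_Dc (hu : ContMDiff (𝓡∂ (d + 1)) 𝓘(ℝ, ℝ) ∞ u) {p : M} {y : Euc (d + 1)}
    (hy : y ∈ (ch d p).target) :
    HasFDerivWithinAt (u ∘ (ch d p).symm) (Dc u p ((ch d p).symm y)) (range (𝓡∂ (d + 1))) y := by
  have h1 := ((hu ((ch d p).symm y)).mdifferentiableAt (by simp)).hasMFDerivAt
  have h2 := (mdifferentiableWithinAt_extChartAt_symm hy).hasMFDerivWithinAt
  have h3 := hasMFDerivWithinAt_iff_hasFDerivWithinAt.1 (h1.comp_hasMFDerivWithinAt y h2)
  refine h3.congr_fderiv (ContinuousLinearMap.ext fun v => ?_)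
  exact congrArg (mfderiv (𝓡∂ (d + 1)) 𝓘(ℝ, ℝ) u ((ch d p).symm y))
    (fr_eq_mfderivWithin' hy v).symm

lemma le_gradSq (g : RMetric d M) (u : M → ℝ) (p x : M) (v : Euc (d + 1)) :
    ENNReal.ofReal (Dc u p x v ^ 2 / form g p x v v) ≤ gradSq g u x :=
  le_iSup (fun v : TangentSpace (𝓡∂ (d + 1)) x =>
    ENNReal.ofReal ((show ℝ from mfderiv (𝓡∂ (d + 1)) 𝓘(ℝ, ℝ) u x v) ^ 2 / g.inner x v v))
    (fr d p x v)

lemma segment_chart (hu : ContMDiff (𝓡∂ (d + 1)) 𝓘(ℝ, ℝ) ∞ u) {p : M} (y e : Euc (d + 1)) (τ : ℝ)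
    (h : ∀ s ∈ Icc (0 : ℝ) 1, y + (s * τ) • e ∈ (ch d p).target) :
    ENNReal.ofReal ((u ((ch d p).symm (y + τ • e)) - u ((ch d p).symm y)) ^ 2) ≤
      ENNReal.ofReal (τ ^ 2) * ∫⁻ s in Icc (0 : ℝ) 1,
        ENNReal.ofReal (Dc u p ((ch d p).symm (y + (s * τ) • e)) e ^ 2) := by
  have key := segment_ineq (U := fun s => u ((ch d p).symm (y + (s * τ) • e)))
    (U' := fun s => τ * Dc u p ((ch d p).symm (y + (s * τ) • e)) e) (fun s hs => ?_) ?_
  · simp only [one_mul, zero_mul, zero_smul, add_zero] at key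
    refine key.trans (le_of_eq ?_)
    rw [← lintegral_const_mul' _ _ ENNReal.ofReal_ne_top]
    congr 1
    funext s
    rw [mul_pow, ENNReal.ofReal_mul (sq_nonneg _)]
  · have h1 : HasDerivWithinAt (fun s : ℝ => y + (s * τ) • e) (τ • e) (Icc 0 1) s := by
      have := (((hasDerivAt_id s).mul_const τ).smul_const e).const_add y
      simpa using this.hasDerivWithinAt
    have h2 := (hasFDerivWithinAt_Dc hu (h s hs)).comp_hasDerivWithinAt s h1
      fun s' hs' => extChartAt_target_subset_range p (h s' hs')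
    simpa [Function.comp_def] using h2
  · refine continuousOn_const.mul ((continuousOn_Dc_apply hu p e).comp
      ((continuousOn_extChartAt_symm p).comp (by fun_prop) h) fun s hs => ?_)
    exact (ch d p).map_target (h s hs)

/-- Squared derivative in the direction `e`, cut off outside `K`. -/
def dens (u : M → ℝ) (p : M) (K : Set (Euc (d + 1))) (e : Euc (d + 1)) : Euc (d + 1) → ℝ≥0∞ :=
  K.indicator fun y => ENNReal.ofReal (Dc u p ((ch d p).symm y) e ^ 2)

lemma measurable_dens (hu : ContMDiff (𝓡∂ (d + 1)) 𝓘(ℝ, ℝ) ∞ u) {p : M} {K : Set (Euc (d + 1))}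
    (hK : MeasurableSet K) (hKt : K ⊆ (ch d p).target) (e : Euc (d + 1)) :
    Measurable (dens u p K e) := by
  classical
  rw [dens, ← piecewise_eq_indicator]
  refine ContinuousOn.measurable_piecewise ?_ continuousOn_const hK
  refine ENNReal.continuous_ofReal.comp_continuousOn (ContinuousOn.pow ?_ 2)
  exact ((continuousOn_Dc_apply hu p e).comp (continuousOn_extChartAt_symm p)
    (ch d p).mapsTo_symm).mono hKt

variable [T2Space M] [MeasurableSpace M] [BorelSpace M]

/-- The Dirichlet energy. -/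
def energy (g : RMetric d M) (u : M → ℝ) : ℝ≥0∞ := ∫⁻ x, gradSq g u x ∂vol g

lemma dens_le_energy (g : RMetric d M) (u : M → ℝ) {p : M} {K : Set (Euc (d + 1))}
    (hK : MeasurableSet K) (hKt : K ⊆ (ch d p).target) (i : Fin (d + 1)) {κ : ℝ}
    (hκ : ∀ y ∈ K, gram g p y i i ≤ κ * √(gram g p y).det) :
    ∫⁻ y, dens u p K (EuclideanSpace.single i 1) y ≤ ENNReal.ofReal κ * energy g u := by
  have h1 : ∫⁻ x, gradSq g u x ∂chartVol g p ≤ energy g u := lintegral_mono' (chartVol_le g p) le_rfl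
  refine le_trans ?_ (mul_le_mul_right h1 _)
  rw [chartVol, (isParam_vol g p).lintegral, dens, lintegral_indicator hK,
    ← lintegral_const_mul' _ _ ENNReal.ofReal_ne_top]
  refine le_trans (setLIntegral_mono' hK fun y hy => ?_) (lintegral_mono_set hKt)
  refine le_trans ?_ (mul_le_mul_right (mul_le_mul_right
    (le_gradSq g u p _ (EuclideanSpace.single i 1)) _) _)
  have h2 : form g p ((ch d p).symm y) (EuclideanSpace.single i 1) (EuclideanSpace.single i 1) =
      gram g p y i i := by rw [gram_eq g (hKt hy), Matrix.of_apply]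
  have h3 : 0 < gram g p y i i := (posDef_gram g (hKt hy)).diag_pos
  have h4 := hκ y hy
  have h5 : 0 ≤ κ := by
    by_contra h
    nlinarith [Real.sqrt_nonneg (gram g p y).det]
  rw [h2, ← ENNReal.ofReal_mul (Real.sqrt_nonneg _), ← ENNReal.ofReal_mul h5]
  refine ENNReal.ofReal_le_ofReal ?_
  rw [← mul_assoc, mul_div_assoc', le_div_iff₀ h3, mul_comm]
  exact mul_le_mul_of_nonneg_right h4 (sq_nonneg _)

lemma osc_le_chart (g : RMetric d M) (B : Box d M) {C : ℝ} (hC : IsBound g B C) (u : M → ℝ) :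
    osc (area g) u B.U B.U ≤ ENNReal.ofReal C * (ENNReal.ofReal C *
      ∫⁻ x in ball B.c B.ρ, ∫⁻ y in ball B.c B.ρ, ENNReal.ofReal
        ((u ((ch d B.p).symm (kap (0, x))) - u ((ch d B.p).symm (kap (0, y)))) ^ 2)) := by
  have key : ∀ F : M → ℝ≥0∞, ∫⁻ x in B.U, F x ∂area g ≤
      ENNReal.ofReal C * ∫⁻ z in ball B.c B.ρ, F ((ch d B.p).symm (kap (0, z))) := by
    intro F
    have hU := B.isOpen_U.measurableSet
    have h1 : (area g).restrict B.U ≤ (chartArea g B.p).restrict B.U := by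
      have : (area g).restrict B.U = ((area g).restrict (ch d B.p).source).restrict B.U := by
        rw [Measure.restrict_restrict hU, inter_eq_left.2 (show B.U ⊆ _ from inter_subset_left)]
      rw [this]
      exact Measure.restrict_mono subset_rfl (area_restrict_le g B.p)
    refine (lintegral_mono' h1 le_rfl).trans ?_
    rw [chartArea, (isParam_area g B.p).setLIntegral hU,
      ← lintegral_const_mul' _ _ ENNReal.ofReal_ne_top]
    have hsub : bdryPt ⁻¹' (ch d B.p).target ∩
        (fun z : Euc d => (ch d B.p).symm (bdryPt z)) ⁻¹' B.U ⊆ ball B.c B.ρ := by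
      rintro z ⟨h2, -, h3⟩
      simp only [mem_preimage] at h2 h3
      rwa [(ch d B.p).right_inv h2, projL_bdryPt] at h3
    refine le_trans (setLIntegral_mono' ((isParam_area g B.p).measurableSet_preimage hU)
      fun z hz => ?_) (lintegral_mono_set hsub)
    have hk : kap (0, z) = bdryPt z := by simp [kap]
    rw [hk]
    refine mul_le_mul_left (ENNReal.ofReal_le_ofReal (hC.bdet _ ⟨?_, ?_⟩)) _
    · exact ⟨le_rfl, B.h_pos.le⟩
    · rw [projL_bdryPt]
      exact closedBall_subset_closedBall (by linarith [B.ρ_pos]) (ball_subset_closedBall (hsub hz))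
  refine (key _).trans (mul_le_mul_right ?_ _)
  rw [← lintegral_const_mul' _ _ ENNReal.ofReal_ne_top]
  exact lintegral_mono fun z => key _

/-- The vector field is a large multiple of each tangential coordinate field on a thin slab. -/
def Good (B : Box d M) (T : ℝ) (X : ∀ x : M, TangentSpace (𝓡∂ (d + 1)) x) (i : Fin d) : Prop :=
  ∃ δ b : ℝ, 0 < δ ∧ 2 * δ ≤ B.h ∧ δ ≤ T⁻¹ ∧ 0 ≤ b ∧ T ≤ b ^ d * δ ∧
    ∀ y ∈ slab B.c (3 * B.ρ) δ (2 * δ),
      X ((ch d B.p).symm y) = b • fr d B.p ((ch d B.p).symm y) (EuclideanSpace.single i.succ 1)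

theorem local_estimate (hd : 2 ≤ d) (g : RMetric d M) (B : Box d M) {C : ℝ} (hC : IsBound g B C)
    {T : ℝ} (hT : 0 < T) {X : ∀ x : M, TangentSpace (𝓡∂ (d + 1)) x} (hX : IsField X)
    (hG : ∀ i, Good B T X i) (hu : ContMDiff (𝓡∂ (d + 1)) 𝓘(ℝ, ℝ) ∞ u) :
    osc (area g) u B.U B.U ≤ ENNReal.ofReal C * ENNReal.ofReal C * locConst d B.ρ *
      ENNReal.ofReal (C ^ (d + 2)) * (ENNReal.ofReal T⁻¹ * energy (deform g X hX) u) := by
  choose δ b hδ hδh hδT hb hbT hXb using hG
  have hρ := B.ρ_pos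
  have hC1 := hC.one_le
  have hC0 : 0 < C := by linarith
  have hQm : MeasurableSet B.Q := (isCompact_slab _ _ _ _).measurableSet
  have hsl : ∀ i, slab B.c (3 * B.ρ) (δ i) (2 * δ i) ⊆ B.Q :=
    fun i => slab_mono _ (by linarith) (hδ i).le (hδh i)
  have hslm : ∀ i, MeasurableSet (slab B.c (3 * B.ρ) (δ i) (2 * δ i)) :=
    fun i => (isCompact_slab _ _ _ _).measurableSet
  have mA := measurable_dens hu hQm B.sub (EuclideanSpace.single 0 1)
  have mB := fun i : Fin d => measurable_dens hu (hslm i) ((hsl i).trans B.sub)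
    (EuclideanSpace.single i.succ 1)
  refine (osc_le_chart g B hC u).trans ?_
  rw [mul_assoc, mul_assoc, mul_assoc]
  refine mul_le_mul_right (mul_le_mul_right ?_ _) _
  refine local_poincare B.c δ hδ (fun t z => u ((ch d B.p).symm (kap (t, z))))
    (fun q => dens u B.p B.Q (EuclideanSpace.single 0 1) (kap q))
    (fun i q => dens u B.p (slab B.c (3 * B.ρ) (δ i) (2 * δ i))
      (EuclideanSpace.single i.succ 1) (kap q))
    (mA.comp continuous_kap.measurable) (fun i => (mB i).comp continuous_kap.measurable)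
    (fun i z hz t ht => ?_) (fun i t ht z τ hz hz' => ?_) _ (fun i => ?_) (fun i => ?_)
  · have ht0 : 0 < t := (hδ i).trans_le ht.1
    have hk : ∀ s : ℝ, kap (0, z) + s • EuclideanSpace.single 0 1 = kap (s, z) := by
      intro s; simp [kap]
    have hmem : ∀ s ∈ Icc (0 : ℝ) 1, kap (s * t, z) ∈ B.Q := by
      intro s hs
      refine ⟨?_, ?_⟩
      · rw [kap_zero]
        exact ⟨mul_nonneg hs.1 ht0.le, by nlinarith [hs.2, ht.2, hδh i]⟩
      · rw [projL_kap]
        exact closedBall_subset_closedBall (by linarith) (ball_subset_closedBall hz)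
    have h1 := segment_chart hu (p := B.p) (kap (0, z)) (EuclideanSpace.single 0 1) t
      fun s hs => by rw [hk]; exact B.sub (hmem s hs)
    simp only [hk] at h1
    refine h1.trans ?_
    have hm : Measurable fun s : ℝ => dens u B.p B.Q (EuclideanSpace.single 0 1) (kap (s, z)) :=
      mA.comp (continuous_kap.measurable.comp measurable_prodMk_right)
    have h2 : ∫⁻ s in Icc (0 : ℝ) 1, ENNReal.ofReal
        (Dc (d := d) u B.p ((ch d B.p).symm (kap (s * t, z))) (EuclideanSpace.single 0 1) ^ 2) ≤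
        ENNReal.ofReal t⁻¹ * ∫⁻ s, dens u B.p B.Q (EuclideanSpace.single 0 1) (kap (s, z)) := by
      calc _ = ∫⁻ s in Icc (0 : ℝ) 1,
            dens (d := d) u B.p B.Q (EuclideanSpace.single 0 1) (kap (s * t, z)) := by
            refine setLIntegral_congr_fun measurableSet_Icc fun s hs => ?_
            simp only [dens, indicator_of_mem (hmem s hs)]
        _ ≤ ∫⁻ s : ℝ, dens (d := d) u B.p B.Q (EuclideanSpace.single 0 1) (kap (s * t, z)) :=
            setLIntegral_le_lintegral _ _
        _ = _ := by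
            rw [← lintegral_map hm (measurable_mul_const t), Real.map_volume_mul_right ht0.ne', lintegral_smul_measure,
              abs_of_pos (inv_pos.2 ht0), smul_eq_mul]
    refine (mul_le_mul_right h2 _).trans ?_
    rw [← mul_assoc, ← ENNReal.ofReal_mul (sq_nonneg _)]
    refine mul_le_mul_left (ENNReal.ofReal_le_ofReal ?_) _
    rw [sq, mul_assoc, mul_inv_cancel₀ ht0.ne', mul_one]
    exact ht.2
  · have hk : ∀ s : ℝ, kap (t, z) + s • EuclideanSpace.single i.succ 1 =
        kap (t, z + s • EuclideanSpace.single i (1 : ℝ)) := by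
      intro s
      simp only [kap, ← bdryL_apply, map_add, map_smul]
      rw [bdryL_apply (EuclideanSpace.single i (1 : ℝ)), bdryPt_single]
      abel
    have hmem : ∀ s ∈ Icc (0 : ℝ) 1, kap (t, z + (s * τ) • EuclideanSpace.single i (1 : ℝ)) ∈
        slab B.c (3 * B.ρ) (δ i) (2 * δ i) := by
      intro s hs
      refine ⟨by rw [kap_zero]; exact ht, ?_⟩
      rw [projL_kap]
      refine ball_subset_closedBall ?_
      have := (convex_ball B.c (3 * B.ρ)).add_smul_mem hz hz' hs
      rwa [smul_smul] at this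
    have h1 := segment_chart hu (p := B.p) (kap (t, z)) (EuclideanSpace.single i.succ 1) τ
      fun s hs => by rw [hk]; exact B.sub (hsl i (hmem s hs))
    simp only [hk] at h1
    refine h1.trans (mul_le_mul_right (le_of_eq ?_) _)
    refine setLIntegral_congr_fun measurableSet_Icc fun s hs => ?_
    simp only [dens, indicator_of_mem (hmem s hs)]
  · rw [measurePreserving_kap.lintegral_comp mA]
    have h1 := dens_le_energy (deform g X hX) u hQm B.sub 0 (κ := C ^ 2) fun y hy => by
      have hy' := B.sub hy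
      set s := 1 + g.inner _ (X ((ch d B.p).symm y)) (X ((ch d B.p).symm y)) with hs
      have hs1 : 1 ≤ s := by linarith [inner_nonneg g _ (X ((ch d B.p).symm y))]
      have h2 : gram (deform g X hX) B.p y 0 0 ≤ s * gram g B.p y 0 0 := by
        rw [gram_eq _ hy', gram_eq _ hy']
        exact defInner_le g X _ _
      have h3 : s ≤ √(s ^ d) := Real.le_sqrt_of_sq_le (pow_le_pow_right₀ hs1 hd)
      rw [det_gram_deform g hX hy', ← hs, Real.sqrt_mul (by positivity)]
      calc _ ≤ s * C := h2.trans (mul_le_mul_of_nonneg_left (hC.diag 0 y hy).2 (by linarith))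
        _ = C ^ 2 * (s * C⁻¹) := by field_simp
        _ ≤ _ := by gcongr; exact (hC.det y hy).1
    refine (mul_le_mul_right h1 _).trans ?_
    rw [← mul_assoc, ← mul_assoc, mul_comm (ENNReal.ofReal (δ i))]
    refine mul_le_mul_left (mul_le_mul' (ENNReal.ofReal_le_ofReal ?_)
      (ENNReal.ofReal_le_ofReal (hδT i))) _
    exact pow_le_pow_right₀ hC1 (by omega)
  · refine (setLIntegral_le_lintegral _ _).trans ?_
    rw [measurePreserving_kap.lintegral_comp (mB i)]
    have h1 := dens_le_energy (deform g X hX) u (hslm i) ((hsl i).trans B.sub) i.succ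
      (κ := δ i * (C ^ (d + 2) * T⁻¹)) fun y hy => by
      have hyQ := hsl i hy
      have hy' := B.sub hyQ
      set s := 1 + g.inner _ (X ((ch d B.p).symm y)) (X ((ch d B.p).symm y)) with hs
      have h2 : gram (deform g X hX) B.p y i.succ i.succ = gram g B.p y i.succ i.succ := by
        rw [gram_eq _ hy', gram_eq _ hy']
        exact deform_inner_of_smul g hX (hXb i y hy)
      have h3 : s = 1 + b i ^ 2 * gram g B.p y i.succ i.succ := by
        rw [hs, hXb i y hy, gram_eq _ hy', Matrix.of_apply, form_apply]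
        simp only [map_smul, _root_.smul_apply, smul_eq_mul]
        ring
      have hCi : C⁻¹ ≤ 1 := inv_le_one_of_one_le₀ hC1
      have hCi0 : 0 < C⁻¹ := inv_pos.2 hC0
      have h4 : (b i * C⁻¹) ^ 2 ≤ s := by
        have := (hC.diag i.succ y hyQ).1
        rw [h3, mul_pow]
        nlinarith [mul_le_mul_of_nonneg_left (show C⁻¹ ^ 2 ≤ gram g B.p y i.succ i.succ by
          nlinarith) (sq_nonneg (b i))]
      have hbi := hb i
      have h5 : (b i * C⁻¹) ^ d ≤ √(s ^ d) := by
        refine Real.le_sqrt_of_sq_le ?_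
        rw [← pow_mul, mul_comm d, pow_mul]
        exact pow_le_pow_left₀ (sq_nonneg _) h4 d
      have hs0 : 0 ≤ s := (sq_nonneg _).trans h4
      have hδi := hδ i
      rw [h2, det_gram_deform g hX hy', ← hs, Real.sqrt_mul (by positivity)]
      calc _ ≤ C := (hC.diag i.succ y hyQ).2
        _ = T * T⁻¹ * C := by field_simp
        _ ≤ (b i ^ d * δ i) * T⁻¹ * C := by gcongr; exact hbT i
        _ = δ i * (C ^ (d + 2) * T⁻¹) * ((b i * C⁻¹) ^ d * C⁻¹) := by
          rw [mul_pow, inv_pow]; field_simp; ring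
        _ ≤ _ := by gcongr; exact (hC.det y hyQ).1
    refine h1.trans (le_of_eq ?_)
    rw [ENNReal.ofReal_mul (hδ i).le, ENNReal.ofReal_mul (by positivity), mul_assoc, mul_assoc]

end Pool.Agent.P.MP_07ee5e_gt
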