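import Pool.Agent.P.MP_07ee5e_gt.KNet

/-! Disjoint bumps at a small scale. -/

set_option autoImplicit false

open scoped ENNReal Topology ContDiff
open MeasureTheory Set Metric

noncomputable section

namespace Pool.Agent.P.MP_07ee5e_gt

variable {d : ℕ}

lemma exists_small_subset {ι : Type*} (s : Finset ι) (v : ι → ℝ) {V : ℝ} {k : ℕ}
    (hs : 2 * k + 1 ≤ s.card) (hv : ∀ j ∈ s, 0 ≤ v j) (hV : ∑ j ∈ s, v j ≤ V) :
    ∃ G ⊆ s, G.card = k + 1 ∧ ∀ j ∈ G, v j ≤ V / (k + 1) := by
  classical
  have hV0 : 0 ≤ V := (Finset.sum_nonneg hv).trans hV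
  have hbad : (s.filter fun j => ¬ v j ≤ V / (k + 1)).card ≤ k := by
    by_contra h
    have h1 : k + 1 ≤ (s.filter fun j => ¬ v j ≤ V / (k + 1)).card := by omega
    have h2 : ∑ _j ∈ s.filter fun j => ¬ v j ≤ V / (k + 1), V / (k + 1) <
        ∑ j ∈ s.filter fun j => ¬ v j ≤ V / (k + 1), v j :=
      Finset.sum_lt_sum_of_nonempty (Finset.card_pos.1 (by omega))
        fun j hj => not_le.1 (Finset.mem_filter.1 hj).2
    have h3 : ∑ j ∈ s.filter fun j => ¬ v j ≤ V / (k + 1), v j ≤ ∑ j ∈ s, v j :=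
      Finset.sum_le_sum_of_subset_of_nonneg (Finset.filter_subset _ _) fun j hj _ => hv j hj
    rw [Finset.sum_const, nsmul_eq_mul] at h2
    have h4 : ((k : ℝ) + 1) ≤ (s.filter fun j => ¬ v j ≤ V / (k + 1)).card := by
      exact_mod_cast h1
    have h5 := mul_le_mul_of_nonneg_right h4 (by positivity : 0 ≤ V / (k + 1))
    rw [mul_div_cancel₀ _ (by positivity)] at h5
    linarith
  have hgood : k + 1 ≤ (s.filter fun j => v j ≤ V / (k + 1)).card := by
    have := Finset.card_filter_add_card_filter_not (s := s) fun j => v j ≤ V / (k + 1)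
    omega
  obtain ⟨G, hG, hGc⟩ := Finset.exists_subset_card_eq hgood
  exact ⟨G, hG.trans (Finset.filter_subset _ _), hGc,
    fun j hj => (Finset.mem_filter.1 (hG hj)).2⟩

theorem exists_bumps (d : ℕ) : ∃ K : ℝ, 0 < K ∧ ∀ r : ℝ, 0 < r → ∀ G : Finset (Euc d),
    (∀ x ∈ G, ∀ y ∈ G, x ≠ y → 3 * r ≤ dist x y) →
    ∃ Λ : (G → ℝ) →ₗ[ℝ] (Euc d → ℝ), ∀ a, ContDiff ℝ ∞ (Λ a) ∧
      (∀ z, ‖fderiv ℝ (Λ a) z‖ ^ 2 ≤
        (K / r) ^ 2 * ∑ j : G, (closedBall (j : Euc d) r).indicator (fun _ => a j ^ 2) z) ∧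
      ∀ z, ∑ j : G, (ball (j : Euc d) (r / 2)).indicator (fun _ => a j ^ 2) z ≤ Λ a z ^ 2 := by
  classical
  let β : ContDiffBump (0 : Euc d) := ⟨1 / 2, 1, by norm_num, by norm_num⟩
  have hβ : ContDiff ℝ ∞ β := β.contDiff
  obtain ⟨K, hK⟩ := (hβ.continuous_fderiv (by simp)).bounded_above_of_compact_support
    (β.hasCompactSupport.fderiv ℝ)
  have hK0 : 0 ≤ K := (norm_nonneg _).trans (hK 0)
  refine ⟨K + 1, by positivity, fun r hr G hsep => ?_⟩
  let b : Euc d → Euc d → ℝ := fun c z => β (r⁻¹ • (z - c))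
  have hb : ∀ c, ContDiff ℝ ∞ (b c) := fun c =>
    hβ.comp ((contDiff_id.sub contDiff_const).const_smul r⁻¹)
  have hnorm : ∀ c z : Euc d, dist (r⁻¹ • (z - c)) 0 = dist z c / r := fun c z => by
    rw [dist_zero_right, norm_smul, Real.norm_of_nonneg (by positivity), dist_eq_norm,
      div_eq_inv_mul]
  have hder : ∀ c z, HasFDerivAt (b c)
      ((fderiv ℝ β (r⁻¹ • (z - c))).comp (r⁻¹ • ContinuousLinearMap.id ℝ (Euc d))) z :=
    fun c z => (hβ.differentiable (by simp) _).hasFDerivAt.comp z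
      (((hasFDerivAt_id z).sub_const c).const_smul r⁻¹)
  have hle : ∀ c z, ‖fderiv ℝ (b c) z‖ ≤ (K + 1) / r := fun c z => by
    rw [(hder c z).fderiv]
    refine (ContinuousLinearMap.opNorm_comp_le _ _).trans ?_
    rw [norm_smul, Real.norm_of_nonneg (by positivity), div_eq_mul_inv]
    refine mul_le_mul ((hK _).trans (by linarith)) ?_ (by positivity) (by positivity)
    exact mul_le_of_le_one_right (by positivity) ContinuousLinearMap.norm_id_le
  have hz1 : ∀ c z, r < dist z c → fderiv ℝ (b c) z = 0 := fun c z h => by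
    rw [(hder c z).fderiv, fderiv_of_notMem_tsupport, ContinuousLinearMap.zero_comp]
    rw [β.tsupport_eq, mem_closedBall, hnorm, not_le, lt_div_iff₀ hr]
    simpa [β] using h
  have hz2 : ∀ c z, r < dist z c → b c z = 0 := fun c z h => β.zero_of_le_dist (by
    rw [hnorm, le_div_iff₀ hr]
    simpa [β] using h.le)
  have hone : ∀ c z, dist z c < r / 2 → b c z = 1 := fun c z h => β.one_of_mem_closedBall (by
    rw [mem_closedBall, hnorm, div_le_iff₀ hr]
    simp only [β]
    linarith)
  have hfar : ∀ (i j : G) (z : Euc d), dist z i ≤ r → j ≠ i → r < dist z j := by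
    intro i j z hi hji
    have h1 := hsep j j.2 i i.2 fun h => hji (Subtype.ext h)
    have h2 := dist_triangle_left (j : Euc d) i z
    linarith
  refine ⟨{ toFun := fun a z => ∑ j : G, a j * b j z
            map_add' := fun a a' => funext fun z => by
              simp only [Pi.add_apply, add_mul, Finset.sum_add_distrib]
            map_smul' := fun m a => funext fun z => by
              simp only [Pi.smul_apply, smul_eq_mul, RingHom.id_apply, Finset.mul_sum,
                mul_assoc] }, fun a => ⟨?_, fun z => ?_, fun z => ?_⟩⟩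
  · exact ContDiff.sum fun j _ => contDiff_const.mul (hb j)
  · have h1 : HasFDerivAt (fun z => ∑ j : G, a j * b j z)
        (∑ j : G, a j • fderiv ℝ (b j) z) z :=
      HasFDerivAt.fun_sum fun j _ =>
        (((hb j).differentiable (by simp) z).hasFDerivAt).const_mul (a j)
    change ‖fderiv ℝ (fun z => ∑ j : G, a j * b j z) z‖ ^ 2 ≤ _
    rw [h1.fderiv]
    have hnn : ∀ j : G, 0 ≤ (closedBall (j : Euc d) r).indicator (fun _ => a j ^ 2) z :=
      fun j => indicator_nonneg (fun _ _ => sq_nonneg _) z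
    by_cases h : ∃ i : G, dist z i ≤ r
    · obtain ⟨i, hi⟩ := h
      rw [Finset.sum_eq_single i (fun j _ hj => by rw [hz1 _ _ (hfar i j z hi hj), smul_zero])
        (by simp), norm_smul, mul_pow, mul_comm, Real.norm_eq_abs, sq_abs]
      refine mul_le_mul (pow_le_pow_left₀ (norm_nonneg _) (hle _ _) 2) ?_ (sq_nonneg _)
        (by positivity)
      refine le_trans (le_of_eq ?_) (Finset.single_le_sum (fun j _ => hnn j) (Finset.mem_univ i))
      rw [indicator_of_mem (mem_closedBall.2 hi)]
    · push Not at h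
      rw [Finset.sum_eq_zero fun j _ => by rw [hz1 _ _ (h j), smul_zero], norm_zero,
        zero_pow two_ne_zero]
      exact mul_nonneg (by positivity) (Finset.sum_nonneg fun j _ => hnn j)
  · change _ ≤ (∑ j : G, a j * b j z) ^ 2
    by_cases h : ∃ i : G, dist z i < r / 2
    · obtain ⟨i, hi⟩ := h
      have hi' : dist z i ≤ r := by linarith
      rw [Finset.sum_eq_single i (fun j _ hj => indicator_of_notMem (by
          have := hfar i j z hi' hj
          rw [mem_ball, not_lt]; linarith) _) (by simp),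
        Finset.sum_eq_single i (fun j _ hj => by rw [hz2 _ _ (hfar i j z hi' hj), mul_zero])
        (by simp), indicator_of_mem (mem_ball.2 hi), hone _ _ hi, mul_one]
    · push Not at h
      rw [Finset.sum_eq_zero fun j _ => indicator_of_notMem (by
        rw [mem_ball, not_lt]; exact h j) _]
      exact sq_nonneg _

end Pool.Agent.P.MP_07ee5e_gt
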