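import Pool.Agent.P.MP_07ee5e_gt.Defs

/-! The Steklov eigenvalues by the min-max principle. -/

set_option autoImplicit false

open scoped Manifold ContDiff ENNReal
open MeasureTheory

noncomputable section

namespace Pool.Agent.P.MP_07ee5e_gt

variable {d : ℕ} {M : Type*} [TopologicalSpace M]
  [ChartedSpace (EuclideanHalfSpace (d + 1)) M]
  [IsManifold (modelWithCornersEuclideanHalfSpace (d + 1)) ∞ M] [MeasurableSpace M]

/-- The Steklov eigenvalue `σ_k` (`0 = σ₀ ≤ σ₁ ≤ …`, with multiplicity), by the min-max principle: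
the infimum, over `(k + 1)`-dimensional spaces `E` of smooth functions none of whose nonzero
members vanishes on the boundary, of the supremum of `∫_M |∇u|² dV / ∫_Σ u² dA` over nonzero
`u ∈ E`. -/
def steklov (k : ℕ) (g : RMetric d M) : ℝ≥0∞ :=
  ⨅ (E : Submodule ℝ (M → ℝ)) (_ : Module.finrank ℝ E = k + 1)
    (_ : ∀ u ∈ E, ContMDiff (modelWithCornersEuclideanHalfSpace (d + 1))
      (modelWithCornersSelf ℝ ℝ) ∞ u)
    (_ : ∀ u ∈ E, u ≠ 0 → ∫ x, u x ^ 2 ∂area g ≠ 0),
    ⨆ (u : M → ℝ) (_ : u ∈ E) (_ : u ≠ 0),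
      (∫⁻ x, gradSq g u x ∂vol g) / ENNReal.ofReal (∫ x, u x ^ 2 ∂area g)

end Pool.Agent.P.MP_07ee5e_gt
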