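import Pool.Agent.P.MP_07ee5e_gt.KLocal

/-! The deforming vector field with arbitrarily thin slabs. -/

set_option autoImplicit false

open scoped Manifold ContDiff ENNReal Topology
open MeasureTheory Set Bundle Metric Filter

noncomputable section

namespace Pool.Agent.P.MP_07ee5e_gt

variable {d : ℕ} {M : Type*} [TopologicalSpace M]
  [ChartedSpace (EuclideanHalfSpace (d + 1)) M] [IsManifold (𝓡∂ (d + 1)) ∞ M]
  [T2Space M] [MeasurableSpace M] [BorelSpace M] [CompactSpace M]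

theorem exists_field_thin (hd : 2 ≤ d) (g : RMetric d M) (F : Finset (Box d M × Fin d)) :
    ∃ A : ℝ≥0∞, A ≠ ⊤ ∧ ∀ T : ℝ, 0 < T → ∀ θ : ℝ, 0 < θ → θ ≤ T →
      ∀ K₀ : Set M, IsClosed K₀ → Disjoint K₀ ((𝓡∂ (d + 1)).boundary M) →
      ∃ (X : ∀ x : M, TangentSpace (𝓡∂ (d + 1)) x) (K : Set M), IsField X ∧ IsClosed K ∧
        Disjoint K ((𝓡∂ (d + 1)).boundary M) ∧ (∀ x, x ∉ K → X x = 0) ∧
        K₀ ⊆ K ∧ (∀ x ∈ K₀, X x = 0) ∧
        (∀ k ∈ F, ∃ δ b : ℝ, 0 < δ ∧ 2 * δ ≤ k.1.h ∧ δ ≤ θ ∧ 0 ≤ b ∧ T ≤ b ^ d * δ ∧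
          ∀ y ∈ slab k.1.c (3 * k.1.ρ) δ (2 * δ), (ch d k.1.p).symm y ∈ K ∧
            X ((ch d k.1.p).symm y) =
              b • fr d k.1.p ((ch d k.1.p).symm y) (EuclideanSpace.single k.2.succ 1)) ∧
        ∫⁻ x, rho g X x ∂vol g ≤ vol g univ + A * ENNReal.ofReal T := by
  classical
  have := isFiniteMeasure_vol g
  induction F using Finset.induction_on with
  | empty =>
    refine ⟨0, ENNReal.zero_ne_top, fun T hT θ _ _ K₀ h1 h2 => ⟨0, K₀,
      contMDiff_zeroSection ℝ (TangentSpace (𝓡∂ (d + 1)) : M → Type _), h1,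
      h2, fun _ _ => rfl, subset_rfl, fun _ _ => rfl, by simp, ?_⟩⟩
    have : ∀ x, rho g 0 x = 1 := by simp [rho]
    simp only [this, lintegral_const, one_mul]
    exact le_self_add
  | insert k F hk ih =>
    obtain ⟨B, i⟩ := k
    obtain ⟨A, hA, ih⟩ := ih
    obtain ⟨C, hC⟩ := (eventually_isBound g B).exists
    refine ⟨A + ENNReal.ofReal (√((1 + C) ^ d) * C * 3) * volume (closedBall B.c (4 * B.ρ)),
      ENNReal.add_ne_top.2 ⟨hA, ENNReal.mul_ne_top ENNReal.ofReal_ne_top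
        measure_closedBall_lt_top.ne⟩, fun T hT θ hθ hθ1 K₀ hK₀ hK₀b => ?_⟩
    obtain ⟨X, K, hX, hK, hKb, hX0, hK₀K, hXK₀, hXF, hvol⟩ := ih T hT θ hθ hθ1 K₀ hK₀ hK₀b
    obtain ⟨η, hη, hthin⟩ := exists_thin B hK hKb
    have hT0 : 0 < T := hT
    have hh := B.h_pos
    have hρ := B.ρ_pos
    have hC1 := hC.one_le
    obtain ⟨δ, hδ, hδh, hδT, hδη⟩ : ∃ δ : ℝ, 0 < δ ∧ 3 * δ ≤ B.h ∧ δ ≤ θ ∧ 3 * δ < η := by
      refine ⟨min (min (B.h / 3) θ) (η / 4), by positivity, ?_, ?_, ?_⟩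
      · linarith [(min_le_left (min (B.h / 3) θ) (η / 4)).trans (min_le_left _ _)]
      · exact (min_le_left _ _).trans (min_le_right _ _)
      · linarith [min_le_right (min (B.h / 3) θ) (η / 4)]
    obtain ⟨b, hb1, hbd⟩ : ∃ b : ℝ, 1 ≤ b ∧ b ^ d * δ = T := by
      refine ⟨(T / δ) ^ ((d : ℝ)⁻¹), Real.one_le_rpow ?_ (by positivity), ?_⟩
      · rw [le_div_iff₀ hδ, one_mul]
        exact hδT.trans hθ1
      · rw [Real.rpow_inv_natCast_pow (by positivity) (by omega)]
        field_simp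
    set S₁ := (ch d B.p).symm '' slab B.c (3 * B.ρ) δ (2 * δ) with hS₁
    set K₁ := (ch d B.p).symm '' slab B.c (4 * B.ρ) (δ / 2) (3 * δ) with hK₁
    set O := (ch d B.p).source ∩ (ch d B.p) ⁻¹'
      {y | y 0 ∈ Ioo (δ / 2) (3 * δ) ∧ projL d y ∈ ball B.c (4 * B.ρ)} with hO
    have hs1 : slab B.c (3 * B.ρ) δ (2 * δ) ⊆ B.Q := slab_mono _ (by linarith) hδ.le (by linarith)
    have hs2 : slab B.c (4 * B.ρ) (δ / 2) (3 * δ) ⊆ B.Q := slab_mono _ le_rfl (by linarith) hδh
    have hS₁c : IsClosed S₁ := ((isCompact_slab _ _ _ _).image_of_continuousOn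
      ((continuousOn_extChartAt_symm B.p).mono (hs1.trans B.sub))).isClosed
    have hK₁c : IsClosed K₁ := ((isCompact_slab _ _ _ _).image_of_continuousOn
      ((continuousOn_extChartAt_symm B.p).mono (hs2.trans B.sub))).isClosed
    have hOo : IsOpen O := by
      refine (continuousOn_extChartAt B.p).isOpen_inter_preimage (isOpen_extChartAt_source B.p) ?_
      exact (isOpen_Ioo.preimage (by fun_prop)).inter (isOpen_ball.preimage (projL d).continuous)
    have hOK : O ⊆ K₁ := fun x hx => ⟨ch d B.p x, ⟨Ioo_subset_Icc_self hx.2.1,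
      ball_subset_closedBall hx.2.2⟩, (ch d B.p).left_inv hx.1⟩
    have hSO : S₁ ⊆ O := by
      rintro _ ⟨y, hy, rfl⟩
      have hy' := B.sub (hs1 hy)
      refine ⟨(ch d B.p).map_target hy', ?_⟩
      rw [mem_preimage, (ch d B.p).right_inv hy']
      exact ⟨⟨by linarith [hy.1.1], by linarith [hy.1.2]⟩,
        closedBall_subset_ball (by linarith) hy.2⟩
    have hK₁s : K₁ ⊆ (ch d B.p).source := by
      rintro _ ⟨y, hy, rfl⟩
      exact (ch d B.p).map_target (B.sub (hs2 hy))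
    have hK₁K : ∀ x ∈ K₁, x ∉ K := by
      rintro _ ⟨y, hy, rfl⟩
      exact hthin y (hs2 hy) (hy.1.2.trans_lt hδη)
    have hK₁b : Disjoint K₁ ((𝓡∂ (d + 1)).boundary M) := by
      rw [disjoint_left]
      rintro _ ⟨y, hy, rfl⟩ hb
      have hy' := B.sub (hs2 hy)
      rw [mem_boundary_iff ((ch d B.p).map_target hy'), (ch d B.p).right_inv hy'] at hb
      linarith [hy.1.1]
    obtain ⟨ψ, hψ0, hψ1, hψ⟩ := exists_contMDiffMap_zero_one_of_isClosed (n := ⊤) (𝓡∂ (d + 1))
      hOo.isClosed_compl hS₁c (disjoint_compl_left_iff_subset.2 hSO)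
    have hψK : ∀ x, x ∉ K₁ → ψ x = 0 := fun x hx => hψ0 fun h => hx (hOK h)
    let Y : ∀ x : M, TangentSpace (𝓡∂ (d + 1)) x :=
      fun x => (b * ψ x) • fr d B.p x (EuclideanSpace.single i.succ 1)
    have hY : IsField Y := by
      refine ContMDiffOn.smul_section_of_tsupport (ψ := fun x => b * ψ x)
        (s := fun x => fr d B.p x (EuclideanSpace.single i.succ 1))
        (contMDiff_const.mul ψ.contMDiff).contMDiffOn (isOpen_extChartAt_source B.p) ?_
        (contMDiffOn_fr B.p _)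
      refine (closure_minimal (fun x hx => ?_) hK₁c).trans hK₁s
      by_contra h
      exact hx (by simp [hψK x h])
    have hY0 : ∀ x, x ∉ K₁ → Y x = 0 := fun x hx => by simp [Y, hψK x hx]
    refine ⟨X + Y, K ∪ K₁, ContMDiff.add_section hX hY, hK.union hK₁c,
      disjoint_union_left.2 ⟨hKb, hK₁b⟩, fun x hx => ?_, hK₀K.trans subset_union_left,
      fun x hx => ?_, fun k hk => ?_, ?_⟩
    · rw [mem_union, not_or] at hx
      rw [Pi.add_apply, hX0 x hx.1, hY0 x hx.2, add_zero]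
    · rw [Pi.add_apply, hXK₀ x hx, hY0 x fun h => hK₁K x h (hK₀K hx), add_zero]
    · rcases Finset.mem_insert.1 hk with rfl | hk
      · refine ⟨δ, b, hδ, by linarith, hδT, by linarith, hbd.ge, fun y hy => ?_⟩
        have h1 : (ch d B.p).symm y ∈ S₁ := ⟨y, hy, rfl⟩
        have h2 := hOK (hSO h1)
        refine ⟨Or.inr h2, ?_⟩
        rw [Pi.add_apply, hX0 _ (hK₁K _ h2), zero_add]
        simp only [Y, hψ1 h1, Pi.one_apply, mul_one]
      · obtain ⟨δ', b', h1, h2, h3, h4, h5, h6⟩ := hXF k hk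
        refine ⟨δ', b', h1, h2, h3, h4, h5, fun y hy => ⟨Or.inl (h6 y hy).1, ?_⟩⟩
        rw [Pi.add_apply, hY0 _ fun h => hK₁K _ h (h6 y hy).1, add_zero, (h6 y hy).2]
    · have hpt : ∀ x, rho g (X + Y) x ≤
          rho g X x + K₁.indicator (fun _ => ENNReal.ofReal (b ^ d * √((1 + C) ^ d))) x := by
        intro x
        by_cases hx : x ∈ K₁
        · rw [indicator_of_mem hx]
          refine le_trans (ENNReal.ofReal_le_ofReal ?_) le_add_self
          rw [Pi.add_apply, hX0 _ (hK₁K _ hx), zero_add]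
          obtain ⟨y, hy, rfl⟩ := hx
          have h1 := hC.diag i.succ y (hs2 hy)
          rw [gram_eq g (B.sub (hs2 hy)), Matrix.of_apply, form_apply] at h1
          have h2 := hψ ((ch d B.p).symm y)
          have h3 := inner_nonneg g _ (Y ((ch d B.p).symm y))
          have h4 : 1 + g.inner _ (Y ((ch d B.p).symm y)) (Y ((ch d B.p).symm y)) ≤
              b ^ 2 * (1 + C) := by
            simp only [Y, map_smul, _root_.smul_apply, smul_eq_mul]
            have h5 : ψ ((ch d B.p).symm y) ^ 2 ≤ 1 := pow_le_one₀ h2.1 h2.2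
            have h6 := mul_le_mul h5 h1.2 (inner_nonneg g _ _) zero_le_one
            have h7 := mul_le_mul_of_nonneg_left h6 (sq_nonneg b)
            nlinarith
          refine (Real.sqrt_le_sqrt (pow_le_pow_left₀ (by linarith) h4 d)).trans (le_of_eq ?_)
          rw [mul_pow, Real.sqrt_mul (by positivity), ← pow_mul, mul_comm 2 d, pow_mul,
            Real.sqrt_sq (by positivity)]
        · rw [indicator_of_notMem hx, add_zero, rho, rho, Pi.add_apply, hY0 x hx, add_zero]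
      refine (lintegral_mono hpt).trans ?_
      rw [lintegral_add_right _ (measurable_const.indicator hK₁c.measurableSet),
        lintegral_indicator hK₁c.measurableSet, setLIntegral_const, add_mul, ← add_assoc]
      refine add_le_add hvol ((mul_le_mul_right
        (vol_slab_le g B hC (by linarith) hδh) _).trans ?_)
      rw [← mul_assoc, ← mul_assoc, ← ENNReal.ofReal_mul (by positivity),
        ← ENNReal.ofReal_mul (by positivity), mul_right_comm _ _ (ENNReal.ofReal T),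
        ← ENNReal.ofReal_mul (by positivity)]
      refine mul_le_mul_left (ENNReal.ofReal_le_ofReal ?_) _
      rw [← hbd]
      have : 0 ≤ b ^ d * √((1 + C) ^ d) * C * δ := by positivity
      nlinarith

end Pool.Agent.P.MP_07ee5e_gt
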