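import Pool.Agent.P.MP_07ee5e_gt.Local

/-! Separated nets in Euclidean balls and a scale-invariant local Poincare inequality. -/

set_option autoImplicit false

open scoped ENNReal Topology Function
open MeasureTheory Set Metric

noncomputable section

namespace Pool.Agent.P.MP_07ee5e_gt

variable {d : ℕ}

lemma vol_ball (c : Euc d) {r : ℝ} (hr : 0 < r) :
    volume (ball c r) = ENNReal.ofReal (r ^ d) * volume (ball (0 : Euc d) 1) := by
  rw [Measure.addHaar_ball_of_pos _ _ hr, finrank_euclideanSpace_fin]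

lemma card_le_of_sep (s : Finset (Euc d)) (z : Euc d) {R r : ℝ} (hr : 0 < r) (hR : 0 ≤ R)
    (hs : ∀ x ∈ s, dist x z ≤ R) (h : ∀ x ∈ s, ∀ y ∈ s, x ≠ y → r ≤ dist x y) :
    (s.card : ℝ) ≤ (2 * R / r + 1) ^ d := by
  have D : Set.Pairwise (s : Set (Euc d)) (Disjoint on fun c => ball c (r / 2)) :=
    fun x hx y hy hxy => ball_disjoint_ball (by linarith [h x hx y hy hxy])
  have hsub : ⋃ c ∈ s, ball c (r / 2) ⊆ ball z (R + r / 2) :=
    iUnion₂_subset fun x hx => ball_subset_ball' (by linarith [hs x hx])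
  have I := measure_mono (μ := volume) hsub
  rw [measure_biUnion_finset D fun c _ => measurableSet_ball] at I
  simp only [vol_ball _ (half_pos hr), Finset.sum_const, nsmul_eq_mul] at I
  rw [vol_ball z (by linarith), ← mul_assoc] at I
  have J := (ENNReal.mul_le_mul_iff_left (measure_ball_pos _ _ zero_lt_one).ne'
    measure_ball_lt_top.ne).1 I
  have K := ENNReal.toReal_le_of_le_ofReal (by positivity) J
  rw [ENNReal.toReal_mul, ENNReal.toReal_natCast, ENNReal.toReal_ofReal (by positivity)] at K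
  have h2 : (2 * R / r + 1) ^ d * (r / 2) ^ d = (R + r / 2) ^ d := by
    rw [← mul_pow]; congr 1; field_simp
  exact le_of_mul_le_mul_right (h2 ▸ K) (by positivity)

lemma exists_net (c : Euc d) {ρ r : ℝ} (hρ : 0 < ρ) (hr : 0 < r) :
    ∃ s : Finset (Euc d), (∀ x ∈ s, x ∈ ball c ρ) ∧
      (∀ x ∈ s, ∀ y ∈ s, x ≠ y → r ≤ dist x y) ∧ ∀ z ∈ ball c ρ, ∃ x ∈ s, z ∈ ball x r := by
  classical
  let P : ℕ → Prop := fun n => ∃ s : Finset (Euc d), s.card = n ∧ (∀ x ∈ s, x ∈ ball c ρ) ∧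
    ∀ x ∈ s, ∀ y ∈ s, x ≠ y → r ≤ dist x y
  have hb : ∀ n, P n → n ≤ ⌈(2 * ρ / r + 1) ^ d⌉₊ := by
    rintro n ⟨s, rfl, h1, h2⟩
    have := (card_le_of_sep s c hr hρ.le (fun x hx => (h1 x hx).le) h2).trans (Nat.le_ceil _)
    exact_mod_cast this
  obtain ⟨s, hs, h1, h2⟩ : P (Nat.findGreatest P ⌈(2 * ρ / r + 1) ^ d⌉₊) :=
    Nat.findGreatest_spec (m := 0) (Nat.zero_le _) ⟨∅, by simp⟩
  refine ⟨s, h1, h2, fun z hz => ?_⟩
  by_contra hcon
  push Not at hcon
  have hzs : z ∉ s := fun h => hcon z h (mem_ball_self hr)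
  have h3 : P (s.card + 1) := by
    refine ⟨insert z s, Finset.card_insert_of_notMem hzs, ?_, ?_⟩
    · intro x hx
      rcases Finset.mem_insert.1 hx with rfl | hx
      exacts [hz, h1 x hx]
    · intro x hx y hy hxy
      rcases Finset.mem_insert.1 hx with hx' | hx' <;> rcases Finset.mem_insert.1 hy with hy' | hy'
      · exact absurd (hx'.trans hy'.symm) hxy
      · rw [hx']; exact not_lt.1 (hcon y hy')
      · rw [hy', dist_comm]; exact not_lt.1 (hcon x hx')
      · exact h2 x hx' y hy' hxy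
  have := Nat.le_findGreatest (hb _ h3) h3
  omega

lemma le_card_of_cover (s : Finset (Euc d)) (c : Euc d) {ρ r : ℝ} (hρ : 0 < ρ) (hr : 0 < r)
    (h : ∀ z ∈ ball c ρ, ∃ x ∈ s, z ∈ ball x r) : (ρ / r) ^ d ≤ s.card := by
  have hsub : ball c ρ ⊆ ⋃ x ∈ s, ball x r := fun z hz => by
    obtain ⟨x, hx, hzx⟩ := h z hz
    exact mem_biUnion hx hzx
  have I := (measure_mono (μ := volume) hsub).trans (measure_biUnion_finset_le _ _)
  simp only [vol_ball _ hr, Finset.sum_const, nsmul_eq_mul] at I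
  rw [vol_ball c hρ, ← mul_assoc] at I
  have J := (ENNReal.mul_le_mul_iff_left (measure_ball_pos _ _ zero_lt_one).ne'
    measure_ball_lt_top.ne).1 I
  have K := ENNReal.toReal_mono
    (ENNReal.mul_ne_top (ENNReal.natCast_ne_top _) ENNReal.ofReal_ne_top) J
  rw [ENNReal.toReal_mul, ENNReal.toReal_natCast, ENNReal.toReal_ofReal (by positivity),
    ENNReal.toReal_ofReal (by positivity)] at K
  rw [div_pow, div_le_iff₀ (by positivity)]
  exact K

lemma sum_lintegral_le {α ι : Type*} [MeasurableSpace α] (μ : Measure α) (s : Finset ι)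
    (f : ι → α → ℝ≥0∞) : ∑ i ∈ s, ∫⁻ a, f i a ∂μ ≤ ∫⁻ a, ∑ i ∈ s, f i a ∂μ := by
  classical
  induction s using Finset.induction_on with
  | empty => simp
  | insert i s hi ih =>
    simp only [Finset.sum_insert hi]
    exact (add_le_add le_rfl ih).trans (le_lintegral_add _ _)

theorem local_poincare_scaled (c : Euc d) {ρ : ℝ} (δ : Fin d → ℝ) (hδ : ∀ i, 0 < δ i)
    (W : ℝ → Euc d → ℝ) (A : ℝ × Euc d → ℝ≥0∞) (B : Fin d → ℝ × Euc d → ℝ≥0∞)
    (hAm : Measurable A) (hBm : ∀ i, Measurable (B i))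
    (h0 : ∀ i, ∀ z ∈ ball c (3 * ρ), ∀ t ∈ Icc (δ i) (2 * δ i),
      ENNReal.ofReal ((W t z - W 0 z) ^ 2) ≤ ENNReal.ofReal (2 * δ i) * ∫⁻ s, A (s, z))
    (h1 : ∀ i, ∀ t ∈ Icc (δ i) (2 * δ i), ∀ z τ, z ∈ ball c (3 * ρ) →
      z + τ • EuclideanSpace.single i (1 : ℝ) ∈ ball c (3 * ρ) →
      ENNReal.ofReal ((W t (z + τ • EuclideanSpace.single i (1 : ℝ)) - W t z) ^ 2) ≤
        ENNReal.ofReal (τ ^ 2) *
          ∫⁻ s in Icc (0 : ℝ) 1, B i (t, z + (s * τ) • EuclideanSpace.single i (1 : ℝ)))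
    (E : ℝ≥0∞) (hA : ∀ i, ENNReal.ofReal (δ i) * ∫⁻ q, A q ≤ ENNReal.ofReal (ρ ^ 2) * E)
    (hB : ∀ i, ∫⁻ q in Icc (δ i) (2 * δ i) ×ˢ univ, B i q ≤ ENNReal.ofReal (δ i) * E) :
    ∫⁻ x in ball c ρ, ∫⁻ y in ball c ρ, ENNReal.ofReal ((W 0 x - W 0 y) ^ 2) ≤
      volume (ball (0 : Euc d) (2 * ρ)) * (d * d) * (24 * (ENNReal.ofReal (ρ ^ 2) * E)) := by
  let α : Euc d → ℝ≥0∞ := fun z => ∫⁻ s, A (s, z)
  have hα : Measurable α := hAm.lintegral_prod_left'
  let γ : Fin d → Euc d → ℝ≥0∞ := fun i z => ∫⁻ t in Icc (δ i) (2 * δ i), B i (t, z)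
  have hγ : ∀ i, Measurable (γ i) := fun i => (hBm i).lintegral_prod_left'
  let e : Fin d → Euc d := fun i => EuclideanSpace.single i (1 : ℝ)
  let β : Fin d → Euc d × ℝ → ℝ≥0∞ := fun i q =>
    ∫⁻ s in Icc (0 : ℝ) 1, γ i (q.1 + (s * q.2) • e i)
  have hβ' : ∀ i, Measurable fun r : (Euc d × ℝ) × ℝ => γ i (r.1.1 + (r.2 * r.1.2) • e i) :=
    fun i => (hγ i).comp (by fun_prop)
  have hβ : ∀ i, Measurable (β i) := fun i => (hβ' i).lintegral_prod_right'
  let G : Fin d → Euc d × ℝ → ℝ≥0∞ := fun i q =>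
    3 * (ENNReal.ofReal (2 * δ i) * α (q.1 + q.2 • e i) +
      (ENNReal.ofReal (δ i))⁻¹ * (ENNReal.ofReal (q.2 ^ 2) * β i q) +
      ENNReal.ofReal (2 * δ i) * α q.1)
  have hδ0 : ∀ i, ENNReal.ofReal (δ i) ≠ 0 := fun i => by simpa using hδ i
  refine ball_poincare c (W 0) G (fun i => ?_) _ (fun i τ hτ => ?_) (fun i z τ hz hz' => ?_)
  · refine Measurable.const_mul (((hα.comp (by fun_prop)).const_mul _).add
      ((Measurable.mul (by fun_prop) (hβ i)).const_mul _) |>.add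
        ((hα.comp measurable_fst).const_mul _)) _
  · have m1 : Measurable fun z : Euc d => α (z + τ • e i) := hα.comp (by fun_prop)
    have m2 : Measurable fun z : Euc d => β i (z, τ) := (hβ i).comp (by fun_prop)
    have iα : ∫⁻ z, α z = ∫⁻ q, A q := by
      rw [Measure.volume_eq_prod, lintegral_prod_symm _ hAm.aemeasurable]
    have iγ : ∫⁻ z, γ i z = ∫⁻ q in Icc (δ i) (2 * δ i) ×ˢ univ, B i q := by
      rw [Measure.volume_eq_prod, ← Measure.prod_restrict, Measure.restrict_univ,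
        lintegral_prod_symm _ (hBm i).aemeasurable]
    have iβ : ∫⁻ z, β i (z, τ) = ∫⁻ z, γ i z := by
      have hm : Measurable fun r : Euc d × ℝ => γ i (r.1 + (r.2 * τ) • e i) :=
        (hγ i).comp (by fun_prop)
      simp only [β]
      rw [lintegral_lintegral_swap (f := fun z s => γ i (z + (s * τ) • e i)) hm.aemeasurable]
      simp only [lintegral_add_right_eq_self (γ i)]
      simp
    have e1 : ENNReal.ofReal (2 * δ i) * ∫⁻ q, A q ≤ 2 * (ENNReal.ofReal (ρ ^ 2) * E) := by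
      rw [ENNReal.ofReal_mul zero_le_two, ENNReal.ofReal_ofNat, mul_assoc]
      exact mul_le_mul_right (hA i) _
    have e2 : (ENNReal.ofReal (δ i))⁻¹ * (ENNReal.ofReal (τ ^ 2) *
        ∫⁻ q in Icc (δ i) (2 * δ i) ×ˢ univ, B i q) ≤ ENNReal.ofReal (4 * ρ ^ 2) * E := by
      calc _ ≤ (ENNReal.ofReal (δ i))⁻¹ * (ENNReal.ofReal (4 * ρ ^ 2) *
            (ENNReal.ofReal (δ i) * E)) := by
            refine mul_le_mul_right (mul_le_mul' (ENNReal.ofReal_le_ofReal ?_) (hB i)) _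
            rw [← sq_abs τ]
            nlinarith [abs_nonneg τ]
        _ = ((ENNReal.ofReal (δ i))⁻¹ * ENNReal.ofReal (δ i)) *
            (ENNReal.ofReal (4 * ρ ^ 2) * E) := by ring
        _ = _ := by rw [ENNReal.inv_mul_cancel (hδ0 i) ENNReal.ofReal_ne_top, one_mul]
    simp only [G]
    rw [lintegral_const_mul' _ _ (by norm_num : (3 : ℝ≥0∞) ≠ ⊤),
      lintegral_add_right _ (hα.const_mul _),
      lintegral_add_left (m1.const_mul _), lintegral_const_mul _ m1,
      lintegral_const_mul _ (m2.const_mul _), lintegral_const_mul _ m2, lintegral_const_mul _ hα,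
      lintegral_add_right_eq_self α, iα, iβ, iγ]
    calc _ ≤ 3 * (2 * (ENNReal.ofReal (ρ ^ 2) * E) + ENNReal.ofReal (4 * ρ ^ 2) * E +
          2 * (ENNReal.ofReal (ρ ^ 2) * E)) := by gcongr
      _ = _ := by
        rw [ENNReal.ofReal_mul (p := 4) (by norm_num), ENNReal.ofReal_ofNat]
        ring
  · -- average the three-step estimate over the slab
    have hpt : ∀ t ∈ Icc (δ i) (2 * δ i),
        ENNReal.ofReal ((W 0 (z + τ • e i) - W 0 z) ^ 2) ≤
          3 * (ENNReal.ofReal (2 * δ i) * α (z + τ • e i) +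
            ENNReal.ofReal (τ ^ 2) * (∫⁻ s in Icc (0 : ℝ) 1, B i (t, z + (s * τ) • e i)) +
            ENNReal.ofReal (2 * δ i) * α z) := by
      intro t ht
      have := ofReal_three (-(W t (z + τ • e i) - W 0 (z + τ • e i)))
        (W t (z + τ • e i) - W t z) (W t z - W 0 z)
      rw [neg_sq, show -(W t (z + τ • e i) - W 0 (z + τ • e i)) + (W t (z + τ • e i) - W t z) +
        (W t z - W 0 z) = W 0 (z + τ • e i) - W 0 z by ring] at this
      refine this.trans (mul_le_mul_right (add_le_add (add_le_add ?_ ?_) ?_) _)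
      · exact h0 i _ hz' t ht
      · exact h1 i t ht z τ hz hz'
      · exact h0 i _ hz t ht
    have hvol : volume (Icc (δ i) (2 * δ i)) = ENNReal.ofReal (δ i) := by
      rw [Real.volume_Icc]; congr 1; ring
    have hm : Measurable fun r : ℝ × ℝ => B i (r.1, z + (r.2 * τ) • e i) :=
      (hBm i).comp (by fun_prop)
    have hm' : Measurable fun t : ℝ => ∫⁻ s in Icc (0 : ℝ) 1, B i (t, z + (s * τ) • e i) :=
      hm.lintegral_prod_right'
    have hint := setLIntegral_mono' (μ := volume) measurableSet_Icc hpt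
    rw [setLIntegral_const, hvol, lintegral_const_mul' _ _ (by norm_num : (3 : ℝ≥0∞) ≠ ⊤),
      lintegral_add_right _ measurable_const, lintegral_add_left measurable_const,
      lintegral_const_mul _ hm', setLIntegral_const, setLIntegral_const, hvol,
      lintegral_lintegral_swap (f := fun t s => B i (t, z + (s * τ) • e i))
        hm.aemeasurable] at hint
    have hfin : ENNReal.ofReal (δ i) * G i (z, τ) =
        3 * (ENNReal.ofReal (2 * δ i) * α (z + τ • e i) * ENNReal.ofReal (δ i) +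
          ENNReal.ofReal (τ ^ 2) * β i (z, τ) +
          ENNReal.ofReal (2 * δ i) * α z * ENNReal.ofReal (δ i)) := by
      simp only [G]
      have := ENNReal.mul_inv_cancel (hδ0 i) (ENNReal.ofReal_ne_top (r := δ i))
      calc _ = 3 * (ENNReal.ofReal (2 * δ i) * α (z + τ • e i) * ENNReal.ofReal (δ i) +
          (ENNReal.ofReal (δ i) * (ENNReal.ofReal (δ i))⁻¹) *
            (ENNReal.ofReal (τ ^ 2) * β i (z, τ)) +
          ENNReal.ofReal (2 * δ i) * α z * ENNReal.ofReal (δ i)) := by ring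
        _ = _ := by rw [this, one_mul]
    refine (ENNReal.mul_le_mul_iff_right (hδ0 i) ENNReal.ofReal_ne_top).1 ?_
    rw [hfin, mul_comm]
    exact hint

end Pool.Agent.P.MP_07ee5e_gt
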