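import Pool.Agent.P.MP_07ee5e_gt.Sharp2
import Pool.Agent.P.MP_07ee5e_gt.KNet

/-! The local estimate at a small scale, with the energy over the box only. -/

set_option autoImplicit false

open scoped Manifold ContDiff ENNReal Topology
open MeasureTheory Set Bundle Metric Filter

noncomputable section

namespace Pool.Agent.P.MP_07ee5e_gt

variable {d : ℕ} {M : Type*} [TopologicalSpace M]
  [ChartedSpace (EuclideanHalfSpace (d + 1)) M] [IsManifold (𝓡∂ (d + 1)) ∞ M] {u : M → ℝ}
  [T2Space M] [MeasurableSpace M] [BorelSpace M]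

/-- The Dirichlet energy over a set. -/
def energyOn (g : RMetric d M) (u : M → ℝ) (S : Set M) : ℝ≥0∞ :=
  ∫⁻ x in S, gradSq g u x ∂vol g

lemma measurableSet_box (g : RMetric d M) (B : Box d M) :
    MeasurableSet ((ch d B.p).symm '' B.Q) :=
  (isParam_vol g B.p).measurableSet_image (isCompact_slab _ _ _ _).measurableSet B.sub

lemma dens_le_energyOn (g : RMetric d M) (u : M → ℝ) (B : Box d M) {K : Set (Euc (d + 1))}
    (hK : MeasurableSet K) (hKQ : K ⊆ B.Q) (i : Fin (d + 1)) {κ : ℝ}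
    (hκ : ∀ y ∈ K, gram g B.p y i i ≤ κ * √(gram g B.p y).det) :
    ∫⁻ y, dens u B.p K (EuclideanSpace.single i 1) y ≤
      ENNReal.ofReal κ * energyOn g u ((ch d B.p).symm '' B.Q) := by
  have hKt := hKQ.trans B.sub
  have h1 : ∫⁻ x in (ch d B.p).symm '' B.Q, gradSq g u x ∂chartVol g B.p ≤
      energyOn g u ((ch d B.p).symm '' B.Q) :=
    lintegral_mono' (Measure.restrict_mono subset_rfl (chartVol_le g B.p)) le_rfl
  refine le_trans ?_ (mul_le_mul_right h1 _)
  rw [chartVol, (isParam_vol g B.p).setLIntegral (measurableSet_box g B), dens,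
    lintegral_indicator hK, ← lintegral_const_mul' _ _ ENNReal.ofReal_ne_top]
  refine le_trans (setLIntegral_mono' hK fun y hy => ?_)
    (lintegral_mono_set fun y hy => ⟨hKt hy, y, hKQ hy, rfl⟩)
  generalize B.p = p at *
  refine le_trans ?_ (mul_le_mul_right (mul_le_mul_right
    (le_gradSq g u p _ (EuclideanSpace.single i 1)) _) _)
  have h2 : form g p ((ch d p).symm y) (EuclideanSpace.single i 1) (EuclideanSpace.single i 1) =
      gram g p y i i := by rw [gram_eq g (hKt hy), Matrix.of_apply]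
  have h3 : 0 < gram g p y i i := (posDef_gram g (hKt hy)).diag_pos
  have h4 := hκ y hy
  have h5 : 0 ≤ κ := by
    by_contra h
    nlinarith [Real.sqrt_nonneg (gram g p y).det]
  rw [h2, ← ENNReal.ofReal_mul (Real.sqrt_nonneg _), ← ENNReal.ofReal_mul h5]
  refine ENNReal.ofReal_le_ofReal ?_
  rw [← mul_assoc, mul_div_assoc', le_div_iff₀ h3, mul_comm]
  exact mul_le_mul_of_nonneg_right h4 (sq_nonneg _)

/-- The vector field is a large multiple of each tangential coordinate field on a thin slab. -/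
def GoodAt (B : Box d M) (T η : ℝ) (X : ∀ x : M, TangentSpace (𝓡∂ (d + 1)) x) (i : Fin d) : Prop :=
  ∃ δ b : ℝ, 0 < δ ∧ 2 * δ ≤ B.h ∧ δ ≤ η ∧ 0 ≤ b ∧ T ≤ b ^ d * δ ∧
    ∀ y ∈ slab B.c (3 * B.ρ) δ (2 * δ),
      X ((ch d B.p).symm y) = b • fr d B.p ((ch d B.p).symm y) (EuclideanSpace.single i.succ 1)

theorem local_estimate_scaled (hd : 2 ≤ d) (g : RMetric d M) (B : Box d M) {C : ℝ} (hC : IsBound g B C)
    {T : ℝ} (hT : 0 < T) {X : ∀ x : M, TangentSpace (𝓡∂ (d + 1)) x} (hX : IsField X)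
    (hG : ∀ i, GoodAt B T (B.ρ ^ 2 * T⁻¹) X i) (hu : ContMDiff (𝓡∂ (d + 1)) 𝓘(ℝ, ℝ) ∞ u) :
    osc (area g) u B.U B.U ≤ ENNReal.ofReal C * (ENNReal.ofReal C *
      (volume (ball (0 : Euc d) (2 * B.ρ)) * (d * d) * (24 * (ENNReal.ofReal (B.ρ ^ 2) *
      (ENNReal.ofReal (C ^ (d + 2)) * (ENNReal.ofReal T⁻¹ *
        energyOn (deform g X hX) u ((ch d B.p).symm '' B.Q))))))) := by
  choose δ b hδ hδh hδT hb hbT hXb using hG
  have hρ := B.ρ_pos
  have hC1 := hC.one_le
  have hC0 : 0 < C := by linarith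
  have hQm : MeasurableSet B.Q := (isCompact_slab _ _ _ _).measurableSet
  have hsl : ∀ i, slab B.c (3 * B.ρ) (δ i) (2 * δ i) ⊆ B.Q :=
    fun i => slab_mono _ (by linarith) (hδ i).le (hδh i)
  have hslm : ∀ i, MeasurableSet (slab B.c (3 * B.ρ) (δ i) (2 * δ i)) :=
    fun i => (isCompact_slab _ _ _ _).measurableSet
  have mA := measurable_dens hu hQm B.sub (EuclideanSpace.single 0 1)
  have mB := fun i : Fin d => measurable_dens hu (hslm i) ((hsl i).trans B.sub)
    (EuclideanSpace.single i.succ 1)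
  refine (osc_le_chart g B hC u).trans ?_
  refine mul_le_mul_right (mul_le_mul_right ?_ _) _
  refine local_poincare_scaled B.c δ hδ (fun t z => u ((ch d B.p).symm (kap (t, z))))
    (fun q => dens u B.p B.Q (EuclideanSpace.single 0 1) (kap q))
    (fun i q => dens u B.p (slab B.c (3 * B.ρ) (δ i) (2 * δ i))
      (EuclideanSpace.single i.succ 1) (kap q))
    (mA.comp continuous_kap.measurable) (fun i => (mB i).comp continuous_kap.measurable)
    (fun i z hz t ht => ?_) (fun i t ht z τ hz hz' => ?_) _ (fun i => ?_) (fun i => ?_)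
  · have ht0 : 0 < t := (hδ i).trans_le ht.1
    have hk : ∀ s : ℝ, kap (0, z) + s • EuclideanSpace.single 0 1 = kap (s, z) := by
      intro s; simp [kap]
    have hmem : ∀ s ∈ Icc (0 : ℝ) 1, kap (s * t, z) ∈ B.Q := by
      intro s hs
      refine ⟨?_, ?_⟩
      · rw [kap_zero]
        exact ⟨mul_nonneg hs.1 ht0.le, by nlinarith [hs.2, ht.2, hδh i]⟩
      · rw [projL_kap]
        exact closedBall_subset_closedBall (by linarith) (ball_subset_closedBall hz)
    have h1 := segment_chart hu (p := B.p) (kap (0, z)) (EuclideanSpace.single 0 1) t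
      fun s hs => by rw [hk]; exact B.sub (hmem s hs)
    simp only [hk] at h1
    refine h1.trans ?_
    have hm : Measurable fun s : ℝ => dens u B.p B.Q (EuclideanSpace.single 0 1) (kap (s, z)) :=
      mA.comp (continuous_kap.measurable.comp measurable_prodMk_right)
    have h2 : ∫⁻ s in Icc (0 : ℝ) 1, ENNReal.ofReal
        (Dc (d := d) u B.p ((ch d B.p).symm (kap (s * t, z))) (EuclideanSpace.single 0 1) ^ 2) ≤
        ENNReal.ofReal t⁻¹ * ∫⁻ s, dens u B.p B.Q (EuclideanSpace.single 0 1) (kap (s, z)) := by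
      calc _ = ∫⁻ s in Icc (0 : ℝ) 1,
            dens (d := d) u B.p B.Q (EuclideanSpace.single 0 1) (kap (s * t, z)) := by
            refine setLIntegral_congr_fun measurableSet_Icc fun s hs => ?_
            simp only [dens, indicator_of_mem (hmem s hs)]
        _ ≤ ∫⁻ s : ℝ, dens (d := d) u B.p B.Q (EuclideanSpace.single 0 1) (kap (s * t, z)) :=
            setLIntegral_le_lintegral _ _
        _ = _ := by
            rw [← lintegral_map hm (measurable_mul_const t), Real.map_volume_mul_right ht0.ne', lintegral_smul_measure,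
              abs_of_pos (inv_pos.2 ht0), smul_eq_mul]
    refine (mul_le_mul_right h2 _).trans ?_
    rw [← mul_assoc, ← ENNReal.ofReal_mul (sq_nonneg _)]
    refine mul_le_mul_left (ENNReal.ofReal_le_ofReal ?_) _
    rw [sq, mul_assoc, mul_inv_cancel₀ ht0.ne', mul_one]
    exact ht.2
  · have hk : ∀ s : ℝ, kap (t, z) + s • EuclideanSpace.single i.succ 1 =
        kap (t, z + s • EuclideanSpace.single i (1 : ℝ)) := by
      intro s
      simp only [kap, ← bdryL_apply, map_add, map_smul]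
      rw [bdryL_apply (EuclideanSpace.single i (1 : ℝ)), bdryPt_single]
      abel
    have hmem : ∀ s ∈ Icc (0 : ℝ) 1, kap (t, z + (s * τ) • EuclideanSpace.single i (1 : ℝ)) ∈
        slab B.c (3 * B.ρ) (δ i) (2 * δ i) := by
      intro s hs
      refine ⟨by rw [kap_zero]; exact ht, ?_⟩
      rw [projL_kap]
      refine ball_subset_closedBall ?_
      have := (convex_ball B.c (3 * B.ρ)).add_smul_mem hz hz' hs
      rwa [smul_smul] at this
    have h1 := segment_chart hu (p := B.p) (kap (t, z)) (EuclideanSpace.single i.succ 1) τ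
      fun s hs => by rw [hk]; exact B.sub (hsl i (hmem s hs))
    simp only [hk] at h1
    refine h1.trans (mul_le_mul_right (le_of_eq ?_) _)
    refine setLIntegral_congr_fun measurableSet_Icc fun s hs => ?_
    simp only [dens, indicator_of_mem (hmem s hs)]
  · rw [measurePreserving_kap.lintegral_comp mA]
    have h1 := dens_le_energyOn (deform g X hX) u B hQm subset_rfl 0 (κ := C ^ 2) fun y hy => by
      have hy' := B.sub hy
      set s := 1 + g.inner _ (X ((ch d B.p).symm y)) (X ((ch d B.p).symm y)) with hs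
      have hs1 : 1 ≤ s := by linarith [inner_nonneg g _ (X ((ch d B.p).symm y))]
      have h2 : gram (deform g X hX) B.p y 0 0 ≤ s * gram g B.p y 0 0 := by
        rw [gram_eq _ hy', gram_eq _ hy']
        exact defInner_le g X _ _
      have h3 : s ≤ √(s ^ d) := Real.le_sqrt_of_sq_le (pow_le_pow_right₀ hs1 hd)
      rw [det_gram_deform g hX hy', ← hs, Real.sqrt_mul (by positivity)]
      calc _ ≤ s * C := h2.trans (mul_le_mul_of_nonneg_left (hC.diag 0 y hy).2 (by linarith))
        _ = C ^ 2 * (s * C⁻¹) := by field_simp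
        _ ≤ _ := by gcongr; exact (hC.det y hy).1
    refine (mul_le_mul_right h1 _).trans ?_
    rw [← mul_assoc, ← mul_assoc, ← mul_assoc, ← ENNReal.ofReal_mul (hδ i).le,
      ← ENNReal.ofReal_mul (by positivity), ← ENNReal.ofReal_mul (by positivity)]
    refine mul_le_mul_left (ENNReal.ofReal_le_ofReal ?_) _
    calc _ ≤ B.ρ ^ 2 * T⁻¹ * C ^ (d + 2) :=
          mul_le_mul (hδT i) (pow_le_pow_right₀ hC1 (by omega)) (by positivity) (by positivity)
      _ = _ := by ring
  · refine (setLIntegral_le_lintegral _ _).trans ?_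
    rw [measurePreserving_kap.lintegral_comp (mB i)]
    have h1 := dens_le_energyOn (deform g X hX) u B (hslm i) (hsl i) i.succ
      (κ := δ i * (C ^ (d + 2) * T⁻¹)) fun y hy => by
      have hyQ := hsl i hy
      have hy' := B.sub hyQ
      set s := 1 + g.inner _ (X ((ch d B.p).symm y)) (X ((ch d B.p).symm y)) with hs
      have h2 : gram (deform g X hX) B.p y i.succ i.succ = gram g B.p y i.succ i.succ := by
        rw [gram_eq _ hy', gram_eq _ hy']
        exact deform_inner_of_smul g hX (hXb i y hy)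
      have h3 : s = 1 + b i ^ 2 * gram g B.p y i.succ i.succ := by
        rw [hs, hXb i y hy, gram_eq _ hy', Matrix.of_apply, form_apply]
        simp only [map_smul, _root_.smul_apply, smul_eq_mul]
        ring
      have hCi : C⁻¹ ≤ 1 := inv_le_one_of_one_le₀ hC1
      have hCi0 : 0 < C⁻¹ := inv_pos.2 hC0
      have h4 : (b i * C⁻¹) ^ 2 ≤ s := by
        have := (hC.diag i.succ y hyQ).1
        rw [h3, mul_pow]
        nlinarith [mul_le_mul_of_nonneg_left (show C⁻¹ ^ 2 ≤ gram g B.p y i.succ i.succ by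
          nlinarith) (sq_nonneg (b i))]
      have hbi := hb i
      have h5 : (b i * C⁻¹) ^ d ≤ √(s ^ d) := by
        refine Real.le_sqrt_of_sq_le ?_
        rw [← pow_mul, mul_comm d, pow_mul]
        exact pow_le_pow_left₀ (sq_nonneg _) h4 d
      have hs0 : 0 ≤ s := (sq_nonneg _).trans h4
      have hδi := hδ i
      rw [h2, det_gram_deform g hX hy', ← hs, Real.sqrt_mul (by positivity)]
      calc _ ≤ C := (hC.diag i.succ y hyQ).2
        _ = T * T⁻¹ * C := by field_simp
        _ ≤ (b i ^ d * δ i) * T⁻¹ * C := by gcongr; exact hbT i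
        _ = δ i * (C ^ (d + 2) * T⁻¹) * ((b i * C⁻¹) ^ d * C⁻¹) := by
          rw [mul_pow, inv_pow]; field_simp; ring
        _ ≤ _ := by gcongr; exact (hC.det y hyQ).1
    refine h1.trans (le_of_eq ?_)
    rw [ENNReal.ofReal_mul (hδ i).le, ENNReal.ofReal_mul (by positivity), mul_assoc, mul_assoc]

lemma le_area_U (g : RMetric d M) (B : Box d M) {C : ℝ}
    (hlow : ∀ y ∈ B.Q, C⁻¹ ≤ √((gram g B.p y).submatrix Fin.succ Fin.succ).det)
    {S : Set (Euc d)} (hS : MeasurableSet S) (hSb : S ⊆ closedBall B.c (4 * B.ρ))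
    {U : Set M} (hU : MeasurableSet U) (hSU : ∀ z ∈ S, (ch d B.p).symm (bdryPt z) ∈ U) :
    ENNReal.ofReal C⁻¹ * volume S ≤ area g U := by
  have hQ : ∀ z ∈ S, bdryPt z ∈ B.Q := fun z hz =>
    ⟨⟨le_rfl, B.h_pos.le⟩, by rw [projL_bdryPt]; exact hSb hz⟩
  refine le_trans ?_ (chartArea_le g B.p U)
  rw [chartArea, (isParam_area g B.p).apply hU, ← setLIntegral_const]
  refine le_trans (setLIntegral_mono' hS fun z hz => ?_)
    (lintegral_mono_set fun z hz => ⟨B.sub (hQ z hz), hSU z hz⟩)
  exact ENNReal.ofReal_le_ofReal (hlow _ (hQ z hz))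

variable [CompactSpace M]

theorem local_mean_zero (hd : 2 ≤ d) (g : RMetric d M) (B : Box d M) {C : ℝ} (hC : IsBound g B C)
    (hlow : ∀ y ∈ B.Q, C⁻¹ ≤ √((gram g B.p y).submatrix Fin.succ Fin.succ).det)
    {T : ℝ} (hT : 0 < T) {X : ∀ x : M, TangentSpace (𝓡∂ (d + 1)) x} (hX : IsField X)
    (hG : ∀ i, GoodAt B T (B.ρ ^ 2 * T⁻¹) X i) (hu : ContMDiff (𝓡∂ (d + 1)) 𝓘(ℝ, ℝ) ∞ u)
    (h0 : ∫ x in B.U, u x ∂area g = 0) :
    ∫⁻ x in B.U, ENNReal.ofReal (u x ^ 2) ∂area g ≤
      ENNReal.ofReal (24 * d ^ 2 * 2 ^ d * C ^ (d + 5) * (B.ρ ^ 2 * T⁻¹)) *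
        energyOn (deform g X hX) u ((ch d B.p).symm '' B.Q) := by
  have := isFiniteMeasure_area g
  have hρ := B.ρ_pos
  have hC0 : 0 < C := by linarith [hC.one_le]
  have hi2 : Integrable (fun x => u x ^ 2) ((area g).restrict B.U) :=
    (integrable_area g (hu.continuous.pow 2)).restrict
  have h1 := mul_le_osc (μ := (area g).restrict B.U)
    (integrable_area g hu.continuous).restrict hi2 h0
  simp only [osc, Measure.restrict_univ, Measure.restrict_apply_univ] at h1
  rw [ofReal_integral_eq_lintegral_ofReal hi2 (Eventually.of_forall fun x => sq_nonneg _)] at h1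
  have h2 := le_area_U g B hlow (S := ball B.c B.ρ) measurableSet_ball
    (ball_subset_closedBall.trans (closedBall_subset_closedBall (by linarith)))
    B.isOpen_U.measurableSet fun z hz => by
      have hz' : bdryPt z ∈ (ch d B.p).target := B.sub ⟨⟨le_rfl, B.h_pos.le⟩, by
        rw [projL_bdryPt]
        exact closedBall_subset_closedBall (by linarith) (ball_subset_closedBall hz)⟩
      refine ⟨(ch d B.p).map_target hz', ?_⟩
      rwa [mem_preimage, (ch d B.p).right_inv hz', projL_bdryPt]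
  have h3 := ((mul_le_mul_right h2 _).trans h1).trans (local_estimate_scaled hd g B hC hT hX hG hu)
  rw [vol_ball B.c hρ, vol_ball 0 (by positivity : 0 < 2 * B.ρ)] at h3
  have hom0 : volume (ball (0 : Euc d) 1) ≠ 0 := (measure_ball_pos _ _ zero_lt_one).ne'
  have hom : volume (ball (0 : Euc d) 1) ≠ ⊤ := measure_ball_lt_top.ne
  generalize volume (ball (0 : Euc d) 1) = om at *
  refine (ENNReal.mul_le_mul_iff_left (c := ENNReal.ofReal C⁻¹ * (ENNReal.ofReal (B.ρ ^ d) * om))
    (mul_ne_zero (by simpa using hC0) (mul_ne_zero (by simp [hρ]) hom0))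
    (ENNReal.mul_ne_top ENNReal.ofReal_ne_top (ENNReal.mul_ne_top ENNReal.ofReal_ne_top hom))).1
    (h3.trans (le_of_eq ?_))
  have h4 : ENNReal.ofReal (24 * d ^ 2 * 2 ^ d * C ^ (d + 5) * (B.ρ ^ 2 * T⁻¹)) *
      (ENNReal.ofReal C⁻¹ * ENNReal.ofReal (B.ρ ^ d)) =
      ENNReal.ofReal C * ENNReal.ofReal C * ENNReal.ofReal ((2 * B.ρ) ^ d) * (d * d) * 24 *
        ENNReal.ofReal (B.ρ ^ 2) * ENNReal.ofReal (C ^ (d + 2)) * ENNReal.ofReal T⁻¹ := by
    rw [← ENNReal.ofReal_natCast, ← ENNReal.ofReal_ofNat 24]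
    simp (disch := positivity) only [← ENNReal.ofReal_mul]
    congr 1
    field_simp
    ring
  calc _ = (ENNReal.ofReal C * ENNReal.ofReal C * ENNReal.ofReal ((2 * B.ρ) ^ d) * (d * d) * 24 *
        ENNReal.ofReal (B.ρ ^ 2) * ENNReal.ofReal (C ^ (d + 2)) * ENNReal.ofReal T⁻¹) * om *
        energyOn (deform g X hX) u ((ch d B.p).symm '' B.Q) := by ring
    _ = _ := by rw [← h4]; ring

end Pool.Agent.P.MP_07ee5e_gt
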