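import Pool.Agent.P.MP_07ee5e_gt.KField
import Pool.Agent.P.MP_07ee5e_gt.KDefs

/-! The lower bound for all eigenvalues. -/

set_option autoImplicit false

open scoped Manifold ContDiff ENNReal Topology
open MeasureTheory Set Bundle Metric Filter

noncomputable section

namespace Pool.Agent.P.MP_07ee5e_gt

lemma exists_mean_zero {α ι : Type*} [MeasurableSpace α] (μ : Measure α) (J : Finset ι)
    (U : ι → Set α) {k : ℕ} (hJ : J.card ≤ k) (E : Submodule ℝ (α → ℝ))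
    (hE : Module.finrank ℝ E = k + 1) (hi : ∀ u ∈ E, Integrable u μ) :
    ∃ u ∈ E, u ≠ 0 ∧ ∀ j ∈ J, ∫ x in U j, u x ∂μ = 0 := by
  have := Module.finite_of_finrank_eq_succ hE
  let f : E →ₗ[ℝ] (J → ℝ) :=
    { toFun := fun u j => ∫ x in U j, u.1 x ∂μ
      map_add' := fun u v => funext fun j =>
        integral_add (hi u.1 u.2).restrict (hi v.1 v.2).restrict
      map_smul' := fun a u => funext fun j => integral_const_mul a fun x => u.1 x }
  have h := f.ker_ne_bot_of_finrank_lt (by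
    rw [hE, Module.finrank_fintype_fun_eq_card, Fintype.card_coe]; omega)
  obtain ⟨u, hu, hu0⟩ := (Submodule.ne_bot_iff _).1 h
  exact ⟨u.1, u.2, fun h0 => hu0 (Subtype.ext h0), fun j hj => congrFun hu ⟨j, hj⟩⟩

lemma setLIntegral_le_sum {α ι : Type*} [MeasurableSpace α] (μ : Measure α) (J : Finset ι)
    (U : ι → Set α) {S : Set α} (hS : ∀ x ∈ S, ∃ j ∈ J, x ∈ U j) (F : α → ℝ≥0∞) :
    ∫⁻ x in S, F x ∂μ ≤ ∑ j ∈ J, ∫⁻ x in U j, F x ∂μ := by
  refine (lintegral_mono_set (t := ⋃ j : J, U j) fun x hx => ?_).trans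
    ((lintegral_iUnion_le _ _).trans (le_of_eq ?_))
  · obtain ⟨j, hj, hx⟩ := hS x hx
    exact mem_iUnion.2 ⟨⟨j, hj⟩, hx⟩
  · rw [tsum_fintype, Finset.sum_coe_sort J fun j => ∫⁻ x in U j, F x ∂μ]

variable {d : ℕ} {M : Type*} [TopologicalSpace M]
  [ChartedSpace (EuclideanHalfSpace (d + 1)) M]

/-- The open set over a small ball. -/
def Box.smallU (B : Box d M) (x : Euc d) (r : ℝ) : Set M :=
  (ch d B.p).source ∩ (fun y => projL d (ch d B.p y)) ⁻¹' ball x r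

variable [IsManifold (𝓡∂ (d + 1)) ∞ M] [T2Space M] [MeasurableSpace M] [BorelSpace M]
  [CompactSpace M]

lemma le_steklov (g : RMetric d M) {ι : Type*} (J : Finset ι) (U : ι → Set M) {k : ℕ}
    (hJ : J.card ≤ k) {a : ℝ≥0∞}
    (h : ∀ u : M → ℝ, ContMDiff (𝓡∂ (d + 1)) 𝓘(ℝ, ℝ) ∞ u →
      (∀ j ∈ J, ∫ x in U j, u x ∂area g = 0) → ∫ x, u x ^ 2 ∂area g ≠ 0 →
      a ≤ (∫⁻ x, gradSq g u x ∂vol g) / ENNReal.ofReal (∫ x, u x ^ 2 ∂area g)) :
    a ≤ steklov k g := by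
  refine le_iInf fun E => le_iInf fun hE => le_iInf fun hs => le_iInf fun h0 => ?_
  obtain ⟨u, hu, hu0, hm⟩ := exists_mean_zero (area g) J U hJ E hE
    fun u hu => integrable_area g (hs u hu).continuous
  exact le_iSup_of_le u (le_iSup_of_le hu (le_iSup_of_le hu0 (h u (hs u hu) hm (h0 u hu hu0))))

lemma steklov1_le_steklov (g : RMetric d M) {k : ℕ} (hk : 1 ≤ k) : steklov1 g ≤ steklov k g :=
  le_steklov g (Finset.univ : Finset Unit) (fun _ => univ) (by simpa using hk)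
    fun u hu h0 h1 => steklov1_le g hu (by simpa using h0 ()) h1

theorem box_estimate (hd : 2 ≤ d) (g : RMetric d M) (B : Box d M) {C : ℝ} (hC : IsBound g B C)
    (hlow : ∀ y ∈ B.Q, C⁻¹ ≤ √((gram g B.p y).submatrix Fin.succ Fin.succ).det)
    {T : ℝ} (hT : 0 < T) {X : ∀ x : M, TangentSpace (𝓡∂ (d + 1)) x} (hX : IsField X)
    {r : ℝ} (hr : 0 < r) (hrρ : 2 * r ≤ B.ρ) (hG : ∀ i, GoodAt B T (r ^ 2 * T⁻¹) X i) :
    ∃ s : Finset (Euc d), (s.card : ℝ) ≤ (3 * B.ρ / r) ^ d ∧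
      ∀ u : M → ℝ, ContMDiff (𝓡∂ (d + 1)) 𝓘(ℝ, ℝ) ∞ u →
        (∀ x ∈ s, ∫ y in B.smallU x r, u y ∂area g = 0) →
        ∫⁻ x in B.U, ENNReal.ofReal (u x ^ 2) ∂area g ≤
          ENNReal.ofReal (24 * d ^ 2 * 2 ^ d * C ^ (d + 5) * (r ^ 2 * T⁻¹)) *
            (ENNReal.ofReal (9 ^ d) * energy (deform g X hX) u) := by
  classical
  have hρ := B.ρ_pos
  obtain ⟨s, hs, hsep, hcov⟩ := exists_net B.c hρ hr
  refine ⟨s, (card_le_of_sep s B.c hr hρ.le (fun x hx => (hs x hx).le) hsep).trans ?_,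
    fun u hu h0 => ?_⟩
  · refine pow_le_pow_left₀ (by positivity) ?_ d
    rw [div_add_one hr.ne']
    gcongr
    linarith
  have hsl : ∀ x ∈ s, ∀ m : ℝ, 2 ≤ m → ∀ a b, slab x (m * r) a b ⊆ slab B.c (m * B.ρ) a b := by
    intro x hx m hm a b y hy
    refine ⟨hy.1, closedBall_subset_closedBall' ?_ hy.2⟩
    have := mem_ball.1 (hs x hx)
    nlinarith
  have hQ : ∀ x ∈ s, slab x (4 * r) 0 B.h ⊆ B.Q := fun x hx => hsl x hx 4 (by norm_num) _ _
  have hloc : ∀ x ∈ s, ∫⁻ y in B.smallU x r, ENNReal.ofReal (u y ^ 2) ∂area g ≤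
      ENNReal.ofReal (24 * d ^ 2 * 2 ^ d * C ^ (d + 5) * (r ^ 2 * T⁻¹)) *
        energyOn (deform g X hX) u ((ch d B.p).symm '' slab x (4 * r) 0 B.h) := by
    intro x hx
    let B' : Box d M := ⟨B.p, x, r, B.h, hr, B.h_pos, (hQ x hx).trans B.sub⟩
    refine local_mean_zero hd g B' ⟨hC.one_le, fun y hy => hC.det y (hQ x hx hy),
      fun i y hy => hC.diag i y (hQ x hx hy), fun y hy => hC.bdet y (hQ x hx hy)⟩
      (fun y hy => hlow y (hQ x hx hy)) hT hX (fun i => ?_) hu (h0 x hx)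
    obtain ⟨δ, b, h1, h2, h3, h4, h5, h6⟩ := hG i
    exact ⟨δ, b, h1, h2, h3, h4, h5, fun y hy => h6 y (hsl x hx 3 (by norm_num) _ _ hy)⟩
  refine (setLIntegral_le_sum _ s (fun x => B.smallU x r) (fun y hy => ?_) _).trans
    ((Finset.sum_le_sum hloc).trans ?_)
  · obtain ⟨x, hx, hyx⟩ := hcov _ hy.2
    exact ⟨x, hx, hy.1, hyx⟩
  rw [← Finset.mul_sum]
  refine mul_le_mul_right ?_ _
  have hm : ∀ x ∈ s, energyOn (deform g X hX) u ((ch d B.p).symm '' slab x (4 * r) 0 B.h) =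
      ∫⁻ y, ((ch d B.p).symm '' slab x (4 * r) 0 B.h).indicator (gradSq (deform g X hX) u) y
        ∂vol (deform g X hX) := fun x hx =>
    (lintegral_indicator ((isParam_vol g B.p).measurableSet_image
      (isCompact_slab _ _ _ _).measurableSet ((hQ x hx).trans B.sub)) _).symm
  rw [Finset.sum_congr rfl hm, energy, ← lintegral_const_mul' _ _ ENNReal.ofReal_ne_top]
  refine (sum_lintegral_le _ _ _).trans (lintegral_mono fun y => ?_)
  simp only [indicator_apply]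
  rw [← Finset.sum_filter, Finset.sum_const, nsmul_eq_mul]
  refine mul_le_mul_left ?_ _
  rw [← ENNReal.ofReal_natCast]
  refine ENNReal.ofReal_le_ofReal ((card_le_of_sep _ (projL d (ch d B.p y)) (R := 4 * r) hr
    (by positivity) (fun x hx => ?_) fun x hx x' hx' =>
      hsep x (Finset.mem_filter.1 hx).1 x' (Finset.mem_filter.1 hx').1).trans (le_of_eq ?_))
  · obtain ⟨hx', w, hw, rfl⟩ := Finset.mem_filter.1 hx
    rw [(ch d B.p).right_inv (B.sub (hQ x hx' hw)), dist_comm]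
    exact hw.2
  · congr 1
    field_simp
    norm_num

theorem steklov1_of_good (hd : 2 ≤ d) (hc : IsConnected ((𝓡∂ (d + 1)).boundary M))
    (g₀ : RMetric d M) (t : Finset (Box d M))
    (ht : (𝓡∂ (d + 1)).boundary M ⊆ ⋃ B ∈ t, B.U) : ∃ c : ℝ, 0 < c ∧ ∀ T : ℝ, 0 < T →
      ∀ (X : ∀ x : M, TangentSpace (𝓡∂ (d + 1)) x) (hX : IsField X),
        (∀ B ∈ t, ∀ i, Good B T X i) →
        (∀ x ∈ (𝓡∂ (d + 1)).boundary M, (deform g₀ X hX).inner x = g₀.inner x) →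
        ENNReal.ofReal (c * T) ≤ steklov1 (deform g₀ X hX) := by
  have := isFiniteMeasure_area g₀
  have hcpt : IsCompact ((𝓡∂ (d + 1)).boundary M) := isClosed_bdry.isCompact
  let S : Set ((M → ℝ) × ℝ≥0∞) := {q | ContMDiff (𝓡∂ (d + 1)) 𝓘(ℝ, ℝ) ∞ q.1 ∧
    ∃ T : ℝ, 0 < T ∧ ∃ (X : ∀ x : M, TangentSpace (𝓡∂ (d + 1)) x) (hX : IsField X),
      (∀ B ∈ t, ∀ i, Good B T X i) ∧ q.2 = ENNReal.ofReal T⁻¹ * energy (deform g₀ X hX) q.1}
  obtain ⟨C, hC, hrel⟩ : Rel (area g₀) S ((𝓡∂ (d + 1)).boundary M) ((𝓡∂ (d + 1)).boundary M) := by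
    refine glue hcpt hc (fun U hU => area_ne_zero g₀ hU) (fun q hq => hq.1.continuous.measurable)
      fun x hx => ?_
    obtain ⟨B, hB, hxB⟩ := mem_iUnion₂.1 (ht hx)
    obtain ⟨C, hC⟩ := (eventually_isBound g₀ B).exists
    refine ⟨B.U, B.isOpen_U, hxB, ENNReal.ofReal C * ENNReal.ofReal C * locConst d B.ρ *
      ENNReal.ofReal (C ^ (d + 2)), ENNReal.mul_ne_top (ENNReal.mul_ne_top (ENNReal.mul_ne_top
        ENNReal.ofReal_ne_top ENNReal.ofReal_ne_top) (locConst_ne_top _ _)) ENNReal.ofReal_ne_top,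
      ?_⟩
    rintro ⟨u, E⟩ ⟨hu, T, hT, X, hX, hG, hE⟩
    simp only at hu hE ⊢
    rw [hE]
    exact local_estimate hd g₀ B hC hT hX (hG B hB) hu
  obtain ⟨x₀, hx₀⟩ := hc.nonempty
  have ha : 0 < (area g₀ univ).toReal := ENNReal.toReal_pos
    (area_ne_zero g₀ isOpen_univ ⟨x₀, mem_univ _, hx₀⟩) (measure_ne_top _ _)
  have hC1 : 0 < C.toReal + 1 := by positivity
  refine ⟨(area g₀ univ).toReal / (C.toReal + 1), by positivity, fun T hT X hX hG hb => ?_⟩
  refine le_iInf fun u => le_iInf fun hu => le_iInf fun h0 => le_iInf fun h1 => ?_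
  rw [area_congr hb] at h0 h1 ⊢
  have h2 := mul_le_osc (integrable_area g₀ hu.continuous)
    (integrable_area g₀ (hu.continuous.pow 2)) h0
  have h3 := hrel (u, ENNReal.ofReal T⁻¹ * energy (deform g₀ X hX) u) ⟨hu, T, hT, X, hX, hG, rfl⟩
  simp only [osc, area_restrict_boundary, Measure.restrict_univ] at h2 h3
  have hI : ENNReal.ofReal (∫ x, u x ^ 2 ∂area g₀) ≠ 0 := by
    rw [ne_eq, ENNReal.ofReal_eq_zero, not_le]
    exact lt_of_le_of_ne (integral_nonneg fun z => sq_nonneg _) (Ne.symm h1)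
  rw [ENNReal.le_div_iff_mul_le (Or.inl hI) (Or.inl ENNReal.ofReal_ne_top)]
  have h4 : ENNReal.ofReal ((area g₀ univ).toReal / (C.toReal + 1) * T) =
      ENNReal.ofReal (T / (C.toReal + 1)) * area g₀ univ := by
    conv_rhs => rw [← ENNReal.ofReal_toReal (measure_ne_top (area g₀) univ)]
    rw [← ENNReal.ofReal_mul (by positivity)]
    congr 1
    ring
  calc _ = ENNReal.ofReal (T / (C.toReal + 1)) *
        (ENNReal.ofReal (∫ x, u x ^ 2 ∂area g₀) * area g₀ univ) := by rw [h4]; ring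
    _ ≤ ENNReal.ofReal (T / (C.toReal + 1)) *
        (C * (ENNReal.ofReal T⁻¹ * energy (deform g₀ X hX) u)) :=
      mul_le_mul_right (h2.trans h3) _
    _ ≤ energy (deform g₀ X hX) u := by
      have h5 := ENNReal.ofReal_toReal hC
      have h6 : 0 ≤ C.toReal := ENNReal.toReal_nonneg
      generalize C.toReal = c at h5 h6 hC1 ⊢
      rw [← h5, ← mul_assoc, ← mul_assoc, ← ENNReal.ofReal_mul (by positivity),
        ← ENNReal.ofReal_mul (by positivity)]
      refine mul_le_of_le_one_left' (ENNReal.ofReal_le_one.2 ?_)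
      calc _ ≤ T / (c + 1) * (c + 1) * T⁻¹ := by gcongr; linarith
        _ = 1 := by field_simp

theorem lower_bound_all (hd : 2 ≤ d) (hc : IsConnected ((𝓡∂ (d + 1)).boundary M))
    (g₀ : RMetric d M) : ∃ c : ℝ, 0 < c ∧ ∀ (N : ℕ) (W : ℝ) (U : Set M), 0 < W → IsOpen U →
      (𝓡∂ (d + 1)).boundary M ⊆ U → ∃ g : RMetric d M,
        (∀ x ∈ (𝓡∂ (d + 1)).boundary M, g.inner x = g₀.inner x) ∧
        (∀ x, x ∉ U → g.inner x = g₀.inner x) ∧ (∀ x v, g₀.inner x v v ≤ g.inner x v v) ∧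
        vol g univ ≤ vol g₀ univ + ENNReal.ofReal W ∧ ∀ k : ℕ, 1 ≤ k → k ≤ N →
          ENNReal.ofReal (c * (k : ℝ) ^ ((2 : ℝ) / d) * W) ≤ steklov k g := by
  classical
  have := isFiniteMeasure_area g₀
  have := isFiniteMeasure_vol g₀
  have hcpt : IsCompact ((𝓡∂ (d + 1)).boundary M) := isClosed_bdry.isCompact
  obtain ⟨t, ht⟩ := hcpt.elim_finite_subcover (fun B : Box d M => B.U) Box.isOpen_U
    fun x hx => mem_iUnion.2 (exists_box hx)
  obtain ⟨A, hA, hfield⟩ := exists_field_thin hd g₀ (t ×ˢ Finset.univ)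
  obtain ⟨c₁, hc₁, hlow₁⟩ := steklov1_of_good hd hc g₀ t ht
  have hev : ∀ B : Box d M, ∀ᶠ C : ℝ in atTop, IsBound g₀ B C ∧
      (∀ y ∈ B.Q, C⁻¹ ≤ √((gram g₀ B.p y).submatrix Fin.succ Fin.succ).det) ∧
      C⁻¹ ≤ B.ρ ∧ B.ρ ≤ C := by
    intro B
    have h2 := eventually_bound (isCompact_slab _ _ _ _ : IsCompact B.Q)
      (f := fun y => √((gram g₀ B.p y).submatrix Fin.succ Fin.succ).det)
      ((Real.continuous_sqrt.comp (continuous_id.matrix_submatrix Fin.succ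
        Fin.succ).matrix_det).comp_continuousOn ((continuousOn_gram g₀ B.p).mono B.sub))
      fun y hy => Real.sqrt_pos.2
        ((posDef_gram g₀ (B.sub hy)).submatrix (Fin.succ_injective _)).det_pos
    filter_upwards [eventually_isBound g₀ B, h2, eventually_ge_atTop B.ρ⁻¹,
      eventually_ge_atTop B.ρ] with C h1 h2 h3 h4
    exact ⟨h1, fun y hy => (h2 y hy).1, inv_le_of_inv_le₀ B.ρ_pos h3, h4⟩
  obtain ⟨C, hC, hC1⟩ := (((eventually_all_finset t).2 fun B _ => hev B).and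
    (eventually_ge_atTop 1)).exists
  have hC0 : 0 < C := by linarith
  have hn : (1 : ℝ) ≤ t.card := by
    obtain ⟨x₀, hx₀⟩ := hc.nonempty
    obtain ⟨B, hB, -⟩ := mem_iUnion₂.1 (ht hx₀)
    exact_mod_cast Finset.card_pos.2 ⟨B, hB⟩
  set n : ℝ := (t.card : ℝ) with hnt
  have hn0 : 0 < n := by linarith
  have hd0 : (0 : ℝ) < d := by exact_mod_cast (by omega : 0 < d)
  set L : ℝ := 24 * d ^ 2 * 2 ^ d * C ^ (d + 5) with hL
  have hL0 : 0 < L := by positivity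
  have hA0 : 0 < A.toReal + 1 := by positivity
  set c₂ : ℝ := (n * L * 9 ^ d * (3 * C * n) ^ 2 * (A.toReal + 1))⁻¹ with hc₂
  have hc₂0 : 0 < c₂ := by positivity
  refine ⟨min (c₁ / ((6 * C ^ 2 * n) ^ 2 * (A.toReal + 1))) c₂, lt_min (by positivity) hc₂0,
    fun N W U hW0 hU hUb => ?_⟩
  set T := W / (A.toReal + 1) with hT
  have hT0 : 0 < T := by positivity
  obtain ⟨X, K, hX, -, hKb, hX0, -, hXU, hXF, hvol⟩ := hfield T hT0
    (min T ((N + 1 : ℝ)⁻¹ ^ 2 * T⁻¹)) (by positivity) (min_le_left _ _) Uᶜ hU.isClosed_compl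
    (disjoint_compl_left_iff_subset.2 hUb)
  have hb : ∀ x ∈ (𝓡∂ (d + 1)).boundary M, (deform g₀ X hX).inner x = g₀.inner x :=
    fun x hx => deform_inner_of_zero g₀ _ (hX0 x fun h => disjoint_left.1 hKb h hx)
  have hgood : ∀ r : ℝ, (N + 1 : ℝ)⁻¹ ≤ r → ∀ B ∈ t, ∀ i, GoodAt B T (r ^ 2 * T⁻¹) X i := by
    intro r hr B hB i
    obtain ⟨δ, b, h1, h2, h3, h4, h5, h6⟩ := hXF (B, i) (by simp [hB])
    exact ⟨δ, b, h1, h2, (h3.trans (min_le_right _ _)).trans (by gcongr), h4, h5,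
      fun y hy => (h6 y hy).2⟩
  refine ⟨deform g₀ X hX, hb, fun x hx => deform_inner_of_zero g₀ _ (hXU x hx),
    fun x v => le_defInner g₀ X x v, ((vol_deform_le g₀ hX).trans hvol).trans ?_,
    fun k hk hkN => ?_⟩
  · refine add_le_add le_rfl ?_
    conv_lhs => rw [← ENNReal.ofReal_toReal hA]
    rw [← ENNReal.ofReal_mul ENNReal.toReal_nonneg]
    refine ENNReal.ofReal_le_ofReal ?_
    have : (A.toReal + 1) * T = W := by rw [hT]; field_simp
    nlinarith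
  have hk0 : (0 : ℝ) < k := by exact_mod_cast hk
  have hk1 : (1 : ℝ) ≤ k := by exact_mod_cast hk
  have hkN' : (k : ℝ) ≤ N := by exact_mod_cast hkN
  obtain ⟨κ, hκ1, hκd, hκ2⟩ : ∃ κ : ℝ, 1 ≤ κ ∧ κ ^ d = k ∧ (k : ℝ) ^ ((2 : ℝ) / d) = κ ^ 2 := by
    refine ⟨(k : ℝ) ^ ((d : ℝ)⁻¹), Real.one_le_rpow hk1 (by positivity),
      Real.rpow_inv_natCast_pow hk0.le (by omega), ?_⟩
    rw [← Real.rpow_natCast, ← Real.rpow_mul hk0.le]
    congr 1
    rw [div_eq_inv_mul]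
    norm_num
  have hκ0 : 0 < κ := by linarith
  rw [hκ2]
  rcases le_or_gt κ (6 * C ^ 2 * n) with hκ | hκ
  · refine le_trans (ENNReal.ofReal_le_ofReal ?_) ((hlow₁ T hT0 X hX (fun B hB i => ?_) hb).trans
      (steklov1_le_steklov _ hk))
    · calc _ ≤ c₁ / ((6 * C ^ 2 * n) ^ 2 * (A.toReal + 1)) * (6 * C ^ 2 * n) ^ 2 * W := by
            gcongr
            exact min_le_left _ _
        _ = _ := by rw [hT]; field_simp
    · have := hgood 1 (inv_le_one_of_one_le₀ (by linarith)) B hB i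
      rwa [one_pow, one_mul] at this
  set r := 3 * C * n / κ with hr
  have hr0 : 0 < r := by positivity
  have hrN : (N + 1 : ℝ)⁻¹ ≤ r := by
    have h1 : κ ≤ N + 1 := by
      have := le_self_pow₀ hκ1 (by omega : d ≠ 0)
      linarith
    rw [hr, inv_eq_one_div]
    gcongr
    nlinarith
  have hbox : ∀ B ∈ t, _ := fun B hB => box_estimate hd g₀ B (hC B hB).1 (hC B hB).2.1 hT0 hX hr0
    (le_trans (by
      rw [hr, ← mul_div_assoc, div_le_iff₀ hκ0, inv_mul_eq_div, le_div_iff₀ hC0]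
      nlinarith) (hC B hB).2.2.1) (hgood r hrN B hB)
  choose! s hs hest using hbox
  refine le_steklov _ (t.sigma s) (fun j => j.1.smallU j.2 r) ?_ fun u hu h0 h1 => ?_
  · have h2 : ((t.sigma s).card : ℝ) ≤ k := by
      rw [Finset.card_sigma, Nat.cast_sum]
      refine (Finset.sum_le_card_nsmul t _ ((κ / n) ^ d) fun B hB => (hs B hB).trans ?_).trans ?_
      · have := (hC B hB).2.2.2
        have := B.ρ_pos
        refine pow_le_pow_left₀ (by positivity) ?_ d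
        calc _ ≤ 3 * C / r := by gcongr
          _ = _ := by rw [hr]; field_simp
      · rw [nsmul_eq_mul, ← hnt, div_pow, hκd, mul_div_assoc', div_le_iff₀ (by positivity),
          mul_comm]
        exact mul_le_mul_of_nonneg_left (le_self_pow₀ hn (by omega)) hk0.le
    exact_mod_cast h2
  rw [area_congr hb] at h0 h1 ⊢
  have hi2 : Integrable (fun x => u x ^ 2) (area g₀) := integrable_area g₀ (hu.continuous.pow 2)
  have hI : ENNReal.ofReal (∫ x, u x ^ 2 ∂area g₀) ≠ 0 := by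
    rw [ne_eq, ENNReal.ofReal_eq_zero, not_le]
    exact lt_of_le_of_ne (integral_nonneg fun z => sq_nonneg _) (Ne.symm h1)
  rw [ENNReal.le_div_iff_mul_le (Or.inl hI) (Or.inl ENNReal.ofReal_ne_top),
    ofReal_integral_eq_lintegral_ofReal hi2 (Eventually.of_forall fun x => sq_nonneg _),
    ← area_restrict_boundary]
  have h2 := (setLIntegral_le_sum (area g₀) t (fun B => B.U)
    (fun x hx => by simpa using ht hx) fun x => ENNReal.ofReal (u x ^ 2)).trans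
    (Finset.sum_le_card_nsmul t _ _ fun B hB => hest B hB u hu
      fun x hx => h0 ⟨B, x⟩ (Finset.mem_sigma.2 ⟨hB, hx⟩))
  refine (mul_le_mul_right h2 _).trans ?_
  rw [nsmul_eq_mul, ← ENNReal.ofReal_natCast, ← hnt, ← mul_assoc, ← mul_assoc, ← mul_assoc,
    ← ENNReal.ofReal_mul (by positivity), ← ENNReal.ofReal_mul (by positivity),
    ← ENNReal.ofReal_mul (by positivity)]
  refine mul_le_of_le_one_left' (ENNReal.ofReal_le_one.2 ?_)
  calc _ ≤ c₂ * κ ^ 2 * W * n * (L * (r ^ 2 * T⁻¹)) * 9 ^ d := by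
        gcongr
        exact min_le_right _ _
    _ = 1 := by rw [hc₂, hr, hT]; field_simp

end Pool.Agent.P.MP_07ee5e_gt
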