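import Pool.Agent.P.MP_07ee5e_gt.KLower
import Pool.Agent.P.MP_07ee5e_gt.KBump

/-! The upper bound for all eigenvalues. -/

set_option autoImplicit false

open scoped Manifold ContDiff ENNReal Topology Function
open MeasureTheory Set Bundle Metric Filter

noncomputable section

namespace Pool.Agent.P.MP_07ee5e_gt

variable {d : ℕ} {M : Type*} [TopologicalSpace M]
  [ChartedSpace (EuclideanHalfSpace (d + 1)) M] [IsManifold (𝓡∂ (d + 1)) ∞ M]
  [T2Space M] [CompactSpace M]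

lemma exists_coord (B : Box d M) : ∃ Φ : M → Euc d,
    ContMDiff (𝓡∂ (d + 1)) 𝓘(ℝ, Euc d) ∞ Φ ∧
      ∀ z ∈ closedBall B.c (4 * B.ρ), Φ ((ch d B.p).symm (bdryPt z)) = z := by
  have hS : IsClosed ((ch d B.p).symm '' B.Q) := ((isCompact_slab _ _ _ _).image_of_continuousOn
    ((continuousOn_extChartAt_symm B.p).mono B.sub)).isClosed
  obtain ⟨χ, hχ0, hχ1, -⟩ := exists_contMDiffMap_zero_one_nhds_of_isClosed (n := ⊤)
    (𝓡∂ (d + 1)) (isOpen_extChartAt_source (I := 𝓡∂ (d + 1)) B.p).isClosed_compl hS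
    (disjoint_compl_left_iff_subset.2 (by
      rintro _ ⟨y, hy, rfl⟩
      exact (ch d B.p).map_target (B.sub hy)))
  refine ⟨fun x => χ x • projL d (ch d B.p x), fun x => ?_, fun z hz => ?_⟩
  · by_cases hx : x ∈ (ch d B.p).source
    · exact (χ.contMDiff x).smul ((projL d).contDiff.contMDiff.contMDiffAt.comp x
        (contMDiffAt_extChartAt' (by rwa [extChartAt_source] at hx)))
    · refine (contMDiffAt_const (c := (0 : Euc d))).congr_of_eventuallyEq ?_
      filter_upwards [hχ0.filter_mono (nhds_le_nhdsSet hx)] with y hy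
      rw [hy, zero_smul]
  · have hQ : bdryPt z ∈ B.Q := ⟨⟨le_rfl, B.h_pos.le⟩, by rwa [projL_bdryPt]⟩
    have h1 := hχ1.self_of_nhdsSet _ ⟨_, hQ, rfl⟩
    simp only [h1, one_smul, (ch d B.p).right_inv (B.sub hQ), projL_bdryPt]

lemma gradSq_comp_le (g : RMetric d M) {Φ : M → Euc d}
    (hΦ : ContMDiff (𝓡∂ (d + 1)) 𝓘(ℝ, Euc d) ∞ Φ) : ∃ C : ℝ, 0 < C ∧
      ∀ F : Euc d → ℝ, ContDiff ℝ ∞ F → ∀ x,
        gradSq g (F ∘ Φ) x ≤ ENNReal.ofReal (‖fderiv ℝ F (Φ x)‖ ^ 2 * C) := by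
  have hD : ∀ (F : Euc d → ℝ), ContDiff ℝ ∞ F → ∀ x v, diffApply (𝓡∂ (d + 1)) (F ∘ Φ) x v =
      fderiv ℝ F (Φ x) (mfderiv (𝓡∂ (d + 1)) 𝓘(ℝ, Euc d) Φ x v) := by
    intro F hF x v
    have h1 := (hF.differentiable (by simp) (Φ x)).hasFDerivAt.hasMFDerivAt.comp x
      ((hΦ x).mdifferentiableAt (by simp)).hasMFDerivAt
    rw [diffApply, h1.mfderiv]
    rfl
  have hi : ∀ i : Fin d, ∃ C : ℝ, 0 ≤ C ∧ ∀ x v,
      (show Euc d from mfderiv (𝓡∂ (d + 1)) 𝓘(ℝ, Euc d) Φ x v) i ^ 2 ≤ C * g.inner x v v := by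
    intro i
    have hF := (EuclideanSpace.proj (𝕜 := ℝ) i : Euc d →L[ℝ] ℝ).contDiff (n := ∞)
    obtain ⟨C, hC, hb⟩ := gradSq_bound g (hF.contMDiff.comp hΦ)
    refine ⟨C.toReal, ENNReal.toReal_nonneg, fun x v => ?_⟩
    rcases eq_or_ne v 0 with rfl | hv
    · simp only [map_zero, mul_zero]
      exact le_of_eq (zero_pow two_ne_zero)
    · have h1 := (le_iSup (fun v : TangentSpace (𝓡∂ (d + 1)) x => ENNReal.ofReal
        (diffApply (𝓡∂ (d + 1)) ((EuclideanSpace.proj (𝕜 := ℝ) i : Euc d →L[ℝ] ℝ) ∘ Φ) x v ^ 2 /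
          innerAt g x v v)) v).trans (hb x (mem_univ x))
      rw [hD _ hF, ContinuousLinearMap.fderiv] at h1
      exact (div_le_iff₀ (g.pos x v hv)).1 ((ENNReal.ofReal_le_iff_le_toReal hC).1 h1)
  choose C hC0 hC using hi
  have hs : 0 ≤ ∑ i, C i := Finset.sum_nonneg fun i _ => hC0 i
  refine ⟨∑ i, C i + 1, by positivity, fun F hF x => iSup_le fun v =>
    ENNReal.ofReal_le_ofReal ?_⟩
  have h0 := inner_nonneg g x v
  refine div_le_of_le_mul₀ h0 (by positivity) ?_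
  rw [hD F hF]
  set w : Euc d := mfderiv (𝓡∂ (d + 1)) 𝓘(ℝ, Euc d) Φ x v with hw
  have h1 : ‖w‖ ^ 2 ≤ (∑ i, C i + 1) * g.inner x v v := by
    rw [EuclideanSpace.real_norm_sq_eq, add_mul, Finset.sum_mul]
    exact (Finset.sum_le_sum fun i _ => hC i x v).trans (by linarith)
  have h2 := (fderiv ℝ F (Φ x)).le_opNorm w
  rw [Real.norm_eq_abs] at h2
  calc _ = |fderiv ℝ F (Φ x) w| ^ 2 := (sq_abs _).symm
    _ ≤ (‖fderiv ℝ F (Φ x)‖ * ‖w‖) ^ 2 := pow_le_pow_left₀ (abs_nonneg _) h2 2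
    _ ≤ ‖fderiv ℝ F (Φ x)‖ ^ 2 * ((∑ i, C i + 1) * g.inner x v v) := by
        rw [mul_pow]; gcongr
    _ = _ := (mul_assoc _ _ _).symm

omit [IsManifold (𝓡∂ (d + 1)) ∞ M] [T2Space M] [CompactSpace M] [TopologicalSpace M]
  [ChartedSpace (EuclideanHalfSpace (d + 1)) M] in
lemma lintegral_sum_indicator [MeasurableSpace M] (μ : Measure M) {ι : Type*} [Fintype ι]
    (S : ι → Set M) (hS : ∀ j, MeasurableSet (S j)) (a : ι → ℝ) (ha : ∀ j, 0 ≤ a j) :
    ∫⁻ x, ENNReal.ofReal (∑ j, (S j).indicator (fun _ => a j) x) ∂μ =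
      ∑ j, ENNReal.ofReal (a j) * μ (S j) := by
  have h1 : ∀ x, ENNReal.ofReal (∑ j, (S j).indicator (fun _ => a j) x) =
      ∑ j, (S j).indicator (fun _ => ENNReal.ofReal (a j)) x := fun x => by
    rw [ENNReal.ofReal_sum_of_nonneg fun j _ => indicator_nonneg (fun _ _ => ha j) x]
    refine Finset.sum_congr rfl fun j _ => ?_
    by_cases hx : x ∈ S j <;> simp [hx]
  simp only [h1]
  rw [lintegral_finsetSum _ fun j _ => measurable_const.indicator (hS j)]
  exact Finset.sum_congr rfl fun j _ => lintegral_indicator_const (hS j) _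

variable [MeasurableSpace M] [BorelSpace M]

theorem upper_bound_all (hd : 2 ≤ d) (g₀ : RMetric d M) (B : Box d M) :
    ∃ C : ℝ, 0 < C ∧ ∀ k : ℕ, 1 ≤ k → ∀ g : RMetric d M,
      (∀ x ∈ (𝓡∂ (d + 1)).boundary M, g.inner x = g₀.inner x) →
      (∀ x v, g₀.inner x v v ≤ g.inner x v v) →
      steklov k g ≤ ENNReal.ofReal (C * (k : ℝ) ^ ((2 : ℝ) / d)) * vol g univ := by
  classical
  obtain ⟨Φ, hΦ, hΦb⟩ := exists_coord B
  obtain ⟨C₁, hC₁, hgrad⟩ := gradSq_comp_le g₀ hΦ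
  obtain ⟨K, hK, hbump⟩ := exists_bumps d
  obtain ⟨C₂, hC₂, hC₂0⟩ := ((eventually_bound (isCompact_slab _ _ _ _ : IsCompact B.Q)
    (f := fun y => √((gram g₀ B.p y).submatrix Fin.succ Fin.succ).det)
    ((Real.continuous_sqrt.comp (continuous_id.matrix_submatrix Fin.succ
      Fin.succ).matrix_det).comp_continuousOn ((continuousOn_gram g₀ B.p).mono B.sub))
    fun y hy => Real.sqrt_pos.2 ((posDef_gram g₀ (B.sub hy)).submatrix
      (Fin.succ_injective _)).det_pos).and (eventually_gt_atTop 0)).exists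
  have hρ := B.ρ_pos
  set om : ℝ := (volume (ball (0 : Euc d) 1)).toReal with hom
  have hom0 : 0 < om :=
    ENNReal.toReal_pos (measure_ball_pos _ _ zero_lt_one).ne' measure_ball_lt_top.ne
  refine ⟨(12 * K / B.ρ) ^ 2 * C₁ * C₂ * (24 / B.ρ) ^ d / om, by positivity,
    fun k hk g hg hle => ?_⟩
  have := isFiniteMeasure_vol g
  have hk0 : (0 : ℝ) < k := by exact_mod_cast hk
  have hk1 : (1 : ℝ) ≤ k := by exact_mod_cast hk
  obtain ⟨κ, hκ1, hκd, hκ2⟩ : ∃ κ : ℝ, 1 ≤ κ ∧ κ ^ d = k ∧ (k : ℝ) ^ ((2 : ℝ) / d) = κ ^ 2 := by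
    refine ⟨(k : ℝ) ^ ((d : ℝ)⁻¹), Real.one_le_rpow hk1 (by positivity),
      Real.rpow_inv_natCast_pow hk0.le (by omega), ?_⟩
    rw [← Real.rpow_natCast, ← Real.rpow_mul hk0.le]
    congr 1
    rw [div_eq_inv_mul]
    norm_num
  have hκ0 : 0 < κ := by linarith
  rw [hκ2]
  set r := B.ρ / (12 * κ) with hr
  have hr0 : 0 < r := by positivity
  have hrρ : r ≤ B.ρ := div_le_self hρ.le (by linarith)
  obtain ⟨s, hs, hsep, hcov⟩ := exists_net B.c hρ (by positivity : 0 < 3 * r)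
  have hcard : 2 * k + 1 ≤ s.card := by
    have h1 := le_card_of_cover s B.c hρ (by positivity) hcov
    have h2 : B.ρ / (3 * r) = 4 * κ := by rw [hr]; field_simp; norm_num
    rw [h2, mul_pow, hκd] at h1
    have h3 : (4 : ℝ) ≤ 4 ^ d := le_self_pow₀ (by norm_num) (by omega)
    have h4 : (2 * k + 1 : ℝ) ≤ s.card := by nlinarith
    exact_mod_cast h4
  have hm : ∀ j : Euc d, MeasurableSet (Φ ⁻¹' closedBall j r) :=
    fun j => (isClosed_closedBall.preimage hΦ.continuous).measurableSet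
  have hm' : ∀ j : Euc d, MeasurableSet (Φ ⁻¹' ball j (r / 2)) :=
    fun j => (isOpen_ball.preimage hΦ.continuous).measurableSet
  obtain ⟨G, hGs, hGc, hGv⟩ := exists_small_subset s (fun j => (vol g).real (Φ ⁻¹' closedBall j r))
    (V := (vol g).real univ) hcard (fun _ _ => measureReal_nonneg) (by
      refine sum_measureReal_le_measureReal_univ (fun j _ => hm j) fun x hx y hy hxy => ?_
      exact (closedBall_disjoint_closedBall
        (lt_of_lt_of_le (by linarith) (hsep x hx y hy hxy))).preimage Φ)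
  obtain ⟨Λ, hΛ⟩ := hbump r hr0 G fun x hx y hy => hsep x (hGs hx) y (hGs hy)
  set V := (vol g).real univ with hV
  have hV0 : 0 ≤ V := measureReal_nonneg
  have hsm : ∀ a, ContMDiff (𝓡∂ (d + 1)) 𝓘(ℝ, ℝ) ∞ (Λ a ∘ Φ) :=
    fun a => (hΛ a).1.contMDiff.comp hΦ
  have hden : ∀ a, (∑ j, a j ^ 2) * (C₂⁻¹ * ((r / 2) ^ d * om)) ≤
      ∫ x, (Λ a ∘ Φ) x ^ 2 ∂area g := by
    intro a
    have hi2 : Integrable (fun x => (Λ a ∘ Φ) x ^ 2) (area g) :=
      integrable_area g ((hsm a).continuous.pow 2)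
    rw [← ENNReal.ofReal_le_ofReal_iff (integral_nonneg fun x => sq_nonneg _),
      ofReal_integral_eq_lintegral_ofReal hi2 (Eventually.of_forall fun x => sq_nonneg _)]
    refine le_trans ?_ (lintegral_mono fun x => ENNReal.ofReal_le_ofReal ((hΛ a).2.2 (Φ x)))
    refine le_trans ?_ (lintegral_sum_indicator (area g) (fun j : G => Φ ⁻¹' ball j (r / 2))
      (fun j => hm' j) _ fun j => sq_nonneg (a j)).ge
    rw [Finset.sum_mul, ENNReal.ofReal_sum_of_nonneg fun j _ => by positivity]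
    refine Finset.sum_le_sum fun j _ => ?_
    have hj : ball (j : Euc d) (r / 2) ⊆ closedBall B.c (4 * B.ρ) :=
      ball_subset_closedBall.trans (closedBall_subset_closedBall' (by
        have := mem_ball.1 (hs _ (hGs j.2))
        linarith))
    rw [ENNReal.ofReal_mul (sq_nonneg _), area_congr hg]
    refine mul_le_mul_right (le_trans (le_of_eq ?_) (le_area_U g₀ B (fun y hy => (hC₂ y hy).1)
      measurableSet_ball hj (hm' j) fun z hz => ?_)) _
    · rw [vol_ball _ (half_pos hr0), ENNReal.ofReal_mul (by positivity),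
        ENNReal.ofReal_mul (by positivity), hom, ENNReal.ofReal_toReal measure_ball_lt_top.ne]
    · rwa [mem_preimage, hΦb z (hj hz)]
  have hnum : ∀ a, ∫⁻ x, gradSq g (Λ a ∘ Φ) x ∂vol g ≤
      ENNReal.ofReal ((∑ j, a j ^ 2) * ((K / r) ^ 2 * C₁ * (V / (k + 1)))) := by
    intro a
    have h1 : ∀ x, gradSq g (Λ a ∘ Φ) x ≤ ENNReal.ofReal (∑ j : G,
        (Φ ⁻¹' closedBall j r).indicator (fun _ => (K / r) ^ 2 * C₁ * a j ^ 2) x) := by
      intro x
      have h2 := gradSq_le_of_le (g := g₀) (g' := g) (x := x) one_pos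
        (fun v => by rw [one_mul]; exact hle x v) (Λ a ∘ Φ)
      rw [inv_one, ENNReal.ofReal_one, one_mul] at h2
      refine (h2.trans (hgrad _ (hΛ a).1 x)).trans (ENNReal.ofReal_le_ofReal ?_)
      refine (mul_le_mul_of_nonneg_right ((hΛ a).2.1 (Φ x)) hC₁.le).trans (le_of_eq ?_)
      rw [mul_right_comm, Finset.mul_sum]
      refine Finset.sum_congr rfl fun j _ => ?_
      by_cases hx : Φ x ∈ closedBall (j : Euc d) r
      · rw [indicator_of_mem hx, indicator_of_mem (mem_preimage.2 hx)]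
      · rw [indicator_of_notMem hx, indicator_of_notMem (mt mem_preimage.1 hx), mul_zero]
    refine (lintegral_mono h1).trans ?_
    rw [lintegral_sum_indicator _ (fun j : G => Φ ⁻¹' closedBall j r) (fun j => hm j) _
      fun j => by positivity, Finset.sum_mul,
      ENNReal.ofReal_sum_of_nonneg fun j _ => by positivity]
    refine Finset.sum_le_sum fun j _ => ?_
    rw [← ofReal_measureReal (measure_ne_top _ _), ← ENNReal.ofReal_mul (by positivity)]
    refine ENNReal.ofReal_le_ofReal ?_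
    calc _ ≤ (K / r) ^ 2 * C₁ * a j ^ 2 * (V / (k + 1)) := by
          gcongr
          exact hGv j j.2
      _ = _ := by ring
  have hpos : ∀ a : G → ℝ, a ≠ 0 → 0 < ∑ j, a j ^ 2 := fun a ha => by
    obtain ⟨j, hj⟩ := Function.ne_iff.1 ha
    exact Finset.sum_pos' (fun j _ => sq_nonneg _) ⟨j, Finset.mem_univ _, sq_pos_of_ne_zero hj⟩
  have hpos' : ∀ a : G → ℝ, a ≠ 0 → 0 < ∫ x, (Λ a ∘ Φ) x ^ 2 ∂area g := fun a ha =>
    lt_of_lt_of_le (mul_pos (hpos a ha) (by positivity)) (hden a)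
  let Λ' : (G → ℝ) →ₗ[ℝ] (M → ℝ) := (LinearMap.funLeft ℝ ℝ Φ).comp Λ
  have hΛ' : ∀ a, Λ' a = Λ a ∘ Φ := fun a => rfl
  have hne : ∀ a, Λ' a ≠ 0 → a ≠ 0 := fun a h ha => h (by rw [ha, map_zero])
  have hinj : Function.Injective Λ' := by
    refine (injective_iff_map_eq_zero Λ').2 fun a ha => ?_
    by_contra h
    have := hpos' a h
    rw [← hΛ', ha] at this
    simp at this
  refine iInf_le_of_le (LinearMap.range Λ') (iInf_le_of_le ?_ (iInf_le_of_le ?_
    (iInf_le_of_le ?_ (iSup_le fun u => iSup_le fun hu => iSup_le fun hu0 => ?_))))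
  · rw [LinearMap.finrank_range_of_inj hinj, Module.finrank_fintype_fun_eq_card,
      Fintype.card_coe, hGc]
  · rintro _ ⟨a, rfl⟩
    exact hsm a
  · rintro _ ⟨a, rfl⟩ h
    exact (hpos' a (hne a h)).ne'
  · obtain ⟨a, rfl⟩ := hu
    have ha := hne a hu0
    rw [hΛ']
    refine (ENNReal.div_le_div_right (hnum a) _).trans ?_
    rw [← ENNReal.ofReal_div_of_pos (hpos' a ha), ← ofReal_measureReal (measure_ne_top _ _),
      ← ENNReal.ofReal_mul (by positivity), ← hV]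
    refine ENNReal.ofReal_le_ofReal ?_
    have h1 := hpos a ha
    refine (div_le_div_of_nonneg_left (by positivity) (by positivity) (hden a)).trans ?_
    have h2 : V / (k + 1) ≤ V / κ ^ d := by
      rw [hκd]
      gcongr
      linarith
    calc _ ≤ (∑ j, a j ^ 2) * ((K / r) ^ 2 * C₁ * (V / κ ^ d)) /
          ((∑ j, a j ^ 2) * (C₂⁻¹ * ((r / 2) ^ d * om))) := by gcongr
      _ = _ := by
        have h3 : (r / 2) ^ d = (κ ^ d)⁻¹ * ((24 / B.ρ) ^ d)⁻¹ := by
          rw [← inv_pow, ← inv_pow, ← mul_pow, hr]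
          congr 1
          field_simp
          norm_num
        rw [h3, hr]
        field_simp

end Pool.Agent.P.MP_07ee5e_gt
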