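import Pool.Agent.P.MP_07ee5e_gt.Defs

/-! The Euclidean estimate: a Poincaré inequality on a ball of the boundary hyperplane, using only
normal derivatives near the boundary and one tangential derivative on each of `d` thin slabs. -/

set_option autoImplicit false

open scoped ENNReal
open MeasureTheory Set Metric

noncomputable section

namespace Pool.Agent.P.MP_07ee5e_gt

lemma sq_integral_le {f : ℝ → ℝ} (hf : ContinuousOn f (Icc 0 1)) :
    (∫ s in (0 : ℝ)..1, f s) ^ 2 ≤ ∫ s in (0 : ℝ)..1, f s ^ 2 := by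
  set m := ∫ s in (0 : ℝ)..1, f s with hm
  have hf' : ContinuousOn f (uIcc 0 1) := by rwa [uIcc_of_le zero_le_one]
  have h1 : IntervalIntegrable f volume 0 1 := hf'.intervalIntegrable
  have h2 : IntervalIntegrable (fun s => f s ^ 2) volume 0 1 := (hf'.pow 2).intervalIntegrable
  have h3 : 0 ≤ ∫ s in (0 : ℝ)..1, (f s - m) ^ 2 :=
    intervalIntegral.integral_nonneg zero_le_one fun s _ => sq_nonneg _
  have h4 : ∫ s in (0 : ℝ)..1, (f s - m) ^ 2 =
      (∫ s in (0 : ℝ)..1, f s ^ 2) - 2 * m * m + m ^ 2 := by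
    have : (fun s => (f s - m) ^ 2) = fun s => (f s ^ 2 - 2 * m * f s) + m ^ 2 := by
      funext s; ring
    rw [this, intervalIntegral.integral_add (h2.sub (h1.const_mul _)) (by simp),
      intervalIntegral.integral_sub h2 (h1.const_mul _), intervalIntegral.integral_const_mul]
    simp [hm]
  nlinarith

/-- The segment inequality. -/
lemma segment_ineq {U U' : ℝ → ℝ} (hU : ∀ s ∈ Icc (0 : ℝ) 1, HasDerivWithinAt U (U' s) (Icc 0 1) s)
    (hU' : ContinuousOn U' (Icc 0 1)) :
    ENNReal.ofReal ((U 1 - U 0) ^ 2) ≤ ∫⁻ s in Icc (0 : ℝ) 1, ENNReal.ofReal (U' s ^ 2) := by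
  have hc : ContinuousOn U (Icc 0 1) := fun s hs => (hU s hs).continuousWithinAt
  have hU'' : ContinuousOn U' (uIcc 0 1) := by rwa [uIcc_of_le zero_le_one]
  have h1 : ∫ s in (0 : ℝ)..1, U' s = U 1 - U 0 :=
    intervalIntegral.integral_eq_sub_of_hasDerivAt_of_le zero_le_one hc
      (fun s hs => (hU s (Ioo_subset_Icc_self hs)).hasDerivAt (Icc_mem_nhds hs.1 hs.2))
      hU''.intervalIntegrable
  rw [← h1]
  refine (ENNReal.ofReal_le_ofReal (sq_integral_le hU')).trans (le_of_eq ?_)
  rw [intervalIntegral.integral_of_le zero_le_one, ← integral_Icc_eq_integral_Ioc]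
  exact ofReal_integral_eq_lintegral_ofReal ((hU'.pow 2).integrableOn_Icc)
    (Filter.Eventually.of_forall fun s => sq_nonneg _)

variable {d : ℕ}

/-- Keep the first `k` coordinates. -/
def trunc (k : ℕ) (h : Euc d) : Euc d := WithLp.toLp 2 fun j => if j.val < k then h j else 0

lemma trunc_zero (h : Euc d) : trunc 0 h = 0 := by ext j; simp [trunc]

lemma trunc_top (h : Euc d) : trunc d h = h := by ext j; simp [trunc]

lemma trunc_succ (i : Fin d) (h : Euc d) :
    trunc (i.val + 1) h = trunc i.val h + h i • EuclideanSpace.single i (1 : ℝ) := by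
  ext j
  simp only [trunc, PiLp.add_apply, PiLp.smul_apply, PiLp.single_apply, smul_eq_mul]
  by_cases hj : j = i
  · subst hj; simp
  · have : j.val ≠ i.val := fun hh => hj (Fin.ext hh)
    by_cases h1 : j.val < i.val
    · simp [h1, hj, Nat.lt_succ_of_lt h1]
    · have h2 : ¬ j.val < i.val + 1 := by omega
      simp [h1, hj, h2]

lemma norm_trunc_le (k : ℕ) (h : Euc d) : ‖trunc k h‖ ≤ ‖h‖ := by
  rw [EuclideanSpace.norm_eq, EuclideanSpace.norm_eq]
  refine Real.sqrt_le_sqrt (Finset.sum_le_sum fun j _ => ?_)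
  simp only [trunc]
  split_ifs
  · exact le_rfl
  · simp [sq_nonneg]

lemma continuous_trunc (k : ℕ) : Continuous (trunc k : Euc d → Euc d) := by
  refine (PiLp.continuous_toLp 2 _).comp (continuous_pi fun j => ?_)
  split_ifs
  · fun_prop
  · exact continuous_const

lemma ball_poincare (c : Euc d) {ρ : ℝ} (f : Euc d → ℝ) (G : Fin d → Euc d × ℝ → ℝ≥0∞)
    (hG : ∀ i, Measurable (G i)) (K : ℝ≥0∞)
    (hK : ∀ i τ, |τ| ≤ 2 * ρ → ∫⁻ z, G i (z, τ) ≤ K)
    (hf : ∀ i z τ, z ∈ ball c (3 * ρ) → z + τ • EuclideanSpace.single i (1 : ℝ) ∈ ball c (3 * ρ) →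
      ENNReal.ofReal ((f (z + τ • EuclideanSpace.single i (1 : ℝ)) - f z) ^ 2) ≤ G i (z, τ)) :
    ∫⁻ x in ball c ρ, ∫⁻ y in ball c ρ, ENNReal.ofReal ((f x - f y) ^ 2) ≤
      volume (ball (0 : Euc d) (2 * ρ)) * (d * d) * K := by
  let Φ : Euc d × Euc d → ℝ≥0∞ := fun q => d * ∑ i : Fin d, G i (q.1 + trunc i.val q.2, q.2 i)
  have hΦ : Measurable Φ := by
    refine Measurable.const_mul (Finset.measurable_sum _ fun i _ => (hG i).comp ?_) _
    refine Continuous.measurable ?_
    exact (continuous_fst.add ((continuous_trunc _).comp continuous_snd)).prodMk (by fun_prop)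
  have key : ∀ x ∈ ball c ρ, ∀ h ∈ ball (0 : Euc d) (2 * ρ),
      ENNReal.ofReal ((f x - f (x + h)) ^ 2) ≤ Φ (x, h) := by
    intro x hx h hh
    have hmem : ∀ k, x + trunc k h ∈ ball c (3 * ρ) := by
      intro k
      rw [mem_ball_iff_norm] at hx ⊢
      rw [mem_ball_zero_iff] at hh
      have := norm_add_le (x - c) (trunc k h)
      have h2 := norm_trunc_le k h
      rw [show x + trunc k h - c = x - c + trunc k h by abel]
      linarith
    have htel : f (x + h) - f x =
        ∑ i : Fin d, (f (x + trunc (i.val + 1) h) - f (x + trunc i.val h)) := by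
      rw [Fin.sum_univ_eq_sum_range (fun k => f (x + trunc (k + 1) h) - f (x + trunc k h)),
        Finset.sum_range_sub (fun k => f (x + trunc k h)), trunc_zero, trunc_top, add_zero]
    have h1 : (f x - f (x + h)) ^ 2 ≤
        d * ∑ i : Fin d, (f (x + trunc (i.val + 1) h) - f (x + trunc i.val h)) ^ 2 := by
      rw [show (f x - f (x + h)) ^ 2 = (f (x + h) - f x) ^ 2 by ring, htel]
      simpa using sq_sum_le_card_mul_sum_sq (s := Finset.univ)
        (f := fun i : Fin d => f (x + trunc (i.val + 1) h) - f (x + trunc i.val h))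
    refine (ENNReal.ofReal_le_ofReal h1).trans ?_
    rw [ENNReal.ofReal_mul (Nat.cast_nonneg _), ENNReal.ofReal_natCast,
      ENNReal.ofReal_sum_of_nonneg fun i _ => sq_nonneg _]
    refine mul_le_mul_right (Finset.sum_le_sum fun i _ => ?_) _
    have h2 := hmem (i.val + 1)
    rw [trunc_succ, ← add_assoc] at h2 ⊢
    exact hf i _ _ (hmem _) h2
  calc ∫⁻ x in ball c ρ, ∫⁻ y in ball c ρ, ENNReal.ofReal ((f x - f y) ^ 2)
      ≤ ∫⁻ x in ball c ρ, ∫⁻ h in ball (0 : Euc d) (2 * ρ), Φ (x, h) := by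
        refine setLIntegral_mono' measurableSet_ball fun x hx => ?_
        rw [← lintegral_indicator measurableSet_ball, ← lintegral_add_left_eq_self _ x,
          ← lintegral_indicator measurableSet_ball]
        refine lintegral_mono fun h => ?_
        by_cases hxh : x + h ∈ ball c ρ
        · have hh : h ∈ ball (0 : Euc d) (2 * ρ) := by
            rw [mem_ball_iff_norm] at hx hxh
            rw [mem_ball_zero_iff]
            have := norm_sub_le (x + h - c) (x - c)
            rw [show x + h - c - (x - c) = h by abel] at this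
            linarith
          rw [indicator_of_mem hxh, indicator_of_mem hh]
          exact key x hx h hh
        · rw [indicator_of_notMem hxh]
          exact zero_le
    _ ≤ ∫⁻ x, ∫⁻ h in ball (0 : Euc d) (2 * ρ), Φ (x, h) := setLIntegral_le_lintegral _ _
    _ = ∫⁻ h in ball (0 : Euc d) (2 * ρ), ∫⁻ x, Φ (x, h) :=
        lintegral_lintegral_swap (f := fun x h => Φ (x, h)) hΦ.aemeasurable
    _ ≤ ∫⁻ _h in ball (0 : Euc d) (2 * ρ), (d * d) * K := by
        refine setLIntegral_mono' measurableSet_ball fun h hh => ?_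
        have hm : ∀ i : Fin d, Measurable fun x : Euc d => G i (x + trunc i.val h, h i) :=
          fun i => (hG i).comp (by fun_prop)
        simp only [Φ]
        rw [lintegral_const_mul _ (Finset.measurable_sum _ fun i _ => hm i),
          lintegral_finsetSum _ fun i _ => hm i, mul_assoc]
        refine mul_le_mul_right ?_ _
        have : ∀ i : Fin d, ∫⁻ x, G i (x + trunc i.val h, h i) ≤ K := by
          intro i
          rw [lintegral_add_right_eq_self (fun x => G i (x, h i))]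
          refine hK i _ ?_
          rw [mem_ball_zero_iff] at hh
          exact (PiLp.norm_apply_le h i).trans hh.le
        refine (Finset.sum_le_sum fun i _ => this i).trans ?_
        simp
    _ = volume (ball (0 : Euc d) (2 * ρ)) * (d * d) * K := by
        rw [setLIntegral_const]; ring

lemma ofReal_three (a b c : ℝ) : ENNReal.ofReal ((a + b + c) ^ 2) ≤
    3 * (ENNReal.ofReal (a ^ 2) + ENNReal.ofReal (b ^ 2) + ENNReal.ofReal (c ^ 2)) := by
  rw [← ENNReal.ofReal_add (sq_nonneg _) (sq_nonneg _),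
    ← ENNReal.ofReal_add (by positivity) (sq_nonneg _), ← ENNReal.ofReal_ofNat 3,
    ← ENNReal.ofReal_mul (by norm_num)]
  refine ENNReal.ofReal_le_ofReal ?_
  nlinarith [sq_nonneg (a - b), sq_nonneg (b - c), sq_nonneg (a - c)]

/-- The local constant. -/
def locConst (d : ℕ) (ρ : ℝ) : ℝ≥0∞ :=
  volume (ball (0 : Euc d) (2 * ρ)) * (d * d) * ENNReal.ofReal (12 + 12 * ρ ^ 2)

lemma locConst_ne_top (d : ℕ) (ρ : ℝ) : locConst d ρ ≠ ⊤ :=
  ENNReal.mul_ne_top (ENNReal.mul_ne_top measure_ball_lt_top.ne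
    (ENNReal.mul_ne_top (ENNReal.natCast_ne_top _) (ENNReal.natCast_ne_top _)))
    ENNReal.ofReal_ne_top

theorem local_poincare (c : Euc d) {ρ : ℝ} (δ : Fin d → ℝ) (hδ : ∀ i, 0 < δ i)
    (W : ℝ → Euc d → ℝ) (A : ℝ × Euc d → ℝ≥0∞) (B : Fin d → ℝ × Euc d → ℝ≥0∞)
    (hAm : Measurable A) (hBm : ∀ i, Measurable (B i))
    (h0 : ∀ i, ∀ z ∈ ball c (3 * ρ), ∀ t ∈ Icc (δ i) (2 * δ i),
      ENNReal.ofReal ((W t z - W 0 z) ^ 2) ≤ ENNReal.ofReal (2 * δ i) * ∫⁻ s, A (s, z))
    (h1 : ∀ i, ∀ t ∈ Icc (δ i) (2 * δ i), ∀ z τ, z ∈ ball c (3 * ρ) →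
      z + τ • EuclideanSpace.single i (1 : ℝ) ∈ ball c (3 * ρ) →
      ENNReal.ofReal ((W t (z + τ • EuclideanSpace.single i (1 : ℝ)) - W t z) ^ 2) ≤
        ENNReal.ofReal (τ ^ 2) *
          ∫⁻ s in Icc (0 : ℝ) 1, B i (t, z + (s * τ) • EuclideanSpace.single i (1 : ℝ)))
    (E : ℝ≥0∞) (hA : ∀ i, ENNReal.ofReal (δ i) * ∫⁻ q, A q ≤ E)
    (hB : ∀ i, ∫⁻ q in Icc (δ i) (2 * δ i) ×ˢ univ, B i q ≤ ENNReal.ofReal (δ i) * E) :
    ∫⁻ x in ball c ρ, ∫⁻ y in ball c ρ, ENNReal.ofReal ((W 0 x - W 0 y) ^ 2) ≤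
      locConst d ρ * E := by
  let α : Euc d → ℝ≥0∞ := fun z => ∫⁻ s, A (s, z)
  have hα : Measurable α := hAm.lintegral_prod_left'
  let γ : Fin d → Euc d → ℝ≥0∞ := fun i z => ∫⁻ t in Icc (δ i) (2 * δ i), B i (t, z)
  have hγ : ∀ i, Measurable (γ i) := fun i => (hBm i).lintegral_prod_left'
  let e : Fin d → Euc d := fun i => EuclideanSpace.single i (1 : ℝ)
  let β : Fin d → Euc d × ℝ → ℝ≥0∞ := fun i q =>
    ∫⁻ s in Icc (0 : ℝ) 1, γ i (q.1 + (s * q.2) • e i)
  have hβ' : ∀ i, Measurable fun r : (Euc d × ℝ) × ℝ => γ i (r.1.1 + (r.2 * r.1.2) • e i) :=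
    fun i => (hγ i).comp (by fun_prop)
  have hβ : ∀ i, Measurable (β i) := fun i => (hβ' i).lintegral_prod_right'
  let G : Fin d → Euc d × ℝ → ℝ≥0∞ := fun i q =>
    3 * (ENNReal.ofReal (2 * δ i) * α (q.1 + q.2 • e i) +
      (ENNReal.ofReal (δ i))⁻¹ * (ENNReal.ofReal (q.2 ^ 2) * β i q) +
      ENNReal.ofReal (2 * δ i) * α q.1)
  have hδ0 : ∀ i, ENNReal.ofReal (δ i) ≠ 0 := fun i => by simpa using hδ i
  unfold locConst
  rw [mul_assoc]
  refine ball_poincare c (W 0) G (fun i => ?_) _ (fun i τ hτ => ?_) (fun i z τ hz hz' => ?_)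
  · refine Measurable.const_mul (((hα.comp (by fun_prop)).const_mul _).add
      ((Measurable.mul (by fun_prop) (hβ i)).const_mul _) |>.add
        ((hα.comp measurable_fst).const_mul _)) _
  · have m1 : Measurable fun z : Euc d => α (z + τ • e i) := hα.comp (by fun_prop)
    have m2 : Measurable fun z : Euc d => β i (z, τ) := (hβ i).comp (by fun_prop)
    have iα : ∫⁻ z, α z = ∫⁻ q, A q := by
      rw [Measure.volume_eq_prod, lintegral_prod_symm _ hAm.aemeasurable]
    have iγ : ∫⁻ z, γ i z = ∫⁻ q in Icc (δ i) (2 * δ i) ×ˢ univ, B i q := by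
      rw [Measure.volume_eq_prod, ← Measure.prod_restrict, Measure.restrict_univ,
        lintegral_prod_symm _ (hBm i).aemeasurable]
    have iβ : ∫⁻ z, β i (z, τ) = ∫⁻ z, γ i z := by
      have hm : Measurable fun r : Euc d × ℝ => γ i (r.1 + (r.2 * τ) • e i) :=
        (hγ i).comp (by fun_prop)
      simp only [β]
      rw [lintegral_lintegral_swap (f := fun z s => γ i (z + (s * τ) • e i)) hm.aemeasurable]
      simp only [lintegral_add_right_eq_self (γ i)]
      simp
    have e1 : ENNReal.ofReal (2 * δ i) * ∫⁻ q, A q ≤ 2 * E := by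
      rw [ENNReal.ofReal_mul zero_le_two, ENNReal.ofReal_ofNat, mul_assoc]
      exact mul_le_mul_right (hA i) _
    have e2 : (ENNReal.ofReal (δ i))⁻¹ * (ENNReal.ofReal (τ ^ 2) *
        ∫⁻ q in Icc (δ i) (2 * δ i) ×ˢ univ, B i q) ≤ ENNReal.ofReal (4 * ρ ^ 2) * E := by
      calc _ ≤ (ENNReal.ofReal (δ i))⁻¹ * (ENNReal.ofReal (4 * ρ ^ 2) *
            (ENNReal.ofReal (δ i) * E)) := by
            refine mul_le_mul_right (mul_le_mul' (ENNReal.ofReal_le_ofReal ?_) (hB i)) _
            rw [← sq_abs τ]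
            nlinarith [abs_nonneg τ]
        _ = ((ENNReal.ofReal (δ i))⁻¹ * ENNReal.ofReal (δ i)) *
            (ENNReal.ofReal (4 * ρ ^ 2) * E) := by ring
        _ = _ := by rw [ENNReal.inv_mul_cancel (hδ0 i) ENNReal.ofReal_ne_top, one_mul]
    simp only [G]
    rw [lintegral_const_mul' _ _ (by norm_num : (3 : ℝ≥0∞) ≠ ⊤),
      lintegral_add_right _ (hα.const_mul _),
      lintegral_add_left (m1.const_mul _), lintegral_const_mul _ m1,
      lintegral_const_mul _ (m2.const_mul _), lintegral_const_mul _ m2, lintegral_const_mul _ hα,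
      lintegral_add_right_eq_self α, iα, iβ, iγ]
    calc _ ≤ 3 * (2 * E + ENNReal.ofReal (4 * ρ ^ 2) * E + 2 * E) := by gcongr
      _ = ENNReal.ofReal (12 + 12 * ρ ^ 2) * E := by
        rw [show 12 + 12 * ρ ^ 2 = 3 * (4 + 4 * ρ ^ 2) by ring,
          ENNReal.ofReal_mul (p := 3) (by norm_num),
          ENNReal.ofReal_add (by norm_num) (by positivity),
          ENNReal.ofReal_ofNat, ENNReal.ofReal_ofNat]
        ring
  · -- average the three-step estimate over the slab
    have hpt : ∀ t ∈ Icc (δ i) (2 * δ i),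
        ENNReal.ofReal ((W 0 (z + τ • e i) - W 0 z) ^ 2) ≤
          3 * (ENNReal.ofReal (2 * δ i) * α (z + τ • e i) +
            ENNReal.ofReal (τ ^ 2) * (∫⁻ s in Icc (0 : ℝ) 1, B i (t, z + (s * τ) • e i)) +
            ENNReal.ofReal (2 * δ i) * α z) := by
      intro t ht
      have := ofReal_three (-(W t (z + τ • e i) - W 0 (z + τ • e i)))
        (W t (z + τ • e i) - W t z) (W t z - W 0 z)
      rw [neg_sq, show -(W t (z + τ • e i) - W 0 (z + τ • e i)) + (W t (z + τ • e i) - W t z) +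
        (W t z - W 0 z) = W 0 (z + τ • e i) - W 0 z by ring] at this
      refine this.trans (mul_le_mul_right (add_le_add (add_le_add ?_ ?_) ?_) _)
      · exact h0 i _ hz' t ht
      · exact h1 i t ht z τ hz hz'
      · exact h0 i _ hz t ht
    have hvol : volume (Icc (δ i) (2 * δ i)) = ENNReal.ofReal (δ i) := by
      rw [Real.volume_Icc]; congr 1; ring
    have hm : Measurable fun r : ℝ × ℝ => B i (r.1, z + (r.2 * τ) • e i) :=
      (hBm i).comp (by fun_prop)
    have hm' : Measurable fun t : ℝ => ∫⁻ s in Icc (0 : ℝ) 1, B i (t, z + (s * τ) • e i) :=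
      hm.lintegral_prod_right'
    have hint := setLIntegral_mono' (μ := volume) measurableSet_Icc hpt
    rw [setLIntegral_const, hvol, lintegral_const_mul' _ _ (by norm_num : (3 : ℝ≥0∞) ≠ ⊤),
      lintegral_add_right _ measurable_const, lintegral_add_left measurable_const,
      lintegral_const_mul _ hm', setLIntegral_const, setLIntegral_const, hvol,
      lintegral_lintegral_swap (f := fun t s => B i (t, z + (s * τ) • e i))
        hm.aemeasurable] at hint
    have hfin : ENNReal.ofReal (δ i) * G i (z, τ) =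
        3 * (ENNReal.ofReal (2 * δ i) * α (z + τ • e i) * ENNReal.ofReal (δ i) +
          ENNReal.ofReal (τ ^ 2) * β i (z, τ) +
          ENNReal.ofReal (2 * δ i) * α z * ENNReal.ofReal (δ i)) := by
      simp only [G]
      have := ENNReal.mul_inv_cancel (hδ0 i) (ENNReal.ofReal_ne_top (r := δ i))
      calc _ = 3 * (ENNReal.ofReal (2 * δ i) * α (z + τ • e i) * ENNReal.ofReal (δ i) +
          (ENNReal.ofReal (δ i) * (ENNReal.ofReal (δ i))⁻¹) *
            (ENNReal.ofReal (τ ^ 2) * β i (z, τ)) +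
          ENNReal.ofReal (2 * δ i) * α z * ENNReal.ofReal (δ i)) := by ring
        _ = _ := by rw [this, one_mul]
    refine (ENNReal.mul_le_mul_iff_right (hδ0 i) ENNReal.ofReal_ne_top).1 ?_
    rw [hfin, mul_comm]
    exact hint

end Pool.Agent.P.MP_07ee5e_gt
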