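import Pool.Agent.P.MP_07ee5e_gt.Field

/-! Finiteness of the first eigenvalue and the global estimates. -/

set_option autoImplicit false

open scoped Manifold ContDiff ENNReal Topology
open MeasureTheory Set Bundle Metric Filter

noncomputable section

namespace Pool.Agent.P.MP_07ee5e_gt

variable {d : ℕ} {M : Type*} [TopologicalSpace M]
  [ChartedSpace (EuclideanHalfSpace (d + 1)) M] [IsManifold (𝓡∂ (d + 1)) ∞ M]

lemma gradSq_bound_on (g : RMetric d M) {u : M → ℝ} (hu : ContMDiff (𝓡∂ (d + 1)) 𝓘(ℝ, ℝ) ∞ u)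
    {p : M} {K : Set M} (hK : IsCompact K) (hKs : K ⊆ (ch d p).source) :
    ∃ C : ℝ≥0∞, C ≠ ⊤ ∧ ∀ x ∈ K, gradSq g u x ≤ C := by
  have h1 : ContinuousOn (fun x => Dc (d := d) u p x) (ch d p).source :=
    continuousOn_clm_apply.2 (continuousOn_Dc_apply hu p)
  have hs : MapsTo Prod.fst (K ×ˢ sphere (0 : Euc (d + 1)) 1) (ch d p).source :=
    fun q hq => hKs hq.1
  have h2 : ContinuousOn (fun q : M × Euc (d + 1) => Dc u p q.1 q.2 ^ 2 / form g p q.1 q.2 q.2)
      (K ×ˢ sphere (0 : Euc (d + 1)) 1) := by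
    refine (((h1.comp continuousOn_fst hs).clm_apply continuousOn_snd).pow 2).div
      ((((continuousOn_form g p).comp continuousOn_fst hs).clm_apply
        continuousOn_snd).clm_apply continuousOn_snd) fun q hq => ?_
    exact (form_pos g (hKs hq.1) (ne_zero_of_mem_unit_sphere ⟨q.2, hq.2⟩)).ne'
  obtain ⟨C, hC⟩ := (hK.prod (isCompact_sphere _ _)).bddAbove_image h2
  refine ⟨ENNReal.ofReal C, ENNReal.ofReal_ne_top, fun x hx => iSup_le fun v => ?_⟩
  obtain ⟨w, rfl⟩ := fr_surjective (hKs hx) v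
  change ENNReal.ofReal (Dc u p x w ^ 2 / form g p x w w) ≤ _
  rcases eq_or_ne w 0 with rfl | hw
  · simp
  · have hn : ‖w‖ ≠ 0 := norm_ne_zero_iff.2 hw
    have h3 := hC (mem_image_of_mem _ (show (x, ‖w‖⁻¹ • w) ∈ K ×ˢ sphere (0 : Euc (d + 1)) 1 from
      ⟨hx, by simp [norm_smul, hn]⟩))
    refine ENNReal.ofReal_le_ofReal (le_of_eq_of_le ?_ h3)
    have h4 := (form_pos g (hKs hx) hw).ne'
    simp only [map_smul, _root_.smul_apply, smul_eq_mul]
    field_simp

lemma exists_two_points (hd : 2 ≤ d) (B : Box d M) :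
    ∃ x ∈ (𝓡∂ (d + 1)).boundary M, ∃ y ∈ (𝓡∂ (d + 1)).boundary M, x ≠ y := by
  have hρ := B.ρ_pos
  have key : ∀ z ∈ closedBall B.c (4 * B.ρ), kap (0, z) ∈ (ch d B.p).target :=
    fun z hz => B.sub ⟨by simpa using B.h_pos.le, by rwa [projL_kap]⟩
  have key2 : ∀ z ∈ closedBall B.c (4 * B.ρ),
      (ch d B.p).symm (kap (0, z)) ∈ (𝓡∂ (d + 1)).boundary M := fun z hz => by
    rw [mem_boundary_iff ((ch d B.p).map_target (key z hz)), (ch d B.p).right_inv (key z hz),
      kap_zero]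
  let i : Fin d := ⟨0, by omega⟩
  have h1 : B.c ∈ closedBall B.c (4 * B.ρ) := mem_closedBall_self (by positivity)
  have h2 : B.c + EuclideanSpace.single i B.ρ ∈ closedBall B.c (4 * B.ρ) := by
    rw [mem_closedBall, dist_self_add_left, PiLp.norm_single, Real.norm_of_nonneg hρ.le]
    linarith
  refine ⟨_, key2 _ h1, _, key2 _ h2, fun h => ?_⟩
  have h3 := congrArg (fun y => y i.succ) ((ch d B.p).symm.injOn (key _ h1) (key _ h2) h)
  simp [hρ.ne'] at h3

variable [T2Space M] [MeasurableSpace M] [BorelSpace M]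

omit [T2Space M] [BorelSpace M] in
lemma area_congr {g g' : RMetric d M}
    (h : ∀ x ∈ (𝓡∂ (d + 1)).boundary M, g.inner x = g'.inner x) : area g = area g' := by
  unfold area chartArea paramMeasure
  congr 1
  funext p
  congr 1
  refine withDensity_congr_ae ?_
  filter_upwards [ae_restrict_mem (isOpen_preimage_target p).measurableSet] with z hz
  have : (ch d p).symm (bdryPt z) ∈ (ch d p).source ∩ (𝓡∂ (d + 1)).boundary M := by
    rw [← image_bdry]; exact ⟨z, hz, rfl⟩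
  simp only [gram, chartInner, innerAt, h _ this.2]

variable [CompactSpace M]

lemma energy_ne_top (g : RMetric d M) {u : M → ℝ} (hu : ContMDiff (𝓡∂ (d + 1)) 𝓘(ℝ, ℝ) ∞ u) :
    energy g u ≠ ⊤ := by
  have := isFiniteMeasure_vol g
  obtain ⟨C, hC, h⟩ : ∃ C : ℝ≥0∞, C ≠ ⊤ ∧ ∀ x ∈ (univ : Set M), gradSq g u x ≤ C := by
    refine isCompact_univ.induction_on
      (p := fun s => ∃ C : ℝ≥0∞, C ≠ ⊤ ∧ ∀ x ∈ s, gradSq g u x ≤ C) ⟨0, by simp, by simp⟩ ?_ ?_ ?_
    · rintro s t hst ⟨C, hC, h⟩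
      exact ⟨C, hC, fun x hx => h x (hst hx)⟩
    · rintro s t ⟨C, hC, h⟩ ⟨C', hC', h'⟩
      refine ⟨C + C', ENNReal.add_ne_top.2 ⟨hC, hC'⟩, ?_⟩
      rintro x (hx | hx)
      exacts [(h x hx).trans le_self_add, (h' x hx).trans le_add_self]
    · intro x _
      obtain ⟨K, hK, hKs, hKc⟩ :=
        local_compact_nhds (extChartAt_source_mem_nhds (I := 𝓡∂ (d + 1)) x)
      exact ⟨K, mem_nhdsWithin_of_mem_nhds hK, gradSq_bound_on g hu hKc hKs⟩
  refine ne_top_of_le_ne_top ?_ (lintegral_mono fun x => h x (mem_univ x))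
  rw [lintegral_const]
  exact ENNReal.mul_ne_top hC (measure_ne_top _ _)

lemma integrable_area (g : RMetric d M) {u : M → ℝ} (hu : Continuous u) :
    Integrable u (area g) := by
  have := isFiniteMeasure_area g
  exact hu.integrable_of_hasCompactSupport (HasCompactSupport.of_compactSpace u)

lemma steklov1_ne_top (hd : 2 ≤ d) (g : RMetric d M) (B : Box d M) : steklov1 g ≠ ⊤ := by
  have := isFiniteMeasure_area g
  obtain ⟨x, hx, y, hy, hxy⟩ := exists_two_points hd B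
  obtain ⟨ψ, hψ0, hψ1, -⟩ := exists_contMDiffMap_zero_one_of_isClosed (n := ⊤) (𝓡∂ (d + 1))
    (isClosed_singleton (x := x)) (isClosed_singleton (x := y)) (disjoint_singleton.2 hxy)
  have ha : (area g).real univ ≠ 0 := ENNReal.toReal_ne_zero.2
    ⟨area_ne_zero g isOpen_univ ⟨x, mem_univ _, hx⟩, measure_ne_top _ _⟩
  let u : M → ℝ := fun z => ψ z - (∫ w, ψ w ∂area g) / (area g).real univ
  have hu : ContMDiff (𝓡∂ (d + 1)) 𝓘(ℝ, ℝ) ∞ u := ψ.contMDiff.sub contMDiff_const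
  have h0 : ∫ z, u z ∂area g = 0 := by
    rw [integral_sub (integrable_area g ψ.contMDiff.continuous) (integrable_const _),
      integral_const, smul_eq_mul]
    field_simp
    ring
  have h1 : ∫ z, u z ^ 2 ∂area g ≠ 0 := by
    intro h
    rw [integral_eq_zero_iff_of_nonneg (fun z => sq_nonneg _)
      (integrable_area g (hu.continuous.pow 2))] at h
    have h2 : ∀ z ∈ (𝓡∂ (d + 1)).boundary M, u z = 0 := by
      intro z hz
      by_contra h3
      refine area_ne_zero g (isOpen_ne_fun hu.continuous continuous_const) ⟨z, h3, hz⟩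
        (measure_mono_null (fun w hw => ?_) h)
      simpa using hw
    have h3 := (h2 x hx).trans (h2 y hy).symm
    simp only [u, hψ0 rfl, hψ1 rfl, Pi.zero_apply, Pi.one_apply] at h3
    linarith
  refine ne_top_of_le_ne_top ?_ (iInf_le_of_le u (iInf_le_of_le hu (iInf_le_of_le h0
    (iInf_le_of_le h1 le_rfl))))
  refine ENNReal.div_ne_top (energy_ne_top g hu) ?_
  rw [ne_eq, ENNReal.ofReal_eq_zero, not_le]
  exact lt_of_le_of_ne (integral_nonneg fun z => sq_nonneg _) h1.symm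

theorem exists_family (hd : 2 ≤ d) (hc : IsConnected ((𝓡∂ (d + 1)).boundary M))
    (g₀ : RMetric d M) : ∃ (K A : ℝ≥0∞), K ≠ 0 ∧ K ≠ ⊤ ∧ A ≠ ⊤ ∧ ∃ g : ℝ → RMetric d M,
      ∀ T : ℝ, 1 ≤ T → (∀ x ∈ (𝓡∂ (d + 1)).boundary M, (g T).inner x = g₀.inner x) ∧
        ENNReal.ofReal T * area g₀ univ / K ≤ steklov1 (g T) ∧
        vol (g T) univ ≤ A * ENNReal.ofReal T := by
  classical
  have := isFiniteMeasure_area g₀
  have hcpt : IsCompact ((𝓡∂ (d + 1)).boundary M) := isClosed_bdry.isCompact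
  obtain ⟨t, ht⟩ := hcpt.elim_finite_subcover (fun B : Box d M => B.U) Box.isOpen_U
    fun x hx => mem_iUnion.2 (exists_box hx)
  obtain ⟨A, hA, h⟩ := exists_field hd g₀ (t ×ˢ Finset.univ)
  choose! X K hX hK hKb hX0 hXF hvol using h
  let g : ℝ → RMetric d M := fun T => if hT : 1 ≤ T then deform g₀ (X T) (hX T hT) else g₀
  have hg : ∀ T (hT : 1 ≤ T), g T = deform g₀ (X T) (hX T hT) := fun T hT => dif_pos hT
  let S : Set ((M → ℝ) × ℝ≥0∞) := {q | ContMDiff (𝓡∂ (d + 1)) 𝓘(ℝ, ℝ) ∞ q.1 ∧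
    ∃ T : ℝ, 1 ≤ T ∧ q.2 = ENNReal.ofReal T⁻¹ * energy (g T) q.1}
  obtain ⟨C, hC, hrel⟩ : Rel (area g₀) S ((𝓡∂ (d + 1)).boundary M) ((𝓡∂ (d + 1)).boundary M) := by
    refine glue hcpt hc (fun U hU => area_ne_zero g₀ hU) (fun q hq => hq.1.continuous.measurable)
      fun x hx => ?_
    obtain ⟨B, hB, hxB⟩ := mem_iUnion₂.1 (ht hx)
    obtain ⟨C, hC⟩ := (eventually_isBound g₀ B).exists
    refine ⟨B.U, B.isOpen_U, hxB, ENNReal.ofReal C * ENNReal.ofReal C * locConst d B.ρ *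
      ENNReal.ofReal (C ^ (d + 2)), ENNReal.mul_ne_top (ENNReal.mul_ne_top (ENNReal.mul_ne_top
        ENNReal.ofReal_ne_top ENNReal.ofReal_ne_top) (locConst_ne_top _ _)) ENNReal.ofReal_ne_top,
      ?_⟩
    rintro ⟨u, E⟩ ⟨hu, T, hT, hE⟩
    simp only at hu hE ⊢
    rw [hE, hg T hT]
    refine local_estimate hd g₀ B hC (by linarith) (hX T hT) (fun i => ?_) hu
    obtain ⟨δ, b, h1, h2, h3, h4, h5, h6⟩ := hXF T hT (B, i) (by simp [hB])
    exact ⟨δ, b, h1, h2, h3, h4, h5, fun y hy => (h6 y hy).2⟩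
  refine ⟨C + 1, A, by simp, by simpa using hC, hA, g, fun T hT => ?_⟩
  have hb : ∀ x ∈ (𝓡∂ (d + 1)).boundary M, (g T).inner x = g₀.inner x := fun x hx => by
    rw [hg T hT]
    exact deform_inner_of_zero g₀ _ (hX0 T hT x fun h => disjoint_left.1 (hKb T hT) h hx)
  refine ⟨hb, ?_, ?_⟩
  · refine le_iInf fun u => le_iInf fun hu => le_iInf fun h0 => le_iInf fun h1 => ?_
    rw [area_congr hb] at h0 h1 ⊢
    have h2 := mul_le_osc (integrable_area g₀ hu.continuous)
      (integrable_area g₀ (hu.continuous.pow 2)) h0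
    have h3 := hrel (u, ENNReal.ofReal T⁻¹ * energy (g T) u) ⟨hu, T, hT, rfl⟩
    simp only [osc, area_restrict_boundary, Measure.restrict_univ] at h2 h3
    have hI : ENNReal.ofReal (∫ x, u x ^ 2 ∂area g₀) ≠ 0 := by
      rw [ne_eq, ENNReal.ofReal_eq_zero, not_le]
      exact lt_of_le_of_ne (integral_nonneg fun z => sq_nonneg _) (Ne.symm h1)
    rw [ENNReal.le_div_iff_mul_le (Or.inl hI) (Or.inl ENNReal.ofReal_ne_top), mul_comm,
      ← mul_div_assoc, ENNReal.div_le_iff (by simp) (by simpa using hC)]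
    calc _ = ENNReal.ofReal T * (ENNReal.ofReal (∫ x, u x ^ 2 ∂area g₀) * area g₀ univ) := by ring
      _ ≤ ENNReal.ofReal T * (C * (ENNReal.ofReal T⁻¹ * energy (g T) u)) :=
        mul_le_mul_right (h2.trans h3) _
      _ = (ENNReal.ofReal T * ENNReal.ofReal T⁻¹) * (energy (g T) u * C) := by ring
      _ = energy (g T) u * C := by
        rw [← ENNReal.ofReal_mul (by linarith), mul_inv_cancel₀ (by linarith), ENNReal.ofReal_one,
          one_mul]
      _ ≤ _ := mul_le_mul_right le_self_add _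
  · rw [hg T hT]
    exact (vol_deform_le g₀ _).trans (hvol T hT)

theorem main (hd : 2 ≤ d) (hc : IsConnected ((𝓡∂ (d + 1)).boundary M)) (g₀ : RMetric d M) :
    ∃ g : ℝ → RMetric d M,
      (∀ ε, ∀ x ∈ (𝓡∂ (d + 1)).boundary M, (g ε).inner x = g₀.inner x) ∧
      Tendsto (fun ε => (steklov1 (g ε)).toReal * (area (g ε) univ).toReal *
        (vol (g ε) univ).toReal ^ ((1 - (d : ℝ)) / (d + 1))) (𝓝[>] 0) atTop := by
  obtain ⟨K, A, hK0, hK, hA, g, hg⟩ := exists_family hd hc g₀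
  obtain ⟨x₀, hx₀⟩ := hc.nonempty
  obtain ⟨B, -⟩ := exists_box hx₀
  have := isFiniteMeasure_area g₀
  refine ⟨fun ε => g (max 1 ε⁻¹), fun ε => (hg _ (le_max_left _ _)).1, ?_⟩
  have ha : 0 < (area g₀ univ).toReal := ENNReal.toReal_pos
    (area_ne_zero g₀ isOpen_univ ⟨x₀, mem_univ _, hx₀⟩) (measure_ne_top _ _)
  have hk : 0 < K.toReal := ENNReal.toReal_pos hK0 hK
  have hd' : (2 : ℝ) ≤ d := by exact_mod_cast hd
  set e : ℝ := (1 - (d : ℝ)) / (d + 1) with he
  have he0 : e ≤ 0 := div_nonpos_of_nonpos_of_nonneg (by linarith) (by linarith)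
  have he1 : 0 < 1 + e := by
    rw [he, one_add_div (by linarith)]
    exact div_pos (by linarith) (by linarith)
  have hlim : Tendsto (fun ε : ℝ => max 1 ε⁻¹) (𝓝[>] 0) atTop :=
    tendsto_atTop_mono (fun ε => le_max_right _ _) tendsto_inv_nhdsGT_zero
  have hA0 : 0 < A.toReal + 1 := by positivity
  have hlim2 := ((tendsto_rpow_atTop he1).comp hlim).const_mul_atTop
    (r := (area g₀ univ).toReal / K.toReal * (area g₀ univ).toReal * (A.toReal + 1) ^ e)
    (by positivity)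
  refine tendsto_atTop_mono (fun ε => ?_) hlim2
  simp only [Function.comp_apply]
  have hT := le_max_left 1 ε⁻¹
  set T := max 1 ε⁻¹
  have hT0 : 0 < T := by linarith
  obtain ⟨h1, h2, h3⟩ := hg T hT
  have := isFiniteMeasure_vol (g T)
  have h4 := ENNReal.toReal_mono (steklov1_ne_top hd (g T) B) h2
  have h5 := ENNReal.toReal_mono (ENNReal.mul_ne_top hA ENNReal.ofReal_ne_top) h3
  rw [ENNReal.toReal_div, ENNReal.toReal_mul, ENNReal.toReal_ofReal hT0.le] at h4
  rw [ENNReal.toReal_mul, ENNReal.toReal_ofReal hT0.le] at h5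
  have h6 : 0 < (vol (g T) univ).toReal :=
    ENNReal.toReal_pos (vol_ne_zero _ B) (measure_ne_top _ _)
  have h7 : ((A.toReal + 1) * T) ^ e ≤ (vol (g T) univ).toReal ^ e :=
    Real.rpow_le_rpow_of_nonpos h6 (by nlinarith) he0
  rw [area_congr h1]
  calc _ = T * (area g₀ univ).toReal / K.toReal * (area g₀ univ).toReal *
        ((A.toReal + 1) * T) ^ e := by
        rw [Real.mul_rpow hA0.le hT0.le, Real.rpow_add hT0, Real.rpow_one]
        ring
    _ ≤ _ := by gcongr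

end Pool.Agent.P.MP_07ee5e_gt
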