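import Pool.Agent.P.MP_07ee5e_gt.Defs

/-! Parametrised measures: integration formula, change of variables, gluing. -/

set_option autoImplicit false

open scoped ENNReal
open MeasureTheory Set

noncomputable section

namespace Pool.Agent.P.MP_07ee5e_gt

variable {M : Type*} [TopologicalSpace M] [T2Space M] [MeasurableSpace M] [BorelSpace M] {m : ℕ}

/-- A well behaved parametrisation. -/
structure IsParam (P : Euc m → M) (T : Set (Euc m)) (G : Euc m → Matrix (Fin m) (Fin m) ℝ) :
    Prop where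
  meas : MeasurableSet T
  cont : ContinuousOn P T
  inj : InjOn P T
  contDet : ContinuousOn (fun y => (G y).det) T

variable {P P₀ P₁ : Euc m → M} {T T₀ T₁ : Set (Euc m)}
  {G G₀ G₁ : Euc m → Matrix (Fin m) (Fin m) ℝ}

lemma IsParam.measurableSet_image (h : IsParam P T G) {s : Set (Euc m)} (hs : MeasurableSet s)
    (hsT : s ⊆ T) : MeasurableSet (P '' s) :=
  hs.image_of_continuousOn_injOn (h.cont.mono hsT) (h.inj.mono hsT)

omit [T2Space M] in
lemma IsParam.measurableSet_preimage (h : IsParam P T G) {A : Set M} (hA : MeasurableSet A) :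
    MeasurableSet (T ∩ P ⁻¹' A) := by
  have h1 : Measurable (T.domRestrict P) :=
    (continuousOn_iff_continuous_domRestrict.1 h.cont).measurable
  have h2 := (MeasurableEmbedding.subtype_coe h.meas).measurableSet_image.2 (h1 hA)
  convert h2 using 1
  ext y
  simp [and_comm]

lemma IsParam.lintegral (h : IsParam P T G) (f : M → ℝ≥0∞) :
    ∫⁻ x, f x ∂paramMeasure P T G = ∫⁻ y in T, ENNReal.ofReal √(G y).det * f (P y) := by
  have hemb := h.cont.measurableEmbedding h.meas h.inj
  set ν := ((volume : Measure (Euc m)).restrict T).withDensity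
    fun y => ENNReal.ofReal √(G y).det with hν
  have hνT : ν.restrict T = ν := by
    rw [hν, restrict_withDensity h.meas, Measure.restrict_restrict h.meas, inter_self]
  have h1 : paramMeasure P T G = (Measure.comap (↑) ν).map (T.domRestrict P) := by
    have hae : AEMeasurable P (Measure.map ((↑) : T → Euc m) (Measure.comap (↑) ν)) := by
      rw [map_comap_subtype_coe h.meas]
      exact h.cont.aemeasurable h.meas
    have := AEMeasurable.map_map_of_aemeasurable hae measurable_subtype_coe.aemeasurable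
    rw [map_comap_subtype_coe h.meas, hνT] at this
    exact this
  have hd : AEMeasurable (fun y => ENNReal.ofReal √(G y).det) (volume.restrict T) :=
    ((ENNReal.continuous_ofReal.comp Real.continuous_sqrt).comp_continuousOn
      h.contDet).aemeasurable h.meas
  rw [h1, hemb.lintegral_map]
  change ∫⁻ a : T, (fun y => f (P y)) a ∂_ = _
  rw [lintegral_subtype_comap h.meas (fun y => f (P y)), hνT, hν,
    lintegral_withDensity_eq_lintegral_mul_non_measurable₀ _ hd
      (Filter.Eventually.of_forall fun _ => ENNReal.ofReal_lt_top)]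
  rfl

lemma IsParam.setLIntegral (h : IsParam P T G) {A : Set M} (hA : MeasurableSet A)
    (f : M → ℝ≥0∞) :
    ∫⁻ x in A, f x ∂paramMeasure P T G =
      ∫⁻ y in T ∩ P ⁻¹' A, ENNReal.ofReal √(G y).det * f (P y) := by
  rw [← lintegral_indicator hA, h.lintegral, ← lintegral_indicator h.meas,
    ← lintegral_indicator (h.measurableSet_preimage hA)]
  congr 1
  funext y
  by_cases hy : y ∈ T <;> by_cases hy' : P y ∈ A <;> simp [hy, hy']

lemma IsParam.apply (h : IsParam P T G) {A : Set M} (hA : MeasurableSet A) :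
    paramMeasure P T G A = ∫⁻ y in T ∩ P ⁻¹' A, ENNReal.ofReal √(G y).det := by
  have := h.setLIntegral hA fun _ => 1
  simpa using this

lemma IsParam.compl_image (h : IsParam P T G) : paramMeasure P T G (P '' T)ᶜ = 0 := by
  rw [h.apply (h.measurableSet_image h.meas subset_rfl).compl]
  have : T ∩ P ⁻¹' (P '' T)ᶜ = ∅ := by
    ext y
    simp only [mem_inter_iff, mem_preimage, mem_compl_iff, mem_empty_iff_false, iff_false, not_and,
      not_not]
    exact fun hy => mem_image_of_mem _ hy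
  rw [this]
  simp

/-- Change of variables between two parametrisations. -/
lemma IsParam.restrict_le (h₀ : IsParam P₀ T₀ G₀) (h₁ : IsParam P₁ T₁ G₁) (τ : Euc m → Euc m)
    (J : Euc m → Euc m →L[ℝ] Euc m)
    (hτ : ∀ y ∈ T₁ ∩ P₁ ⁻¹' (P₀ '' T₀), τ y ∈ T₀ ∧ P₀ (τ y) = P₁ y)
    (hJ : ∀ y ∈ T₁ ∩ P₁ ⁻¹' (P₀ '' T₀), HasFDerivWithinAt τ (J y) (T₁ ∩ P₁ ⁻¹' (P₀ '' T₀)) y)
    (hG : ∀ y ∈ T₁ ∩ P₁ ⁻¹' (P₀ '' T₀), (G₁ y).det = (J y).det ^ 2 * (G₀ (τ y)).det) :
    (paramMeasure P₀ T₀ G₀).restrict (P₁ '' T₁) ≤ paramMeasure P₁ T₁ G₁ := by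
  rw [Measure.le_iff]
  intro A hA
  have hm₀ := h₀.measurableSet_image h₀.meas subset_rfl
  have hm₁ := h₁.measurableSet_image h₁.meas subset_rfl
  rw [Measure.restrict_apply hA, h₀.apply (hA.inter hm₁), h₁.apply hA]
  let s := T₁ ∩ P₁ ⁻¹' (A ∩ P₀ '' T₀)
  have hs : MeasurableSet s := h₁.measurableSet_preimage (hA.inter hm₀)
  have hsub : s ⊆ T₁ ∩ P₁ ⁻¹' (P₀ '' T₀) := fun y hy => ⟨hy.1, hy.2.2⟩
  have himg : T₀ ∩ P₀ ⁻¹' (A ∩ P₁ '' T₁) = τ '' s := by
    ext y₀
    constructor
    · rintro ⟨hy₀, hA', y₁, hy₁, he⟩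
      have hy₁s : y₁ ∈ s := ⟨hy₁, by rw [mem_preimage, he]; exact ⟨hA', y₀, hy₀, rfl⟩⟩
      obtain ⟨h1, h2⟩ := hτ y₁ (hsub hy₁s)
      exact ⟨y₁, hy₁s, h₀.inj h1 hy₀ (h2.trans he)⟩
    · rintro ⟨y₁, hy₁, rfl⟩
      obtain ⟨h1, h2⟩ := hτ y₁ (hsub hy₁)
      exact ⟨h1, by rw [mem_preimage, h2]; exact ⟨hy₁.2.1, y₁, hy₁.1, rfl⟩⟩
  have hinj : InjOn τ s := by
    intro a ha b hb hab
    refine h₁.inj ha.1 hb.1 ?_
    rw [← (hτ a (hsub ha)).2, ← (hτ b (hsub hb)).2, hab]
  rw [himg, lintegral_image_eq_lintegral_abs_det_fderiv_mul volume hs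
    (fun y hy => (hJ y (hsub hy)).mono hsub) hinj]
  calc _ = ∫⁻ y in s, ENNReal.ofReal √(G₁ y).det := by
        refine setLIntegral_congr_fun hs fun y hy => ?_
        rw [hG y (hsub hy), Real.sqrt_mul (sq_nonneg _), Real.sqrt_sq_eq_abs,
          ENNReal.ofReal_mul (abs_nonneg _)]
    _ ≤ _ := lintegral_mono_set (show s ⊆ T₁ ∩ P₁ ⁻¹' A from fun y hy => ⟨hy.1, hy.2.1⟩)

omit [TopologicalSpace M] [T2Space M] [BorelSpace M] in
/-- Gluing: the supremum of compatible measures restricts to each of them. -/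
lemma restrict_iSup_le {ι : Type*} (μ : ι → Measure M) (O : Set M) (hO : MeasurableSet O)
    (ν : Measure M) (h : ∀ q, (μ q).restrict O ≤ ν) : (⨆ q, μ q).restrict O ≤ ν := by
  have h1 : (⨆ q, μ q) ≤ ν + (⨆ q, μ q).restrict Oᶜ := by
    refine iSup_le fun q => ?_
    rw [← Measure.restrict_add_restrict_compl (μ := μ q) hO]
    exact add_le_add (h q) (Measure.restrict_mono subset_rfl (le_iSup μ q))
  refine (Measure.restrict_mono subset_rfl h1).trans ?_
  rw [Measure.restrict_add, Measure.restrict_restrict hO, inter_compl_self, Measure.restrict_empty,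
    add_zero]
  exact Measure.restrict_le_self

omit [TopologicalSpace M] [T2Space M] [BorelSpace M] in
lemma iSup_null {ι : Type*} (μ : ι → Measure M) (O : Set M) (hO : MeasurableSet O)
    (h : ∀ q, μ q O = 0) : (⨆ q, μ q) O = 0 := by
  have := restrict_iSup_le μ O hO 0 fun q => by
    rw [Measure.restrict_eq_zero.2 (h q)]
  rw [← Measure.restrict_eq_zero]
  exact le_antisymm this bot_le

/-- Determinant of the matrix of a pulled back bilinear form. -/
lemma det_pullback (B : Euc m →L[ℝ] Euc m →L[ℝ] ℝ) (J : Euc m →L[ℝ] Euc m) :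
    (Matrix.of fun i j => B (J (EuclideanSpace.single i (1 : ℝ)))
      (J (EuclideanSpace.single j (1 : ℝ)))).det =
    J.det ^ 2 * (Matrix.of fun i j => B (EuclideanSpace.single i (1 : ℝ))
      (EuclideanSpace.single j (1 : ℝ))).det := by
  classical
  let b := (EuclideanSpace.basisFun (Fin m) ℝ).toBasis
  let N : Matrix (Fin m) (Fin m) ℝ := LinearMap.toMatrix b b (J : Euc m →ₗ[ℝ] Euc m)
  have hN : N.det = J.det := LinearMap.det_toMatrix b _
  have hJ : ∀ i, J (EuclideanSpace.single i (1 : ℝ)) =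
      ∑ k, N k i • EuclideanSpace.single k (1 : ℝ) := by
    intro i
    have := (b.sum_repr (J (b i))).symm
    simpa [N, b, LinearMap.toMatrix_apply] using this
  have : (Matrix.of fun i j => B (J (EuclideanSpace.single i (1 : ℝ)))
      (J (EuclideanSpace.single j (1 : ℝ)))) = N.transpose * (Matrix.of fun i j =>
        B (EuclideanSpace.single i (1 : ℝ)) (EuclideanSpace.single j (1 : ℝ))) * N := by
    ext i j
    simp only [Matrix.of_apply, hJ, map_sum, map_smul, Matrix.mul_apply, Matrix.transpose_apply,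
      _root_.sum_apply, _root_.smul_apply, smul_eq_mul, Finset.sum_mul,
      Finset.mul_sum]
    refine Finset.sum_congr rfl fun k _ => Finset.sum_congr rfl fun l _ => by ring
  rw [this, Matrix.det_mul, Matrix.det_mul, Matrix.det_transpose, hN]
  ring

end Pool.Agent.P.MP_07ee5e_gt
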