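import Pool.Agent.P.MP_07ee5e_gt.Main

/-! Comparison of energies and eigenvalues of two metrics. -/

set_option autoImplicit false

open scoped Manifold ContDiff ENNReal Topology
open MeasureTheory Set Bundle Metric Filter

noncomputable section

namespace Pool.Agent.P.MP_07ee5e_gt

variable {d : ℕ} {M : Type*} [TopologicalSpace M]
  [ChartedSpace (EuclideanHalfSpace (d + 1)) M] [IsManifold (𝓡∂ (d + 1)) ∞ M]

lemma gradSq_le_of_le {g g' : RMetric d M} {x : M} {a : ℝ} (ha : 0 < a)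
    (h : ∀ v, a * g.inner x v v ≤ g'.inner x v v) (u : M → ℝ) :
    gradSq g' u x ≤ ENNReal.ofReal a⁻¹ * gradSq g u x := by
  refine iSup_le fun v => ?_
  rcases eq_or_ne v 0 with rfl | hv
  · have h0 : innerAt g' x 0 0 = 0 := by
      change g'.inner x 0 0 = 0
      simp
    simp [h0]
  · have h1 : 0 < g.inner x v v := g.pos x v hv
    refine le_trans ?_ (mul_le_mul_right (le_iSup (fun v : TangentSpace (𝓡∂ (d + 1)) x =>
      ENNReal.ofReal (diffApply (𝓡∂ (d + 1)) u x v ^ 2 / innerAt g x v v)) v) _)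
    rw [← ENNReal.ofReal_mul (by positivity)]
    refine ENNReal.ofReal_le_ofReal ?_
    change _ / g'.inner x v v ≤ a⁻¹ * (_ / g.inner x v v)
    rw [← mul_div_assoc, ← div_eq_inv_mul, div_div]
    exact div_le_div_of_nonneg_left (sq_nonneg _) (by positivity) (h v)

variable [T2Space M] [MeasurableSpace M] [BorelSpace M]

lemma vol_le_withDensity (g g' : RMetric d M) (f : M → ℝ) (hf : ∀ x, 0 ≤ f x)
    (h : ∀ p y, y ∈ (ch d p).target →
      √(gram g' p y).det ≤ f ((ch d p).symm y) * √(gram g p y).det) :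
    vol g' ≤ (vol g).withDensity fun x => ENNReal.ofReal (f x) := by
  refine iSup_le fun p => Measure.le_iff.2 fun A hA => ?_
  rw [withDensity_apply _ hA]
  refine le_trans ?_ (lintegral_mono' (Measure.restrict_mono subset_rfl (chartVol_le g p)) le_rfl)
  rw [chartVol, chartVol, (isParam_vol _ p).apply hA, (isParam_vol g p).setLIntegral hA]
  refine setLIntegral_mono' ((isParam_vol g p).measurableSet_preimage hA) fun y hy => ?_
  rw [mul_comm, ← ENNReal.ofReal_mul (hf _)]
  exact ENNReal.ofReal_le_ofReal (h p y hy.1)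

omit [T2Space M] [BorelSpace M] in
lemma steklov1_le (g : RMetric d M) {u : M → ℝ} (hu : ContMDiff (𝓡∂ (d + 1)) 𝓘(ℝ, ℝ) ∞ u)
    (h0 : ∫ x, u x ∂area g = 0) (h1 : ∫ x, u x ^ 2 ∂area g ≠ 0) :
    steklov1 g ≤ (∫⁻ x, gradSq g u x ∂vol g) / ENNReal.ofReal (∫ x, u x ^ 2 ∂area g) :=
  iInf_le_of_le u (iInf_le_of_le hu (iInf_le_of_le h0 (iInf_le_of_le h1 le_rfl)))

omit [T2Space M] [BorelSpace M] in
lemma steklov1_compare {g g' : RMetric d M}
    (hb : ∀ x ∈ (𝓡∂ (d + 1)).boundary M, g.inner x = g'.inner x) {f : M → ℝ≥0∞}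
    (hf : Measurable f) (hvol : vol g ≤ (vol g').withDensity f) {a : ℝ≥0∞} (ha : a ≠ ⊤)
    (hpt : ∀ u x, f x * (a * gradSq g u x) ≤ gradSq g' u x) :
    a * steklov1 g ≤ steklov1 g' := by
  refine le_iInf fun u => le_iInf fun hu => le_iInf fun h0 => le_iInf fun h1 => ?_
  rw [← area_congr hb] at h0 h1 ⊢
  refine (mul_le_mul_right (steklov1_le g hu h0 h1) _).trans ?_
  rw [← mul_div_assoc, ← lintegral_const_mul' _ _ ha]
  refine ENNReal.div_le_div_right ?_ _
  exact ((lintegral_mono' hvol le_rfl).trans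
    (lintegral_withDensity_le_lintegral_mul _ hf _)).trans (lintegral_mono fun x => hpt u x)

end Pool.Agent.P.MP_07ee5e_gt
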