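import Pool.Agent.P.MP_07ee5e_gt.Sharp

/-! The exact order of the first eigenvalue under a volume bound and a lower bound on the metric. -/

set_option autoImplicit false

open scoped Manifold ContDiff ENNReal Topology
open MeasureTheory Set Bundle Metric Filter

noncomputable section

namespace Pool.Agent.P.MP_07ee5e_gt

variable {d : ℕ} {M : Type*} [TopologicalSpace M]
  [ChartedSpace (EuclideanHalfSpace (d + 1)) M] [IsManifold (𝓡∂ (d + 1)) ∞ M]
  [T2Space M] [MeasurableSpace M] [BorelSpace M] [CompactSpace M]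

omit [MeasurableSpace M] [BorelSpace M] in
lemma gradSq_bound (g : RMetric d M) {u : M → ℝ} (hu : ContMDiff (𝓡∂ (d + 1)) 𝓘(ℝ, ℝ) ∞ u) :
    ∃ C : ℝ≥0∞, C ≠ ⊤ ∧ ∀ x ∈ (univ : Set M), gradSq g u x ≤ C := by
  refine isCompact_univ.induction_on
    (p := fun s => ∃ C : ℝ≥0∞, C ≠ ⊤ ∧ ∀ x ∈ s, gradSq g u x ≤ C) ⟨0, by simp, by simp⟩ ?_ ?_ ?_
  · rintro s t hst ⟨C, hC, h⟩
    exact ⟨C, hC, fun x hx => h x (hst hx)⟩
  · rintro s t ⟨C, hC, h⟩ ⟨C', hC', h'⟩
    refine ⟨C + C', ENNReal.add_ne_top.2 ⟨hC, hC'⟩, ?_⟩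
    rintro x (hx | hx)
    exacts [(h x hx).trans le_self_add, (h' x hx).trans le_add_self]
  · intro x _
    obtain ⟨K, hK, hKs, hKc⟩ :=
      local_compact_nhds (extChartAt_source_mem_nhds (I := 𝓡∂ (d + 1)) x)
    exact ⟨K, mem_nhdsWithin_of_mem_nhds hK, gradSq_bound_on g hu hKc hKs⟩

lemma exists_test (hd : 2 ≤ d) (g : RMetric d M) (B : Box d M) :
    ∃ u : M → ℝ, ContMDiff (𝓡∂ (d + 1)) 𝓘(ℝ, ℝ) ∞ u ∧ ∫ z, u z ∂area g = 0 ∧
      ∫ z, u z ^ 2 ∂area g ≠ 0 := by
  have := isFiniteMeasure_area g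
  obtain ⟨x, hx, y, hy, hxy⟩ := exists_two_points hd B
  obtain ⟨ψ, hψ0, hψ1, -⟩ := exists_contMDiffMap_zero_one_of_isClosed (n := ⊤) (𝓡∂ (d + 1))
    (isClosed_singleton (x := x)) (isClosed_singleton (x := y)) (disjoint_singleton.2 hxy)
  have ha : (area g).real univ ≠ 0 := ENNReal.toReal_ne_zero.2
    ⟨area_ne_zero g isOpen_univ ⟨x, mem_univ _, hx⟩, measure_ne_top _ _⟩
  let u : M → ℝ := fun z => ψ z - (∫ w, ψ w ∂area g) / (area g).real univ
  have hu : ContMDiff (𝓡∂ (d + 1)) 𝓘(ℝ, ℝ) ∞ u := ψ.contMDiff.sub contMDiff_const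
  have h0 : ∫ z, u z ∂area g = 0 := by
    rw [integral_sub (integrable_area g ψ.contMDiff.continuous) (integrable_const _),
      integral_const, smul_eq_mul]
    field_simp
    ring
  have h1 : ∫ z, u z ^ 2 ∂area g ≠ 0 := by
    intro h
    rw [integral_eq_zero_iff_of_nonneg (fun z => sq_nonneg _)
      (integrable_area g (hu.continuous.pow 2))] at h
    have h2 : ∀ z ∈ (𝓡∂ (d + 1)).boundary M, u z = 0 := by
      intro z hz
      by_contra h3
      refine area_ne_zero g (isOpen_ne_fun hu.continuous continuous_const) ⟨z, h3, hz⟩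
        (measure_mono_null (fun w hw => ?_) h)
      simpa using hw
    have h3 := (h2 x hx).trans (h2 y hy).symm
    simp only [u, hψ0 rfl, hψ1 rfl, Pi.zero_apply, Pi.one_apply] at h3
    linarith
  exact ⟨u, hu, h0, h1⟩

theorem exists_family_deform (hd : 2 ≤ d) (hc : IsConnected ((𝓡∂ (d + 1)).boundary M))
    (g₀ : RMetric d M) : ∃ (K A : ℝ≥0∞), K ≠ 0 ∧ K ≠ ⊤ ∧ A ≠ ⊤ ∧ ∃ g : ℝ → RMetric d M,
      ∀ T : ℝ, 1 ≤ T → (∃ X, ∃ hX : IsField X, g T = deform g₀ X hX) ∧
        (∀ x ∈ (𝓡∂ (d + 1)).boundary M, (g T).inner x = g₀.inner x) ∧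
        ENNReal.ofReal T * area g₀ univ / K ≤ steklov1 (g T) ∧
        vol (g T) univ ≤ A * ENNReal.ofReal T := by
  classical
  have := isFiniteMeasure_area g₀
  have hcpt : IsCompact ((𝓡∂ (d + 1)).boundary M) := isClosed_bdry.isCompact
  obtain ⟨t, ht⟩ := hcpt.elim_finite_subcover (fun B : Box d M => B.U) Box.isOpen_U
    fun x hx => mem_iUnion.2 (exists_box hx)
  obtain ⟨A, hA, h⟩ := exists_field hd g₀ (t ×ˢ Finset.univ)
  choose! X K hX hK hKb hX0 hXF hvol using h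
  let g : ℝ → RMetric d M := fun T => if hT : 1 ≤ T then deform g₀ (X T) (hX T hT) else g₀
  have hg : ∀ T (hT : 1 ≤ T), g T = deform g₀ (X T) (hX T hT) := fun T hT => dif_pos hT
  let S : Set ((M → ℝ) × ℝ≥0∞) := {q | ContMDiff (𝓡∂ (d + 1)) 𝓘(ℝ, ℝ) ∞ q.1 ∧
    ∃ T : ℝ, 1 ≤ T ∧ q.2 = ENNReal.ofReal T⁻¹ * energy (g T) q.1}
  obtain ⟨C, hC, hrel⟩ : Rel (area g₀) S ((𝓡∂ (d + 1)).boundary M) ((𝓡∂ (d + 1)).boundary M) := by
    refine glue hcpt hc (fun U hU => area_ne_zero g₀ hU) (fun q hq => hq.1.continuous.measurable)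
      fun x hx => ?_
    obtain ⟨B, hB, hxB⟩ := mem_iUnion₂.1 (ht hx)
    obtain ⟨C, hC⟩ := (eventually_isBound g₀ B).exists
    refine ⟨B.U, B.isOpen_U, hxB, ENNReal.ofReal C * ENNReal.ofReal C * locConst d B.ρ *
      ENNReal.ofReal (C ^ (d + 2)), ENNReal.mul_ne_top (ENNReal.mul_ne_top (ENNReal.mul_ne_top
        ENNReal.ofReal_ne_top ENNReal.ofReal_ne_top) (locConst_ne_top _ _)) ENNReal.ofReal_ne_top,
      ?_⟩
    rintro ⟨u, E⟩ ⟨hu, T, hT, hE⟩
    simp only at hu hE ⊢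
    rw [hE, hg T hT]
    refine local_estimate hd g₀ B hC (by linarith) (hX T hT) (fun i => ?_) hu
    obtain ⟨δ, b, h1, h2, h3, h4, h5, h6⟩ := hXF T hT (B, i) (by simp [hB])
    exact ⟨δ, b, h1, h2, h3, h4, h5, fun y hy => (h6 y hy).2⟩
  refine ⟨C + 1, A, by simp, by simpa using hC, hA, g, fun T hT => ?_⟩
  have hb : ∀ x ∈ (𝓡∂ (d + 1)).boundary M, (g T).inner x = g₀.inner x := fun x hx => by
    rw [hg T hT]
    exact deform_inner_of_zero g₀ _ (hX0 T hT x fun h => disjoint_left.1 (hKb T hT) h hx)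
  refine ⟨⟨X T, hX T hT, hg T hT⟩, hb, ?_, ?_⟩
  · refine le_iInf fun u => le_iInf fun hu => le_iInf fun h0 => le_iInf fun h1 => ?_
    rw [area_congr hb] at h0 h1 ⊢
    have h2 := mul_le_osc (integrable_area g₀ hu.continuous)
      (integrable_area g₀ (hu.continuous.pow 2)) h0
    have h3 := hrel (u, ENNReal.ofReal T⁻¹ * energy (g T) u) ⟨hu, T, hT, rfl⟩
    simp only [osc, area_restrict_boundary, Measure.restrict_univ] at h2 h3
    have hI : ENNReal.ofReal (∫ x, u x ^ 2 ∂area g₀) ≠ 0 := by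
      rw [ne_eq, ENNReal.ofReal_eq_zero, not_le]
      exact lt_of_le_of_ne (integral_nonneg fun z => sq_nonneg _) (Ne.symm h1)
    rw [ENNReal.le_div_iff_mul_le (Or.inl hI) (Or.inl ENNReal.ofReal_ne_top), mul_comm,
      ← mul_div_assoc, ENNReal.div_le_iff (by simp) (by simpa using hC)]
    calc _ = ENNReal.ofReal T * (ENNReal.ofReal (∫ x, u x ^ 2 ∂area g₀) * area g₀ univ) := by ring
      _ ≤ ENNReal.ofReal T * (C * (ENNReal.ofReal T⁻¹ * energy (g T) u)) :=
        mul_le_mul_right (h2.trans h3) _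
      _ = (ENNReal.ofReal T * ENNReal.ofReal T⁻¹) * (energy (g T) u * C) := by ring
      _ = energy (g T) u * C := by
        rw [← ENNReal.ofReal_mul (by linarith), mul_inv_cancel₀ (by linarith), ENNReal.ofReal_one,
          one_mul]
      _ ≤ _ := mul_le_mul_right le_self_add _
  · rw [hg T hT]
    exact (vol_deform_le g₀ _).trans (hvol T hT)

/-- The upper bound: one fixed test function. -/
theorem upper_bound (hd : 2 ≤ d) (g₀ : RMetric d M) (B : Box d M) :
    ∃ C : ℝ, 0 < C ∧ ∀ g : RMetric d M,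
      (∀ x ∈ (𝓡∂ (d + 1)).boundary M, g.inner x = g₀.inner x) →
      (∀ x v, g₀.inner x v v ≤ g.inner x v v) →
      steklov1 g ≤ ENNReal.ofReal C * vol g univ := by
  obtain ⟨u, hu, h0, h1⟩ := exists_test hd g₀ B
  obtain ⟨C, hC, hb⟩ := gradSq_bound g₀ hu
  have hI : 0 < ∫ z, u z ^ 2 ∂area g₀ :=
    lt_of_le_of_ne (integral_nonneg fun z => sq_nonneg _) h1.symm
  refine ⟨(C.toReal + 1) / ∫ z, u z ^ 2 ∂area g₀, by positivity, fun g hg hle => ?_⟩
  rw [← area_congr hg] at h0 h1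
  refine (steklov1_le g hu h0 h1).trans ?_
  rw [area_congr hg]
  have h2 : ∫⁻ x, gradSq g u x ∂vol g ≤ ENNReal.ofReal (C.toReal + 1) * vol g univ := by
    have h3 : ∀ x, gradSq g u x ≤ C := fun x => by
      have := gradSq_le_of_le (g := g₀) (g' := g) (x := x) one_pos
        (fun v => by rw [one_mul]; exact hle x v) u
      exact le_trans (by simpa using this) (hb x (mem_univ x))
    refine (lintegral_mono h3).trans ?_
    rw [lintegral_const]
    refine mul_le_mul_left ?_ _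
    conv_lhs => rw [← ENNReal.ofReal_toReal hC]
    exact ENNReal.ofReal_le_ofReal (by linarith)
  refine (ENNReal.div_le_div_right h2 _).trans (le_of_eq ?_)
  rw [ENNReal.ofReal_div_of_pos hI, ENNReal.mul_div_right_comm]

/-- Deforming along a smooth field multiplies the eigenvalue by a bounded factor. -/
lemma steklov1_deform_le (g : RMetric d M) {X : ∀ x : M, TangentSpace (𝓡∂ (d + 1)) x}
    (hX : IsField X)
    (hb : ∀ x ∈ (𝓡∂ (d + 1)).boundary M, (deform g X hX).inner x = g.inner x) :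
    ∃ R : ℝ, 0 < R ∧ ENNReal.ofReal R⁻¹ * steklov1 (deform g X hX) ≤ steklov1 g := by
  have hc : Continuous fun x => √((1 + g.inner x (X x) (X x)) ^ d) := by
    refine Real.continuous_sqrt.comp ((continuous_const.add ?_).pow d)
    refine continuous_iff_continuousAt.2 fun x => ?_
    have hX' := hX x
    rw [← contMDiffWithinAt_univ] at hX'
    exact (contMDiffWithinAt_univ.1 (contMDiffWithinAt_inner g hX' hX')).continuousAt
  obtain ⟨R, hR⟩ := (isCompact_range hc).bddAbove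
  have hR' : ∀ x, √((1 + g.inner x (X x) (X x)) ^ d) ≤ max R 1 :=
    fun x => (hR ⟨x, rfl⟩).trans (le_max_left _ _)
  have hR0 : 0 < max R 1 := lt_max_of_lt_right one_pos
  refine ⟨max R 1, hR0, ?_⟩
  have h1 := vol_le_withDensity g (deform g X hX) (fun _ => max R 1) (fun _ => hR0.le)
    fun p y hy => by
      have h0 := inner_nonneg g _ (X ((ch d p).symm y))
      rw [det_gram_deform g hX hy, Real.sqrt_mul (by positivity)]
      exact mul_le_mul_of_nonneg_right (hR' _) (Real.sqrt_nonneg _)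
  refine steklov1_compare hb measurable_const h1 ENNReal.ofReal_ne_top fun u x => ?_
  rw [← mul_assoc, ← ENNReal.ofReal_mul hR0.le, mul_inv_cancel₀ hR0.ne', ENNReal.ofReal_one,
    one_mul]
  have h2 := gradSq_le_of_le (g := g) (g' := deform g X hX) (x := x) one_pos
    (fun v => by rw [one_mul]; exact le_defInner g X x v) u
  simpa using h2

/-- The lower bound. -/
theorem lower_bound (hd : 2 ≤ d) (hc : IsConnected ((𝓡∂ (d + 1)).boundary M))
    (g₀ : RMetric d M) : ∃ c : ℝ, 0 < c ∧ ∀ V : ℝ,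
      vol g₀ univ ≤ ENNReal.ofReal V → ∃ g : RMetric d M,
        (∀ x ∈ (𝓡∂ (d + 1)).boundary M, g.inner x = g₀.inner x) ∧
        (∀ x v, g₀.inner x v v ≤ g.inner x v v) ∧ vol g univ ≤ ENNReal.ofReal V ∧
        c * V ≤ (steklov1 g).toReal := by
  obtain ⟨K, A, hK0, hK, hA, g, hg⟩ := exists_family_deform hd hc g₀
  obtain ⟨x₀, hx₀⟩ := hc.nonempty
  obtain ⟨B, -⟩ := exists_box hx₀
  have := isFiniteMeasure_area g₀
  have ha : 0 < (area g₀ univ).toReal := ENNReal.toReal_pos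
    (area_ne_zero g₀ isOpen_univ ⟨x₀, mem_univ _, hx₀⟩) (measure_ne_top _ _)
  have hk : 0 < K.toReal := ENNReal.toReal_pos hK0 hK
  have hlow : ∀ T : ℝ, 1 ≤ T →
      T * (area g₀ univ).toReal / K.toReal ≤ (steklov1 (g T)).toReal := by
    intro T hT
    have h4 := ENNReal.toReal_mono (steklov1_ne_top hd (g T) B) (hg T hT).2.2.1
    rwa [ENNReal.toReal_div, ENNReal.toReal_mul, ENNReal.toReal_ofReal (by linarith)] at h4
  have hpos : 0 < (steklov1 g₀).toReal := by
    obtain ⟨⟨X, hX, h1⟩, h2, -⟩ := hg 1 le_rfl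
    have h3 := hlow 1 le_rfl
    rw [h1] at h2 h3
    obtain ⟨R, hR, h4⟩ := steklov1_deform_le g₀ hX h2
    have h5 := ENNReal.toReal_mono (steklov1_ne_top hd g₀ B) h4
    rw [ENNReal.toReal_mul, ENNReal.toReal_ofReal (by positivity)] at h5
    exact lt_of_lt_of_le (mul_pos (by positivity) (lt_of_lt_of_le (by positivity) h3)) h5
  have hA0 : 0 < A.toReal + 1 := by positivity
  set s := min ((area g₀ univ).toReal / K.toReal) (steklov1 g₀).toReal with hs
  have hs0 : 0 < s := lt_min (by positivity) hpos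
  refine ⟨s / (A.toReal + 1), by positivity, fun V hV => ?_⟩
  set T := V / (A.toReal + 1) with hT
  have hTs : s / (A.toReal + 1) * V = T * s := by rw [hT]; ring
  rw [hTs]
  rcases le_or_gt 1 T with h1 | h1
  · obtain ⟨⟨X, hX, h2⟩, h3, -, h4⟩ := hg T h1
    refine ⟨g T, h3, fun x v => by rw [h2]; exact le_defInner g₀ X x v, h4.trans ?_, ?_⟩
    · conv_lhs => rw [← ENNReal.ofReal_toReal hA]
      rw [← ENNReal.ofReal_mul ENNReal.toReal_nonneg]
      refine ENNReal.ofReal_le_ofReal ?_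
      calc _ ≤ (A.toReal + 1) * T := by gcongr; linarith
        _ = V := by rw [hT]; field_simp
    · refine le_trans ?_ (hlow T h1)
      rw [mul_div_assoc]
      exact mul_le_mul_of_nonneg_left (min_le_left _ _) (by linarith)
  · exact ⟨g₀, fun _ _ => rfl, fun _ _ => le_rfl, hV,
      (mul_le_of_le_one_left hs0.le h1.le).trans (min_le_right _ _)⟩

end Pool.Agent.P.MP_07ee5e_gt
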